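import Mathlib

set_option autoImplicit false

/-!
# Disjoint connected blobs over a finite kernel in hypergraphs with bounded edges
-/

namespace Pool.Agent.Q205.VC

open Set Relation

/-- together in an edge, outside `K` -/
def Rl (D : Set (Finset ℕ)) (K : Set ℕ) (u w : ℕ) : Prop :=
  u ∉ K ∧ w ∉ K ∧ ∃ e ∈ D, u ∈ e ∧ w ∈ e

/-- the component of `u` outside `K` -/
def Cmp (D : Set (Finset ℕ)) (K : Set ℕ) (u : ℕ) : Set ℕ := {w | ReflTransGen (Rl D K) u w}

theorem Rl.mono {D D' : Set (Finset ℕ)} {K K' : Set ℕ} (hD : D ⊆ D') (hK : K' ⊆ K) {u w : ℕ}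
    (h : Rl D K u w) : Rl D' K' u w :=
  ⟨fun h' => h.1 (hK h'), fun h' => h.2.1 (hK h'), by
    obtain ⟨e, he, h1⟩ := h.2.2
    exact ⟨e, hD he, h1⟩⟩

theorem Cmp.mono {D D' : Set (Finset ℕ)} {K K' : Set ℕ} (hD : D ⊆ D') (hK : K' ⊆ K) (u : ℕ) :
    Cmp D K u ⊆ Cmp D' K' u := fun _ hw => ReflTransGen.mono (fun _ _ h => Rl.mono hD hK h) _ _ hw

theorem self_mem_Cmp (D : Set (Finset ℕ)) (K : Set ℕ) (u : ℕ) : u ∈ Cmp D K u := .refl

/-- `D` is a finite set of edges not contained in `K`, all of them meet `F` inside `K`, and they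
connect `v`, outside `K`, with at least `s` elements outside `K` -/
structure Blob (H : Set (Finset ℕ)) (K F : Finset ℕ) (s : ℕ) (v : ℕ) (D : Finset (Finset ℕ)) :
    Prop where
  sub : ∀ e ∈ D, e ∈ H
  ne : ∀ e ∈ D, ¬ e ⊆ K
  far : ∀ e ∈ D, e ∩ F ⊆ K
  mem : v ∈ D.biUnion id \ K
  conn : ∀ w ∈ D.biUnion id \ K, w ∈ Cmp (D : Set (Finset ℕ)) K v
  card : s ≤ (D.biUnion id \ K).card

/-- `K` is the kernel of arbitrarily large and arbitrarily remote blobs -/
def BKernel (H : Set (Finset ℕ)) (K : Finset ℕ) : Prop :=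
  ∀ (F : Finset ℕ), K ⊆ F → ∀ s, ∃ v D, Blob H K F s v D

/-- the edges which meet `F` inside `K` -/
def Hr (H : Set (Finset ℕ)) (K F : Finset ℕ) : Set (Finset ℕ) := {e | e ∈ H ∧ e ∩ F ⊆ K}

theorem blob_of_large {H : Set (Finset ℕ)} {K F : Finset ℕ} {s v : ℕ} (hvK : v ∉ K)
    {T : Finset ℕ} (hT : (T : Set ℕ) ⊆ Cmp (Hr H K F) K v) (hs : s ≤ T.card) (h2 : 2 ≤ T.card) :
    ∃ D, Blob H K F s v D := by
  classical
  have key : ∀ w, w ∈ Cmp (Hr H K F) K v → ∃ D : Finset (Finset ℕ), (D : Set (Finset ℕ)) ⊆ Hr H K F ∧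
      (∀ e ∈ D, ¬ e ⊆ K) ∧ (w = v ∨ (w ∈ D.biUnion id \ K ∧ v ∈ D.biUnion id \ K)) ∧
      ∀ z ∈ D.biUnion id \ K, z ∈ Cmp (D : Set (Finset ℕ)) K v := by
    intro w hw
    induction hw with
    | refl => exact ⟨∅, by simp, by simp, Or.inl rfl, by simp⟩
    | @tail u w _ huw ih =>
      obtain ⟨D, h1, h2, h3, h4⟩ := ih
      obtain ⟨hu, hw, e, he, hue, hwe⟩ := huw
      have hu' : u ∈ Cmp (D : Set (Finset ℕ)) K v := by
        rcases h3 with h3 | h3
        · rw [h3]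
          exact self_mem_Cmp _ _ _
        · exact h4 u h3.1
      have hsub : (D : Set (Finset ℕ)) ⊆ (insert e D : Finset (Finset ℕ)) := by
        rw [Finset.coe_insert]
        exact subset_insert _ _
      have heD : e ∈ ((insert e D : Finset (Finset ℕ)) : Set (Finset ℕ)) :=
        Finset.mem_coe.2 (Finset.mem_insert_self _ _)
      have hz : ∀ z ∈ e, z ∉ K → z ∈ Cmp ((insert e D : Finset (Finset ℕ)) : Set (Finset ℕ)) K v :=
        fun z hz hzK => (Cmp.mono hsub subset_rfl v hu').tail ⟨hu, hzK, e, heD, hue, hz⟩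
      have hmem : ∀ z, z ∈ (insert e D).biUnion id \ K ↔ (z ∈ e ∨ z ∈ D.biUnion id) ∧ z ∉ K := by
        intro z
        rw [Finset.biUnion_insert, Finset.mem_sdiff, Finset.mem_union]
        exact Iff.rfl
      refine ⟨insert e D, ?_, ?_, Or.inr ⟨?_, ?_⟩, ?_⟩
      · rw [Finset.coe_insert]
        exact insert_subset he h1
      · intro e' he'
        rcases Finset.mem_insert.1 he' with rfl | he'
        · exact fun hK => hw (hK hwe)
        · exact h2 e' he'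
      · exact (hmem _).2 ⟨Or.inl hwe, hw⟩
      · rcases h3 with h3 | h3
        · rw [← h3]
          exact (hmem _).2 ⟨Or.inl hue, hu⟩
        · exact (hmem _).2 ⟨Or.inr (Finset.mem_sdiff.1 h3.2).1, hvK⟩
      · intro z hz'
        obtain ⟨h5 | h5, h6⟩ := (hmem _).1 hz'
        · exact hz z h5 h6
        · exact Cmp.mono hsub subset_rfl v (h4 z (Finset.mem_sdiff.2 ⟨h5, h6⟩))
  choose! g hg using key
  have hg' : ∀ w ∈ T, _ := fun w hw => hg w (hT hw)
  have hsub : ∀ w ∈ T, (g w : Set (Finset ℕ)) ⊆ (T.biUnion g : Finset (Finset ℕ)) := by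
    intro w hw e he
    exact Finset.mem_coe.2 (Finset.mem_biUnion.2 ⟨w, hw, he⟩)
  have hmem : ∀ z, z ∈ (T.biUnion g).biUnion id \ K ↔ ∃ w ∈ T, z ∈ (g w).biUnion id \ K := by
    intro z
    simp only [Finset.mem_sdiff, Finset.mem_biUnion, id]
    constructor
    · rintro ⟨⟨e, ⟨w, hw, he⟩, hz⟩, hK⟩
      exact ⟨w, hw, ⟨e, he, hz⟩, hK⟩
    · rintro ⟨w, hw, ⟨e, he, hz⟩, hK⟩
      exact ⟨⟨e, ⟨w, hw, he⟩, hz⟩, hK⟩
  obtain ⟨w0, hw0, hne⟩ : ∃ w ∈ T, w ≠ v := by
    by_contra hcon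
    push Not at hcon
    have : T ⊆ {v} := fun w hw => Finset.mem_singleton.2 (hcon w hw)
    have := Finset.card_le_card this
    rw [Finset.card_singleton] at this
    omega
  have hv : v ∈ (T.biUnion g).biUnion id \ K := by
    rcases (hg' w0 hw0).2.2.1 with h | h
    · exact absurd h hne
    · exact (hmem v).2 ⟨w0, hw0, h.2⟩
  refine ⟨T.biUnion g, ⟨?_, ?_, ?_, hv, ?_, ?_⟩⟩
  · intro e he
    obtain ⟨w, hw, he⟩ := Finset.mem_biUnion.1 he
    exact ((hg' w hw).1 he).1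
  · intro e he
    obtain ⟨w, hw, he⟩ := Finset.mem_biUnion.1 he
    exact (hg' w hw).2.1 e he
  · intro e he
    obtain ⟨w, hw, he⟩ := Finset.mem_biUnion.1 he
    exact ((hg' w hw).1 he).2
  · intro z hz
    obtain ⟨w, hw, hz⟩ := (hmem z).1 hz
    exact Cmp.mono (hsub w hw) subset_rfl v ((hg' w hw).2.2.2 z hz)
  · refine hs.trans (Finset.card_le_card fun w hw => ?_)
    rcases (hg' w hw).2.2.1 with h | h
    · rw [h]
      exact hv
    · exact (hmem w).2 ⟨w, hw, h.1⟩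

theorem fin_of_no_blob {H : Set (Finset ℕ)} {K F : Finset ℕ} {s : ℕ}
    (h : ∀ v D, ¬ Blob H K F s v D) (v : ℕ) (hv : v ∉ K) :
    (Cmp (Hr H K F) K v).Finite ∧ (Cmp (Hr H K F) K v).ncard ≤ s + 2 := by
  by_contra hcon
  have h1 : ∃ T : Finset ℕ, (T : Set ℕ) ⊆ Cmp (Hr H K F) K v ∧ T.card = s + 2 := by
    by_cases hf : (Cmp (Hr H K F) K v).Finite
    · have h2 : s + 2 < (Cmp (Hr H K F) K v).ncard := by
        by_contra h3
        exact hcon ⟨hf, by omega⟩
      obtain ⟨T, hT, hTc⟩ := Set.exists_subset_card_eq (s := Cmp (Hr H K F) K v) (n := s + 2)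
        (by omega)
      have hTf : T.Finite := hf.subset hT
      refine ⟨hTf.toFinset, ?_, ?_⟩
      · rw [hTf.coe_toFinset]
        exact hT
      · rw [← ncard_eq_toFinset_card T hTf]
        exact hTc
    · obtain ⟨T, hT, hTc⟩ := Set.Infinite.exists_subset_card_eq hf (s + 2)
      exact ⟨T, hT, hTc⟩
  obtain ⟨T, hT, hTc⟩ := h1
  obtain ⟨D, hD⟩ := blob_of_large (s := s) hv hT (by omega) (by omega)
  exact h v D hD

/-- **Kernels.** Without kernels the components outside some finite set are bounded. -/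
theorem bounded_of_no_kernel {H : Set (Finset ℕ)} {n : ℕ} (hn : ∀ e ∈ H, e.card ≤ n)
    (hK : ¬ ∃ K, BKernel H K) :
    ∃ (K : Finset ℕ) (M : ℕ), ∀ v, v ∉ K → (Cmp H K v).Finite ∧ (Cmp H K v).ncard ≤ M := by
  have h0 : ∀ K : Finset ℕ, ∃ F : Finset ℕ, K ⊆ F ∧ ∃ s, ∀ v D, ¬ Blob H K F s v D := by
    intro K
    by_contra h
    apply hK
    refine ⟨K, fun F hF s => ?_⟩
    by_contra h'
    exact h ⟨F, hF, s, fun v D hD => h' ⟨v, D, hD⟩⟩
  choose F hF s hs using h0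
  obtain ⟨f, f_succ⟩ : ∃ f : ℕ → Finset ℕ, ∀ r, f (r + 1) = F (f r) :=
    ⟨fun r => Nat.rec ∅ (fun _ K => F K) r, fun r => rfl⟩
  have f_mono : Monotone f := monotone_nat_of_le_succ fun r => by
    rw [f_succ]
    exact hF (f r)
  have hfin : ∀ (r v : ℕ), v ∉ f r → (Cmp (Hr H (f r) (f (r + 1))) (f r) v).Finite ∧
      (Cmp (Hr H (f r) (f (r + 1))) (f r) v).ncard ≤ s (f r) + 2 :=
    fun r v hv => by
      rw [f_succ]
      exact fin_of_no_blob (H := H) (hs (f r)) v hv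
  have hfin' : ∀ (r : ℕ) (p : {v : ℕ // v ∉ f r}), (Cmp (Hr H (f r) (f (r + 1))) (f r) p.1).Finite :=
    fun r p => (hfin r p.1 p.2).1
  classical
  let K : Finset ℕ := f (n + 1) ∪ (Finset.range (n + 1)).biUnion fun r =>
    (f (n + 1)).biUnion fun v => if h : v ∉ f r then (hfin' r ⟨v, h⟩).toFinset else ∅
  have hKf : f (n + 1) ⊆ K := Finset.subset_union_left
  have hKc : ∀ r ≤ n, ∀ v ∈ f (n + 1), v ∉ f r →
      ∀ w ∈ Cmp (Hr H (f r) (f (r + 1))) (f r) v, w ∈ K := by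
    intro r hr v hv hvr w hw
    refine Finset.mem_union_right _ (Finset.mem_biUnion.2 ⟨r, Finset.mem_range.2 (by omega), ?_⟩)
    refine Finset.mem_biUnion.2 ⟨v, hv, ?_⟩
    rw [dif_pos hvr]
    exact (hfin' r ⟨v, hvr⟩).mem_toFinset.2 hw
  have hpig : ∀ e ∈ H, ∃ r ≤ n, e ∩ f (r + 1) ⊆ f r := by
    intro e he
    by_contra hcon
    have h1 : ∀ r : Fin (n + 1), ∃ z ∈ e, z ∈ f (r + 1) ∧ z ∉ f r := by
      intro r
      refine Classical.by_contradiction fun hcon' => hcon ?_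
      refine ⟨r.1, by have := r.2; omega, fun z hz => ?_⟩
      refine Classical.by_contradiction fun hz' => ?_
      exact hcon' ⟨z, (Finset.mem_inter.1 hz).1, (Finset.mem_inter.1 hz).2, hz'⟩
    choose z hz1 hz2 hz3 using h1
    have hinj : Function.Injective z := by
      intro r r' hrr
      by_contra hne
      rcases lt_or_gt_of_ne hne with h | h
      · exact hz3 r' (hrr ▸ f_mono (show r.1 + 1 ≤ r'.1 from h) (hz2 r))
      · exact hz3 r (hrr ▸ f_mono (show r'.1 + 1 ≤ r.1 from h) (hz2 r'))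
    have h2 : (Finset.univ.image z).card = n + 1 := by
      rw [Finset.card_image_of_injective _ hinj, Finset.card_univ, Fintype.card_fin]
    have h3 : Finset.univ.image z ⊆ e := by
      intro w hw
      obtain ⟨r, -, rfl⟩ := Finset.mem_image.1 hw
      exact hz1 r
    have := Finset.card_le_card h3
    have := hn e he
    omega
  have hlast : ∀ e ∈ H, ¬ e ⊆ K → e ∈ Hr H (f n) (f (n + 1)) := by
    intro e he heK
    obtain ⟨r, hr, h1⟩ := hpig e he
    have h2 : ∀ z ∈ e, z ∈ f (n + 1) → z ∈ f r := by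
      intro z hz hzn
      by_contra hzr
      apply heK
      intro u hu
      by_cases hur : u ∈ f r
      · exact hKf (f_mono (by omega) hur)
      · exact hKc r hr z hzn hzr u (ReflTransGen.single ⟨hzr, hur, e, ⟨he, h1⟩, hz, hu⟩)
    refine ⟨he, fun z hz => f_mono hr ?_⟩
    exact h2 z (Finset.mem_inter.1 hz).1 (Finset.mem_inter.1 hz).2
  have hsub : ∀ v, Cmp H K v ⊆ Cmp (Hr H (f n) (f (n + 1))) (f n) v := by
    intro v w hw
    refine ReflTransGen.mono ?_ _ _ hw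
    rintro p q ⟨h1, h2, e, he, hp, hq⟩
    have hfK : f n ⊆ K := (f_mono (by omega)).trans hKf
    exact ⟨fun h => h1 (hfK h), fun h => h2 (hfK h), e, hlast e he fun h => h1 (h hp), hp, hq⟩
  refine ⟨K, s (f n) + 2, fun v hv => ?_⟩
  have hv' : v ∉ f n := fun h => hv (hKf (f_mono (by omega) h))
  exact ⟨(hfin n v hv').1.subset (hsub v),
    (ncard_le_ncard (hsub v) (hfin n v hv').1).trans (hfin n v hv').2⟩

/-- disjoint blobs over `K` with increasing sizes -/
structure Blobs (H : Set (Finset ℕ)) (K : Finset ℕ) (v : ℕ → ℕ) (D : ℕ → Finset (Finset ℕ))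
    (V : ℕ → Finset ℕ) : Prop where
  V_eq : ∀ j, V j = (D j).biUnion id \ K
  sub : ∀ j, ∀ e ∈ D j, e ∈ H
  ne : ∀ j, ∀ e ∈ D j, ¬ e ⊆ K
  mem : ∀ j, v j ∈ V j
  conn : ∀ j, ∀ w ∈ V j, w ∈ Cmp (D j : Set (Finset ℕ)) K (v j)
  disj : ∀ i j, i ≠ j → Disjoint (V i) (V j)
  two : ∀ j, 2 ≤ (V j).card
  mono : StrictMono fun j => (V j).card

theorem Blobs.edge_sub {H : Set (Finset ℕ)} {K : Finset ℕ} {v : ℕ → ℕ}
    {D : ℕ → Finset (Finset ℕ)} {V : ℕ → Finset ℕ} (h : Blobs H K v D V) {j : ℕ} {e : Finset ℕ}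
    (he : e ∈ D j) {u : ℕ} (hu : u ∈ e) (hK : u ∉ K) : u ∈ V j := by
  rw [h.V_eq]
  exact Finset.mem_sdiff.2 ⟨Finset.mem_biUnion.2 ⟨e, he, hu⟩, hK⟩

theorem Blobs.of_mem {H : Set (Finset ℕ)} {K : Finset ℕ} {v : ℕ → ℕ}
    {D : ℕ → Finset (Finset ℕ)} {V : ℕ → Finset ℕ} (h : Blobs H K v D V) {j : ℕ} {u : ℕ}
    (hu : u ∈ V j) : u ∉ K ∧ ∃ e ∈ D j, u ∈ e := by
  rw [h.V_eq] at hu
  obtain ⟨h1, h2⟩ := Finset.mem_sdiff.1 hu
  obtain ⟨e, he, hue⟩ := Finset.mem_biUnion.1 h1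
  exact ⟨h2, e, he, hue⟩

theorem exists_blobs {H : Set (Finset ℕ)} {K : Finset ℕ} (hK : BKernel H K) :
    ∃ v D V, Blobs H K v D V := by
  have h0 : ∀ p : Finset ℕ × ℕ, ∃ q : ℕ × Finset (Finset ℕ),
      Blob H K (p.1 ∪ K) (p.2 + 2) q.1 q.2 := by
    intro p
    obtain ⟨v, D, h⟩ := hK (p.1 ∪ K) Finset.subset_union_right (p.2 + 2)
    exact ⟨(v, D), h⟩
  choose q hq using h0
  let W : Finset ℕ × ℕ → Finset ℕ := fun p => (q p).2.biUnion id \ K
  let st : ℕ → Finset ℕ × ℕ := fun j =>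
    Nat.rec (∅, 0) (fun _ p => (p.1 ∪ W p, (W p).card)) j
  have st_succ : ∀ j, st (j + 1) = ((st j).1 ∪ W (st j), (W (st j)).card) := fun j => rfl
  have st_mono : ∀ i j, i ≤ j → (st i).1 ⊆ (st j).1 := by
    intro i j hij
    induction hij with
    | refl => exact subset_rfl
    | step h ih =>
      rw [st_succ]
      exact ih.trans Finset.subset_union_left
  have hsub : ∀ i j, i < j → W (st i) ⊆ (st j).1 := by
    intro i j hij
    refine subset_trans ?_ (st_mono (i + 1) j hij)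
    rw [st_succ]
    exact Finset.subset_union_right
  have hWd : ∀ j, Disjoint (W (st j)) (st j).1 := by
    intro j
    rw [Finset.disjoint_left]
    intro u hu hu'
    obtain ⟨h1, h2⟩ := Finset.mem_sdiff.1 hu
    obtain ⟨e, he, hue⟩ := Finset.mem_biUnion.1 h1
    exact h2 ((hq (st j)).far e he (Finset.mem_inter.2 ⟨hue, Finset.mem_union_left _ hu'⟩))
  have hcard : ∀ j, (st j).2 + 2 ≤ (W (st j)).card := fun j => (hq (st j)).card
  have hmono : StrictMono fun j => (W (st j)).card := by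
    refine strictMono_nat_of_lt_succ fun j => ?_
    have := hcard (j + 1)
    have e : (st (j + 1)).2 = (W (st j)).card := rfl
    omega
  refine ⟨fun j => (q (st j)).1, fun j => (q (st j)).2, fun j => W (st j), ⟨fun j => rfl,
    fun j e he => (hq (st j)).sub e he, fun j e he => (hq (st j)).ne e he,
    fun j => (hq (st j)).mem, fun j w hw => (hq (st j)).conn w hw,
    fun i j hij => ?_, fun j => ?_, hmono⟩⟩
  · rcases lt_or_gt_of_ne hij with h | h
    · exact (Finset.disjoint_of_subset_right (hsub i j h) (hWd j)).symm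
    · exact Finset.disjoint_of_subset_right (hsub j i h) (hWd i)
  · have := hcard j
    show 2 ≤ (W (st j)).card
    omega

end Pool.Agent.Q205.VC
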