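import Mathlib

set_option autoImplicit false

/-!
# From codes of structures to structures for a countable relational language
-/

namespace Pool.Agent.Q205.VC

open Set MeasureTheory FirstOrder FirstOrder.Language

/-- relational structures on `ℕ` -/
abbrev Str (a : ℕ → ℕ) : Type := (i : ℕ) → (Fin (a i) → ℕ) → Bool

/-- isomorphism -/
def Iso {a : ℕ → ℕ} (x y : Str a) : Prop :=
  ∃ σ : Equiv.Perm ℕ, ∀ (i : ℕ) (v : Fin (a i) → ℕ), y i (⇑σ ∘ v) = x i v

/-- countably many isomorphism types or a perfect set -/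
def CP {a : ℕ → ℕ} (B : Set (Str a)) : Prop :=
  (∃ f : ℕ → Str a, ∀ x ∈ B, ∃ n, Iso (f n) x) ∨
    ∃ g : (ℕ → Bool) → Str a, Continuous g ∧ (∀ c, g c ∈ B) ∧ ∀ c d, Iso (g c) (g d) → c = d

/-- the dichotomy for a class of structures -/
def DichC (L : FirstOrder.Language.{0, 0}) (B : Set (L.Structure ℕ)) : Prop :=
  (∃ g : ℕ → L.Structure ℕ, ∀ S ∈ B,
      ∃ n : ℕ, Nonempty (@FirstOrder.Language.Equiv L ℕ ℕ S (g n))) ∨
  (∃ f : (ℕ → Bool) → L.Structure ℕ,
      (∀ x : ℕ → Bool, f x ∈ B) ∧
      (∀ x y : ℕ → Bool,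
          Nonempty (@FirstOrder.Language.Equiv L ℕ ℕ (f x) (f y)) → x = y) ∧
      (∀ (n : ℕ) (R : L.Relations n) (a : Fin n → ℕ),
          IsClopen {x : ℕ → Bool | @FirstOrder.Language.Structure.RelMap L ℕ (f x) n R a}))

section conv

variable {L : FirstOrder.Language.{0, 0}} [L.IsRelational] {a : ℕ → ℕ}
  (enc : (Σ n, L.Relations n) → ℕ) (ha : ∀ r, a (enc r) = r.1)

/-- the `L`-structure of a code -/
@[reducible] def dcd (x : Str a) : L.Structure ℕ where
  funMap := fun {_} f => isEmptyElim f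
  RelMap := fun {n} R v => x (enc ⟨n, R⟩) (fun k => v (Fin.cast (ha ⟨n, R⟩) k)) = true

open Classical in
/-- the code of an `L`-structure -/
noncomputable def ecd (a : ℕ → ℕ) (S : L.Structure ℕ) : Str a :=
  fun i t => decide (∃ r : (Σ n, L.Relations n), enc r = i ∧ ∃ h : r.1 = a i,
    S.RelMap r.2 (fun k => t (Fin.cast h k)))

/-- codes which are false at the superfluous symbols -/
def GC (a : ℕ → ℕ) : Set (Str a) := {x | ∀ i, (∀ r, enc r ≠ i) → ∀ t, x i t = false}

open Classical in
theorem dcd_ecd (henc : Function.Injective enc) (S : L.Structure ℕ) :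
    dcd enc ha (ecd enc a S) = S := by
  apply Structure.ext
  · funext n f v
    exact isEmptyElim f
  · funext n R v
    show (decide _ = true) = S.RelMap R v
    rw [decide_eq_true_eq]
    apply propext
    constructor
    · rintro ⟨r, hr, h, h2⟩
      have : r = ⟨n, R⟩ := henc hr
      subst this
      exact h2
    · intro h
      exact ⟨⟨n, R⟩, rfl, (ha _).symm, h⟩

open Classical in
theorem ecd_GC (S : L.Structure ℕ) : ecd enc a S ∈ GC enc a := by
  intro i hi t
  show decide _ = false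
  rw [decide_eq_false_iff_not]
  rintro ⟨r, hr, -⟩
  exact hi r hr

open Classical in
/-- coding and decoding -/
theorem ecd_dcd {x : Str a} (hx : x ∈ GC enc a) (henc : Function.Injective enc) :
    ecd enc a (dcd enc ha x) = x := by
  funext i t
  by_cases hi : ∃ r, enc r = i
  · obtain ⟨r, rfl⟩ := hi
    rw [Bool.eq_iff_iff]
    show (decide _ = true) ↔ _
    rw [decide_eq_true_eq]
    constructor
    · rintro ⟨r', hr, h, h2⟩
      have : r' = r := henc hr
      subst this
      exact h2
    · intro h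
      exact ⟨r, rfl, (ha r).symm, h⟩
  · rw [hx i (fun r hr => hi ⟨r, hr⟩)]
    exact ecd_GC enc _ i (fun r hr => hi ⟨r, hr⟩) t

theorem iso_dcd {x y : Str a} (h : Iso x y) :
    Nonempty (@FirstOrder.Language.Equiv L ℕ ℕ (dcd enc ha x) (dcd enc ha y)) := by
  obtain ⟨e, h⟩ := h
  refine ⟨@FirstOrder.Language.Equiv.mk L ℕ ℕ (dcd enc ha x) (dcd enc ha y) e ?_ ?_⟩
  · intro n f v
    exact isEmptyElim f
  · intro n R v
    show (y (enc ⟨n, R⟩) (fun k => (e ∘ v) (Fin.cast (ha ⟨n, R⟩) k)) = true) ↔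
      (x (enc ⟨n, R⟩) (fun k => v (Fin.cast (ha ⟨n, R⟩) k)) = true)
    have := h (enc ⟨n, R⟩) (fun k => v (Fin.cast (ha ⟨n, R⟩) k))
    rw [← this]
    rfl

theorem dcd_iso {x y : Str a} (hx : x ∈ GC enc a) (hy : y ∈ GC enc a)
    (h : Nonempty (@FirstOrder.Language.Equiv L ℕ ℕ (dcd enc ha x) (dcd enc ha y))) : Iso x y := by
  obtain ⟨E⟩ := h
  refine ⟨@FirstOrder.Language.Equiv.toEquiv L ℕ ℕ (dcd enc ha x) (dcd enc ha y) E, ?_⟩
  intro i t
  by_cases hi : ∃ r, enc r = i
  · obtain ⟨r, rfl⟩ := hi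
    obtain ⟨n, R⟩ := r
    have h1 := @FirstOrder.Language.Equiv.map_rel' L ℕ ℕ (dcd enc ha x)
      (dcd enc ha y) E n R (fun k => t (Fin.cast (ha ⟨n, R⟩).symm k))
    have h2 : (y (enc ⟨n, R⟩) (@FirstOrder.Language.Equiv.toEquiv L ℕ ℕ (dcd enc ha x)
        (dcd enc ha y) E ∘ t) = true) ↔ (x (enc ⟨n, R⟩) t = true) := h1
    exact Bool.eq_iff_iff.2 h2
  · rw [hx i (fun r hr => hi ⟨r, hr⟩), hy i (fun r hr => hi ⟨r, hr⟩)]

theorem closed_GC : IsClosed (GC (L := L) enc a) := by
  have : GC (L := L) enc a = ⋂ (i : ℕ) (_ : ∀ r, enc r ≠ i) (t : Fin (a i) → ℕ),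
      {x : Str a | x i t = false} := by
    ext x
    simp only [GC, mem_ofPred_eq, mem_iInter]
  rw [this]
  refine isClosed_iInter fun i => isClosed_iInter fun _ => isClosed_iInter fun t => ?_
  have hc : Continuous (fun x : Str a => x i t) := (continuous_apply _).comp (continuous_apply _)
  exact (isClosed_discrete ({false} : Set Bool)).preimage hc

/-- the set of the codes at which a formula holds is Borel -/
theorem meas_realize {β : Type} {n : ℕ} (φ : L.BoundedFormula β n) (v : β → ℕ)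
    (xs : Fin n → ℕ) :
    MeasurableSet {x : Str a | @BoundedFormula.Realize L ℕ (dcd enc ha x) β n φ v xs} := by
  induction φ with
  | falsum => exact MeasurableSet.empty
  | equal t1 t2 =>
    have hv : ∀ {m} (t : L.Term (β ⊕ Fin m)), ∃ i, t = Term.var i := by
      intro m t
      cases t with
      | var i => exact ⟨i, rfl⟩
      | func f _ => exact isEmptyElim f
    obtain ⟨i1, rfl⟩ := hv t1
    obtain ⟨i2, rfl⟩ := hv t2
    by_cases h : Sum.elim v xs i1 = Sum.elim v xs i2
    · have e : {x : Str a | @BoundedFormula.Realize L ℕ (dcd enc ha x) β _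
          (BoundedFormula.equal (Term.var i1) (Term.var i2)) v xs} = univ := by
        ext x
        exact ⟨fun _ => trivial, fun _ => h⟩
      rw [e]
      exact MeasurableSet.univ
    · have e : {x : Str a | @BoundedFormula.Realize L ℕ (dcd enc ha x) β _
          (BoundedFormula.equal (Term.var i1) (Term.var i2)) v xs} = ∅ := by
        ext x
        exact ⟨fun h' => h h', fun h' => h'.elim⟩
      rw [e]
      exact MeasurableSet.empty
  | @rel m l R ts =>
    have hv : ∀ {m} (t : L.Term (β ⊕ Fin m)), ∃ i, t = Term.var i := by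
      intro m t
      cases t with
      | var i => exact ⟨i, rfl⟩
      | func f _ => exact isEmptyElim f
    choose g hg using fun i => hv (ts i)
    have e : {x : Str a | @BoundedFormula.Realize L ℕ (dcd enc ha x) β _
        (BoundedFormula.rel R ts) v xs} = {x : Str a | x (enc ⟨l, R⟩)
          (fun k => Sum.elim v xs (g (Fin.cast (ha ⟨l, R⟩) k))) = true} := by
      ext x
      show @Structure.RelMap L ℕ (dcd enc ha x) l R
        (fun i => @Term.realize L ℕ (dcd enc ha x) _ (Sum.elim v xs) (ts i)) ↔ _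
      have e2 : (fun i => @Term.realize L ℕ (dcd enc ha x) _ (Sum.elim v xs) (ts i)) =
          fun i => Sum.elim v xs (g i) := by
        funext i
        rw [hg i]
        rfl
      rw [e2]
      exact Iff.rfl
    rw [e]
    have hc : Continuous (fun x : Str a => x (enc ⟨l, R⟩)
        (fun k => Sum.elim v xs (g (Fin.cast (ha ⟨l, R⟩) k)))) :=
      (continuous_apply _).comp (continuous_apply _)
    exact ((isClopen_discrete ({true} : Set Bool)).preimage hc).isClosed.measurableSet
  | imp f1 f2 h1 h2 =>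
    have e : {x : Str a | @BoundedFormula.Realize L ℕ (dcd enc ha x) β _ (f1.imp f2) v xs} =
        {x : Str a | @BoundedFormula.Realize L ℕ (dcd enc ha x) β _ f1 v xs}ᶜ ∪
        {x : Str a | @BoundedFormula.Realize L ℕ (dcd enc ha x) β _ f2 v xs} := by
      ext x
      exact imp_iff_not_or
    rw [e]
    exact (h1 xs).compl.union (h2 xs)
  | all f h =>
    have e : {x : Str a | @BoundedFormula.Realize L ℕ (dcd enc ha x) β _ f.all v xs} =
        ⋂ u : ℕ, {x : Str a | @BoundedFormula.Realize L ℕ (dcd enc ha x) β _ f v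
          (Fin.snoc xs u)} := by
      ext x
      rw [mem_iInter]
      exact Iff.rfl
    rw [e]
    exact MeasurableSet.iInter fun u => h _

theorem meas_model [Countable (Σ n, L.Relations n)] (T : L.Theory) :
    MeasurableSet {x : Str a | @Theory.Model L ℕ (dcd enc ha x) T} := by
  have : Countable (Σ n, L.Functions n) := by
    refine @Finite.to_countable _ (@Finite.of_subsingleton _ ⟨?_⟩)
    rintro ⟨n, f⟩
    exact isEmptyElim f
  have hS : Countable L.Symbols := inferInstanceAs (Countable ((Σ n, L.Functions n) ⊕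
    Σ n, L.Relations n))
  have hs : Countable L.Sentence := by
    have h1 : Cardinal.mk (Σ n, L.BoundedFormula Empty n) ≤ Cardinal.aleph0 := by
      refine FirstOrder.Language.BoundedFormula.card_le.trans ?_
      simp only [max_le_iff, le_refl, true_and]
      have : L.card ≤ Cardinal.aleph0 := Cardinal.mk_le_aleph0_iff.2 hS
      simpa using this
    have h2 : Countable (Σ n, L.BoundedFormula Empty n) := Cardinal.mk_le_aleph0_iff.1 h1
    exact (sigma_mk_injective (β := fun n => L.BoundedFormula Empty n) (i := 0)).countable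
  have e : {x : Str a | @Theory.Model L ℕ (dcd enc ha x) T} =
      ⋂ φ ∈ T, {x : Str a | @Sentence.Realize L ℕ (dcd enc ha x) φ} := by
    ext x
    rw [mem_iInter₂]
    exact @Theory.model_iff L ℕ (dcd enc ha x) T
  rw [e]
  exact MeasurableSet.biInter T.to_countable fun φ _ => meas_realize enc ha φ _ _

theorem equiv_symm {S S' : L.Structure ℕ}
    (h : Nonempty (@FirstOrder.Language.Equiv L ℕ ℕ S S')) :
    Nonempty (@FirstOrder.Language.Equiv L ℕ ℕ S' S) := by
  obtain ⟨e⟩ := h
  exact ⟨@FirstOrder.Language.Equiv.symm L ℕ ℕ S S' e⟩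

theorem model_iso {T : L.Theory} {S S' : L.Structure ℕ}
    (h : Nonempty (@FirstOrder.Language.Equiv L ℕ ℕ S S')) (hS : @Theory.Model L ℕ S T) :
    @Theory.Model L ℕ S' T := by
  obtain ⟨e⟩ := h
  letI := S
  exact @StrongHomClass.theory_model L ℕ ℕ S S' T _ _ _ e hS

theorem GC_iso {x y : Str a} (h : Iso x y) (hx : x ∈ GC (L := L) enc a) : y ∈ GC enc a := by
  obtain ⟨σ, h⟩ := h
  intro i hi t
  have e : (⇑σ ∘ (⇑σ.symm ∘ t)) = t := by
    funext m
    exact σ.apply_symm_apply _
  rw [← e, h]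
  exact hx i hi _

theorem dichC_of_cp (henc : Function.Injective enc) (B : Set (L.Structure ℕ))
    (h : CP (GC enc a ∩ dcd enc ha ⁻¹' B)) : DichC L B := by
  have hto : ∀ S ∈ B, ecd enc a S ∈ GC enc a ∩ dcd enc ha ⁻¹' B := by
    intro S hS
    refine ⟨ecd_GC enc S, ?_⟩
    show dcd enc ha (ecd enc a S) ∈ B
    rw [dcd_ecd enc ha henc]
    exact hS
  rcases h with ⟨f, hf⟩ | ⟨g, hg, hgB, hgi⟩
  · left
    refine ⟨fun n => dcd enc ha (f n), fun S hS => ?_⟩
    obtain ⟨n, hn⟩ := hf _ (hto S hS)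
    have h1 := iso_dcd enc ha hn
    rw [dcd_ecd enc ha henc] at h1
    exact ⟨n, equiv_symm h1⟩
  · right
    refine ⟨fun x => dcd enc ha (g x), fun x => (hgB x).2,
      fun x y hxy => hgi x y (dcd_iso enc ha (hgB x).1 (hgB y).1 hxy), fun n R t => ?_⟩
    have hR : Continuous (fun x => g x (enc ⟨n, R⟩) (fun k => t (Fin.cast (ha ⟨n, R⟩) k))) :=
      (continuous_apply _).comp ((continuous_apply _).comp hg)
    exact (isClopen_discrete ({true} : Set Bool)).preimage hR

theorem iso_symm {x y : Str a} (h : Iso x y) : Iso y x := by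
  obtain ⟨σ, h⟩ := h
  refine ⟨σ.symm, fun i v => ?_⟩
  rw [← h]
  have e : (⇑σ ∘ (⇑σ.symm ∘ v)) = v := by
    funext m
    exact σ.apply_symm_apply _
  rw [e]

theorem inv_cls (T : L.Theory) (x y : Str a) (h : Iso x y) :
    x ∈ GC enc a ∩ dcd enc ha ⁻¹' {S | @Theory.Model L ℕ S T} ↔
      y ∈ GC enc a ∩ dcd enc ha ⁻¹' {S | @Theory.Model L ℕ S T} :=
  ⟨fun hx => ⟨GC_iso enc h hx.1, model_iso (iso_dcd enc ha h) hx.2⟩,
    fun hy => ⟨GC_iso enc (iso_symm h) hy.1, model_iso (iso_dcd enc ha (iso_symm h)) hy.2⟩⟩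

end conv

/-- a numbering of the symbols -/
theorem exists_enc (L : FirstOrder.Language.{0, 0}) [Countable (Σ n, L.Relations n)] :
    ∃ (a : ℕ → ℕ) (enc : (Σ n, L.Relations n) → ℕ), Function.Injective enc ∧
      (∀ r, a (enc r) = r.1) ∧ ∀ i, (∀ r, enc r ≠ i) → a i = 0 := by
  classical
  obtain ⟨enc, henc⟩ := exists_injective_nat (Σ n, L.Relations n)
  refine ⟨fun i => if h : ∃ r, enc r = i then (Classical.choose h).1 else 0, enc, henc,
    fun r => ?_, fun i hi => ?_⟩
  · have h : ∃ r', enc r' = enc r := ⟨r, rfl⟩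
    show (if h : ∃ r', enc r' = enc r then (Classical.choose h).1 else 0) = r.1
    rw [dif_pos h, henc (Classical.choose_spec h)]
  · show (if h : ∃ r, enc r = i then (Classical.choose h).1 else 0) = 0
    rw [dif_neg]
    rintro ⟨r, hr⟩
    exact hi r hr

end Pool.Agent.Q205.VC
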