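import Pool.Agent.Q205.VC.Star
import Pool.Agent.Q205.VC.Conv
import Pool.Agent.Y558.EC.Ecc

set_option autoImplicit false

/-!
# Classes of structures closed under deleting tuples
-/

namespace Pool.Agent.Q205.VC

open Set MeasureTheory

variable {a : ℕ → ℕ}

theorem ana_iso (g : (ℕ → Bool) → Str a) (hg : Continuous g) :
    AnalyticSet {p : (ℕ → Bool) × (ℕ → Bool) | Iso (g p.1) (g p.2)} := by
  let I : (ℕ → ℕ) → (ℕ → ℕ) → Str a → Str a → Prop := fun s t x y =>
    (∀ u w, s u = w ↔ t w = u) ∧ ∀ i (v w : Fin (a i) → ℕ), (∀ j, s (v j) = w j) → y i w = x i v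
  have hI : IsClosed {q : ((ℕ → ℕ) × (ℕ → ℕ)) × (Str a × Str a) | I q.1.1 q.1.2 q.2.1 q.2.2} := by
    have cs : ∀ u k : ℕ, IsClopen {q : ((ℕ → ℕ) × (ℕ → ℕ)) × (Str a × Str a) | q.1.1 u = k} := by
      intro u k
      have h1 : Continuous fun q : ((ℕ → ℕ) × (ℕ → ℕ)) × (Str a × Str a) => q.1.1 u :=
        (continuous_apply u).comp (continuous_fst.comp continuous_fst)
      exact (isClopen_discrete {k}).preimage h1
    have ct : ∀ u k : ℕ, IsClopen {q : ((ℕ → ℕ) × (ℕ → ℕ)) × (Str a × Str a) | q.1.2 u = k} := by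
      intro u k
      have h1 : Continuous fun q : ((ℕ → ℕ) × (ℕ → ℕ)) × (Str a × Str a) => q.1.2 u :=
        (continuous_apply u).comp (continuous_snd.comp continuous_fst)
      exact (isClopen_discrete {k}).preimage h1
    have e : {q : ((ℕ → ℕ) × (ℕ → ℕ)) × (Str a × Str a) | I q.1.1 q.1.2 q.2.1 q.2.2} =
        (⋂ u, ⋂ b, {q | q.1.1 u = b ↔ q.1.2 b = u}) ∩
        (⋂ i, ⋂ (v : Fin (a i) → ℕ), ⋂ (w : Fin (a i) → ℕ),
          {q | (∀ j, q.1.1 (v j) = w j) → q.2.2 i w = q.2.1 i v}) := by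
      ext q
      simp only [mem_inter_iff, mem_iInter]
      rfl
    rw [e]
    refine IsClosed.inter ?_ ?_
    · refine isClosed_iInter fun u => isClosed_iInter fun b => ?_
      have e2 : {q : ((ℕ → ℕ) × (ℕ → ℕ)) × (Str a × Str a) | q.1.1 u = b ↔ q.1.2 b = u} =
          ({q | q.1.1 u = b} ∩ {q | q.1.2 b = u}) ∪ ({q | q.1.1 u = b}ᶜ ∩ {q | q.1.2 b = u}ᶜ) := by
        ext q
        simp only [mem_union, mem_inter_iff, mem_compl_iff, mem_ofPred_eq]
        tauto
      rw [e2]
      exact (((cs u b).isClosed.inter (ct b u).isClosed).union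
        ((cs u b).compl.isClosed.inter (ct b u).compl.isClosed))
    · refine isClosed_iInter fun i => isClosed_iInter fun v => isClosed_iInter fun w => ?_
      have h0 : IsOpen {q : ((ℕ → ℕ) × (ℕ → ℕ)) × (Str a × Str a) | ∀ j, q.1.1 (v j) = w j} := by
        have e3 : {q : ((ℕ → ℕ) × (ℕ → ℕ)) × (Str a × Str a) | ∀ j, q.1.1 (v j) = w j} =
            ⋂ j, {q | q.1.1 (v j) = w j} := by
          ext q
          simp only [mem_iInter]
          rfl
        rw [e3]
        exact isOpen_iInter_of_finite fun j => (cs (v j) (w j)).isOpen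
      refine isClosed_imp h0 ?_
      refine isClosed_eq ?_ ?_
      · exact (continuous_apply w).comp ((continuous_apply i).comp
          (continuous_snd.comp continuous_snd))
      · exact (continuous_apply v).comp ((continuous_apply i).comp
          (continuous_fst.comp continuous_snd))
  have h := Pool.Agent.Y558.EC.analytic_iso (X := Str a) I hI g hg
  have e : {p : (ℕ → Bool) × (ℕ → Bool) | Iso (g p.1) (g p.2)} =
      {p | ∃ s t, I s t (g p.1) (g p.2)} := by
    ext p
    constructor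
    · rintro ⟨σ, h1⟩
      refine ⟨σ, σ.symm, fun u w => ?_, ?_⟩
      · constructor
        · rintro rfl
          exact σ.symm_apply_apply u
        · rintro rfl
          exact σ.apply_symm_apply w
      · intro i v w hvw
        have e : w = ⇑σ ∘ v := funext fun j => (hvw j).symm
        rw [e]
        exact h1 i v
    · rintro ⟨s, t, h1, h2⟩
      let σ : Equiv.Perm ℕ := ⟨s, t, fun u => (h1 u (s u)).1 rfl, fun w => (h1 (t w) w).2 rfl⟩
      exact ⟨σ, fun i v => h2 i v _ fun _ => rfl⟩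
  rw [e]
  exact h

/-! ### The invariant -/

/-- together in a tuple of arity at least two -/
def Adj (x : Str a) (u w : ℕ) : Prop :=
  ∃ i, 2 ≤ a i ∧ ∃ t : Fin (a i) → ℕ, x i t = true ∧ (∃ j, t j = u) ∧ ∃ l, t l = w

def Nb (x : Str a) (K : Set ℕ) (u : ℕ) : Set ℕ := {w | w ∉ K ∧ Adj x u w}

/-- the sizes of the components outside `K` that are the neighbourhoods of a point -/
def Inv (x : Str a) (K : Set ℕ) : Set ℕ :=
  {s | 2 ≤ s ∧ ∃ u, u ∉ K ∧ (Nb x K u).ncard = s ∧
    ∀ w ∈ Nb x K u, ∀ z ∉ K, Adj x w z → z ∈ Nb x K u}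

theorem adj_iso {x y : Str a} {σ : Equiv.Perm ℕ}
    (h : ∀ (i : ℕ) (v : Fin (a i) → ℕ), y i (⇑σ ∘ v) = x i v) (u w : ℕ) :
    Adj y (σ u) (σ w) ↔ Adj x u w := by
  constructor
  · rintro ⟨i, hi, t, ht, ⟨j, hj⟩, l, hl⟩
    refine ⟨i, hi, ⇑σ.symm ∘ t, ?_, ⟨j, ?_⟩, l, ?_⟩
    · rw [← h]
      have e : (⇑σ ∘ (⇑σ.symm ∘ t)) = t := by
        funext m
        exact σ.apply_symm_apply _
      rw [e]
      exact ht
    · show σ.symm (t j) = u
      rw [hj]
      exact σ.symm_apply_apply u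
    · show σ.symm (t l) = w
      rw [hl]
      exact σ.symm_apply_apply w
  · rintro ⟨i, hi, t, ht, ⟨j, hj⟩, l, hl⟩
    exact ⟨i, hi, ⇑σ ∘ t, by rw [h]; exact ht, ⟨j, congrArg σ hj⟩, l, congrArg σ hl⟩

theorem nb_iso {x y : Str a} {σ : Equiv.Perm ℕ}
    (h : ∀ (i : ℕ) (v : Fin (a i) → ℕ), y i (⇑σ ∘ v) = x i v) (K : Set ℕ) (u : ℕ) :
    Nb y (σ '' K) (σ u) = σ '' Nb x K u := by
  ext w
  obtain ⟨w, rfl⟩ := σ.surjective w
  rw [σ.injective.mem_set_image]
  show (σ w ∉ σ '' K ∧ Adj y (σ u) (σ w)) ↔ (w ∉ K ∧ Adj x u w)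
  rw [σ.injective.mem_set_image, adj_iso h]

theorem inv_iso {x y : Str a} {σ : Equiv.Perm ℕ}
    (h : ∀ (i : ℕ) (v : Fin (a i) → ℕ), y i (⇑σ ∘ v) = x i v) (K : Set ℕ) :
    Inv y (σ '' K) = Inv x K := by
  ext s
  show (2 ≤ s ∧ ∃ u, u ∉ σ '' K ∧ (Nb y (σ '' K) u).ncard = s ∧
    ∀ w ∈ Nb y (σ '' K) u, ∀ z ∉ σ '' K, Adj y w z → z ∈ Nb y (σ '' K) u) ↔ _
  rw [σ.surjective.exists]
  refine and_congr_right fun _ => exists_congr fun u => ?_
  rw [σ.injective.mem_set_image, nb_iso h, ncard_image_of_injective _ σ.injective]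
  refine and_congr_right fun _ => and_congr_right fun _ => ?_
  rw [forall_mem_image]
  refine forall₂_congr fun w _ => ?_
  rw [σ.surjective.forall]
  refine forall_congr' fun z => ?_
  rw [σ.injective.mem_set_image, σ.injective.mem_set_image, adj_iso h]

/-! ### The family -/

/-- the edges of a structure -/
def Edges (x : Str a) : Set (Finset ℕ) :=
  {e | ∃ i, 2 ≤ a i ∧ ∃ t : Fin (a i) → ℕ, x i t = true ∧ e = Finset.univ.image t}

open Classical in
/-- keep the tuples in the stars of `α` -/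
noncomputable def fam (x : Str a) (D : ℕ → Finset (Finset ℕ)) (α : ℕ → Bool) : Str a :=
  fun i t => x i t && (decide (a i < 2) || decide (∃ j, α j = true ∧ Finset.univ.image t ∈ D j))

variable {x : Str a} {K : Finset ℕ} {v : ℕ → ℕ} {D : ℕ → Finset (Finset ℕ)} {V : ℕ → Finset ℕ}

theorem Stars.uniq (h : Stars (Edges x) K v D V) {i j : ℕ} {e : Finset ℕ} (hi : e ∈ D i)
    (hj : e ∈ D j) : i = j := by
  by_contra hne
  have h1 : v i ∈ V i := h.mem i
  have h2 : v i ∈ V j := h.edge_sub hj (h.ctr i e hi) (h.of_mem h1).1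
  exact Finset.disjoint_left.1 (h.disj i j hne) h1 h2

theorem adj_fam (h : Stars (Edges x) K v D V) (α : ℕ → Bool) (u w : ℕ) :
    Adj (fam x D α) u w ↔ ∃ j, α j = true ∧ ∃ e ∈ D j, u ∈ e ∧ w ∈ e := by
  constructor
  · rintro ⟨i, hi, t, ht, ⟨p, hp⟩, q, hq⟩
    unfold fam at ht
    simp only [Bool.and_eq_true, Bool.or_eq_true, decide_eq_true_eq] at ht
    obtain ⟨-, h1 | ⟨j, hj, he⟩⟩ := ht
    · omega
    · exact ⟨j, hj, _, he, Finset.mem_image.2 ⟨p, Finset.mem_univ _, hp⟩,
        Finset.mem_image.2 ⟨q, Finset.mem_univ _, hq⟩⟩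
  · rintro ⟨j, hj, e, he, hu, hw⟩
    obtain ⟨i, hi, t, ht, rfl⟩ := h.sub j e he
    obtain ⟨p, -, hp⟩ := Finset.mem_image.1 hu
    obtain ⟨q, -, hq⟩ := Finset.mem_image.1 hw
    refine ⟨i, hi, t, ?_, ⟨p, hp⟩, q, hq⟩
    unfold fam
    simp only [Bool.and_eq_true, Bool.or_eq_true, decide_eq_true_eq]
    exact ⟨ht, Or.inr ⟨j, hj, he⟩⟩

theorem adj_sub (h : Stars (Edges x) K v D V) {α : ℕ → Bool} {u w j : ℕ} (hu : u ∈ V j)
    (hw : w ∉ K) (hA : Adj (fam x D α) u w) : α j = true ∧ w ∈ V j := by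
  obtain ⟨i, hi, e, he, hue, hwe⟩ := (adj_fam h α u w).1 hA
  have h1 : u ∈ V i := h.edge_sub he hue (h.of_mem hu).1
  have h2 : i = j := by
    by_contra hne
    exact Finset.disjoint_left.1 (h.disj i j hne) h1 hu
  subst h2
  exact ⟨hi, h.edge_sub he hwe hw⟩

theorem nb_ctr (h : Stars (Edges x) K v D V) {α : ℕ → Bool} {j : ℕ} (hj : α j = true) :
    Nb (fam x D α) K (v j) = V j := by
  ext w
  constructor
  · rintro ⟨hw, hA⟩
    exact (adj_sub h (h.mem j) hw hA).2
  · intro hw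
    obtain ⟨hK, e, he, hwe⟩ := h.of_mem (Finset.mem_coe.1 hw)
    exact ⟨hK, (adj_fam h α _ _).2 ⟨j, hj, e, he, h.ctr j e he, hwe⟩⟩

theorem inv_fam (h : Stars (Edges x) K v D V) (α : ℕ → Bool) (j : ℕ) :
    (V j).card ∈ Inv (fam x D α) K ↔ α j = true := by
  constructor
  · rintro ⟨h2, u, hu, hc, hcl⟩
    have hne : (Nb (fam x D α) K u).Nonempty := by
      rw [Set.nonempty_iff_ne_empty]
      intro h0
      rw [h0, ncard_empty] at hc
      omega
    obtain ⟨w, hw, hA⟩ := hne
    obtain ⟨i, hi, e, he, hue, hwe⟩ := (adj_fam h α u w).1 hA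
    have hui : u ∈ V i := h.edge_sub he hue hu
    have h1 : Nb (fam x D α) K u = V i := by
      ext z
      constructor
      · rintro ⟨hz, hA'⟩
        exact (adj_sub h hui hz hA').2
      · intro hz
        have hz' := h.of_mem (Finset.mem_coe.1 hz)
        have h3 : v i ∈ Nb (fam x D α) K u :=
          ⟨(h.of_mem (h.mem i)).1, (adj_fam h α _ _).2 ⟨i, hi, e, he, hue, h.ctr i e he⟩⟩
        obtain ⟨e', he', hze'⟩ := hz'.2
        exact hcl _ h3 z hz'.1 ((adj_fam h α _ _).2 ⟨i, hi, e', he', h.ctr i e' he', hze'⟩)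
    rw [h1, ncard_coe_finset] at hc
    have h4 : i = j := h.mono.injective hc
    rw [← h4]
    exact hi
  · intro hj
    refine ⟨h.two j, v j, (h.of_mem (h.mem j)).1, ?_, ?_⟩
    · rw [nb_ctr h hj, ncard_coe_finset]
    · rw [nb_ctr h hj]
      intro w hw z hz hA
      exact (adj_sub h (Finset.mem_coe.1 hw) hz hA).2

open Classical in
theorem cont_fam (h : Stars (Edges x) K v D V) : Continuous (fam x D) := by
  refine continuous_pi fun i => continuous_pi fun t => ?_
  by_cases h1 : a i < 2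
  · have e : (fun α : ℕ → Bool => fam x D α i t) = fun _ => x i t := by
      funext α
      unfold fam
      rw [decide_eq_true h1, Bool.true_or, Bool.and_true]
    rw [e]
    exact continuous_const
  · by_cases h2 : ∃ j, Finset.univ.image t ∈ D j
    · obtain ⟨j, hj⟩ := h2
      have e : (fun α : ℕ → Bool => fam x D α i t) = fun α => x i t && α j := by
        funext α
        unfold fam
        rw [decide_eq_false h1, Bool.false_or]
        congr 1
        rw [Bool.eq_iff_iff, decide_eq_true_eq]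
        constructor
        · rintro ⟨j', h3, h4⟩
          rw [h.uniq hj h4]
          exact h3
        · exact fun h3 => ⟨j, h3, hj⟩
      rw [e]
      exact (continuous_of_discreteTopology (f := fun b : Bool => x i t && b)).comp
        (continuous_apply j)
    · have e : (fun α : ℕ → Bool => fam x D α i t) = fun _ => false := by
        funext α
        unfold fam
        rw [decide_eq_false h1, Bool.false_or, decide_eq_false, Bool.and_false]
        rintro ⟨j, -, hj⟩
        exact h2 ⟨j, hj⟩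
      rw [e]
      exact continuous_const

theorem perfect_of_stars (h : Stars (Edges x) K v D V) :
    ∃ g : (ℕ → Bool) → (ℕ → Bool), Continuous g ∧
      ∀ c d, Iso (fam x D (g c)) (fam x D (g d)) → c = d := by
  obtain ⟨g, hg, hg'⟩ := Pool.Agent.H566W.perfect_independent
    (fun α β => Iso (fam x D α) (fam x D β)) (ana_iso _ (cont_fam h)) (by
      intro α
      have h1 : {β | Iso (fam x D α) (fam x D β)} ⊆
          ⋃ K' : Finset ℕ, {β | Inv (fam x D β) K = Inv (fam x D α) K'} := by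
        rintro β ⟨σ, hσ⟩
        refine mem_iUnion.2 ⟨K.image σ.symm, ?_⟩
        show Inv (fam x D β) K = Inv (fam x D α) (K.image σ.symm : Finset ℕ)
        rw [← inv_iso hσ]
        congr 1
        rw [Finset.coe_image, image_image]
        simp
      refine Set.Countable.mono h1 (countable_iUnion fun K' => Set.Subsingleton.countable ?_)
      intro β hβ γ hγ
      have hβγ : Inv (fam x D β) K = Inv (fam x D γ) K := hβ.trans hγ.symm
      funext j
      rw [Bool.eq_iff_iff, ← inv_fam h β j, ← inv_fam h γ j, hβγ])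
  refine ⟨g, hg, fun c d hcd => ?_⟩
  by_contra hne
  exact hg' c d hne hcd

end Pool.Agent.Q205.VC
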