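import Pool.Agent.Q205.VC.Blob
import Pool.Agent.Q205.VC.Del

set_option autoImplicit false

/-!
# A perfect set below each structure that is not simple
-/

namespace Pool.Agent.Q205.VC

open Set Relation

variable {a : ℕ → ℕ}

theorem rl_edges (x : Str a) (K : Set ℕ) (u w : ℕ) :
    Rl (Edges x) K u w ↔ u ∉ K ∧ w ∉ K ∧ Adj x u w := by
  unfold Rl Adj Edges
  refine and_congr_right fun _ => and_congr_right fun _ => ?_
  constructor
  · rintro ⟨e, ⟨i, hi, t, ht, rfl⟩, hu, hw⟩
    obtain ⟨p, -, hp⟩ := Finset.mem_image.1 hu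
    obtain ⟨q, -, hq⟩ := Finset.mem_image.1 hw
    exact ⟨i, hi, t, ht, ⟨p, hp⟩, q, hq⟩
  · rintro ⟨i, hi, t, ht, ⟨p, hp⟩, q, hq⟩
    exact ⟨_, ⟨i, hi, t, ht, rfl⟩, Finset.mem_image.2 ⟨p, Finset.mem_univ _, hp⟩,
      Finset.mem_image.2 ⟨q, Finset.mem_univ _, hq⟩⟩

/-- the sizes of the components outside `K` -/
def InvC (x : Str a) (K : Set ℕ) : Set ℕ :=
  {s | 2 ≤ s ∧ ∃ u, u ∉ K ∧ (Cmp (Edges x) K u).ncard = s}

theorem cmp_iso {x y : Str a} {σ : Equiv.Perm ℕ}
    (h : ∀ (i : ℕ) (v : Fin (a i) → ℕ), y i (⇑σ ∘ v) = x i v) (K : Set ℕ) (u : ℕ) :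
    Cmp (Edges y) (σ '' K) (σ u) = σ '' Cmp (Edges x) K u := by
  have h1 : ∀ p q, Rl (Edges y) (σ '' K) (σ p) (σ q) ↔ Rl (Edges x) K p q := by
    intro p q
    rw [rl_edges, rl_edges, σ.injective.mem_set_image, σ.injective.mem_set_image, adj_iso h]
  ext w
  obtain ⟨w, rfl⟩ := σ.surjective w
  rw [σ.injective.mem_set_image]
  constructor
  · intro hw
    have h2 : ∀ z, ReflTransGen (Rl (Edges y) (σ '' K)) (σ u) z →
        ReflTransGen (Rl (Edges x) K) u (σ.symm z) := by
      intro z hz
      induction hz with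
      | refl =>
        rw [σ.symm_apply_apply]
      | @tail p q _ hpq ih =>
        refine ih.tail ((h1 _ _).1 ?_)
        rw [σ.apply_symm_apply, σ.apply_symm_apply]
        exact hpq
    have := h2 _ hw
    rwa [σ.symm_apply_apply] at this
  · intro hw
    exact ReflTransGen.lift σ (fun p q hpq => (h1 p q).2 hpq) _ _ hw

theorem invC_iso {x y : Str a} {σ : Equiv.Perm ℕ}
    (h : ∀ (i : ℕ) (v : Fin (a i) → ℕ), y i (⇑σ ∘ v) = x i v) (K : Set ℕ) :
    InvC y (σ '' K) = InvC x K := by
  ext s
  show (2 ≤ s ∧ ∃ u, u ∉ σ '' K ∧ (Cmp (Edges y) (σ '' K) u).ncard = s) ↔ _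
  rw [σ.surjective.exists]
  refine and_congr_right fun _ => exists_congr fun u => ?_
  rw [σ.injective.mem_set_image, cmp_iso h, ncard_image_of_injective _ σ.injective]

variable {x : Str a} {K : Finset ℕ} {v : ℕ → ℕ} {D : ℕ → Finset (Finset ℕ)} {V : ℕ → Finset ℕ}

theorem Blobs.uniq (h : Blobs (Edges x) K v D V) {i j : ℕ} {e : Finset ℕ} (hi : e ∈ D i)
    (hj : e ∈ D j) : i = j := by
  by_contra hne
  obtain ⟨u, hu, huK⟩ := Finset.not_subset.1 (h.ne i e hi)
  exact Finset.disjoint_left.1 (h.disj i j hne) (h.edge_sub hi hu huK) (h.edge_sub hj hu huK)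

theorem adj_famB (h : Blobs (Edges x) K v D V) (α : ℕ → Bool) (u w : ℕ) :
    Adj (fam x D α) u w ↔ ∃ j, α j = true ∧ ∃ e ∈ D j, u ∈ e ∧ w ∈ e := by
  constructor
  · rintro ⟨i, hi, t, ht, ⟨p, hp⟩, q, hq⟩
    unfold fam at ht
    simp only [Bool.and_eq_true, Bool.or_eq_true, decide_eq_true_eq] at ht
    obtain ⟨-, h1 | ⟨j, hj, he⟩⟩ := ht
    · omega
    · exact ⟨j, hj, _, he, Finset.mem_image.2 ⟨p, Finset.mem_univ _, hp⟩,
        Finset.mem_image.2 ⟨q, Finset.mem_univ _, hq⟩⟩
  · rintro ⟨j, hj, e, he, hu, hw⟩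
    obtain ⟨i, hi, t, ht, rfl⟩ := h.sub j e he
    obtain ⟨p, -, hp⟩ := Finset.mem_image.1 hu
    obtain ⟨q, -, hq⟩ := Finset.mem_image.1 hw
    refine ⟨i, hi, t, ?_, ⟨p, hp⟩, q, hq⟩
    unfold fam
    simp only [Bool.and_eq_true, Bool.or_eq_true, decide_eq_true_eq]
    exact ⟨ht, Or.inr ⟨j, hj, he⟩⟩

theorem cmp_famB (h : Blobs (Edges x) K v D V) {α : ℕ → Bool} {j u : ℕ} (hj : α j = true)
    (hu : u ∈ V j) : Cmp (Edges (fam x D α)) K u = V j := by
  have h1 : ∀ p ∈ V j, ∀ q, Rl (Edges (fam x D α)) K p q → q ∈ V j := by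
    intro p hp q hpq
    rw [rl_edges, adj_famB h] at hpq
    obtain ⟨-, hqK, i, hi, e, he, hpe, hqe⟩ := hpq
    have h2 : p ∈ V i := h.edge_sub he hpe (h.of_mem hp).1
    have h3 : i = j := by
      by_contra hne
      exact Finset.disjoint_left.1 (h.disj i j hne) h2 hp
    subst h3
    exact h.edge_sub he hqe hqK
  have h2 : ∀ p q, Rl (D j : Set (Finset ℕ)) K p q → Rl (Edges (fam x D α)) K p q := by
    rintro p q ⟨h3, h4, e, he, h5, h6⟩
    rw [rl_edges, adj_famB h]
    exact ⟨h3, h4, j, hj, e, he, h5, h6⟩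
  have h3 : ∀ p q, Rl (D j : Set (Finset ℕ)) K p q → Rl (D j : Set (Finset ℕ)) K q p := by
    rintro p q ⟨h3, h4, e, he, h5, h6⟩
    exact ⟨h4, h3, e, he, h6, h5⟩
  ext w
  constructor
  · intro hw
    have h4 : ReflTransGen (Rl (Edges (fam x D α)) K) u w := hw
    induction h4 with
    | refl => exact hu
    | @tail p q h5 h6 ih => exact h1 p (ih h5) q h6
  · intro hw
    have h4 : ReflTransGen (Rl (D j : Set (Finset ℕ)) K) (v j) w := h.conn j w hw
    have h5 : ReflTransGen (Rl (D j : Set (Finset ℕ)) K) (v j) u := h.conn j u hu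
    have h6 : ReflTransGen (Rl (D j : Set (Finset ℕ)) K) u (v j) := by
      have : Std.Symm (Rl (D j : Set (Finset ℕ)) K) := ⟨h3⟩
      exact ReflTransGen.stdSymm.symm _ _ h5
    exact ReflTransGen.mono h2 _ _ (h6.trans h4)

theorem invC_fam (h : Blobs (Edges x) K v D V) (α : ℕ → Bool) (j : ℕ) :
    (V j).card ∈ InvC (fam x D α) K ↔ α j = true := by
  constructor
  · rintro ⟨h2, u, hu, hc⟩
    have hne : ∃ q, Rl (Edges (fam x D α)) K u q := by
      by_contra hcon
      push Not at hcon
      have h3 : Cmp (Edges (fam x D α)) K u = {u} := by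
        ext w
        constructor
        · intro hw
          rcases ReflTransGen.cases_head hw with h4 | ⟨c, h4, -⟩
          · exact h4.symm
          · exact absurd h4 (hcon c)
        · rintro rfl
          exact self_mem_Cmp _ _ _
      rw [h3, ncard_singleton] at hc
      omega
    obtain ⟨q, hq⟩ := hne
    rw [rl_edges, adj_famB h] at hq
    obtain ⟨-, hqK, i, hi, e, he, hpe, hqe⟩ := hq
    have hui : u ∈ V i := h.edge_sub he hpe hu
    rw [cmp_famB h hi hui, ncard_coe_finset] at hc
    have h4 : i = j := h.mono.injective hc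
    rw [← h4]
    exact hi
  · intro hj
    refine ⟨h.two j, v j, (h.of_mem (h.mem j)).1, ?_⟩
    rw [cmp_famB h hj (h.mem j), ncard_coe_finset]

open Classical in
theorem cont_famB (h : Blobs (Edges x) K v D V) : Continuous (fam x D) := by
  refine continuous_pi fun i => continuous_pi fun t => ?_
  by_cases h1 : a i < 2
  · have e : (fun α : ℕ → Bool => fam x D α i t) = fun _ => x i t := by
      funext α
      unfold fam
      rw [decide_eq_true h1, Bool.true_or, Bool.and_true]
    rw [e]
    exact continuous_const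
  · by_cases h2 : ∃ j, Finset.univ.image t ∈ D j
    · obtain ⟨j, hj⟩ := h2
      have e : (fun α : ℕ → Bool => fam x D α i t) = fun α => x i t && α j := by
        funext α
        unfold fam
        rw [decide_eq_false h1, Bool.false_or]
        congr 1
        rw [Bool.eq_iff_iff, decide_eq_true_eq]
        constructor
        · rintro ⟨j', h3, h4⟩
          rw [h.uniq hj h4]
          exact h3
        · exact fun h3 => ⟨j, h3, hj⟩
      rw [e]
      exact (continuous_of_discreteTopology (f := fun b : Bool => x i t && b)).comp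
        (continuous_apply j)
    · have e : (fun α : ℕ → Bool => fam x D α i t) = fun _ => false := by
        funext α
        unfold fam
        rw [decide_eq_false h1, Bool.false_or, decide_eq_false, Bool.and_false]
        rintro ⟨j, -, hj⟩
        exact h2 ⟨j, hj⟩
      rw [e]
      exact continuous_const

theorem perfect_of_blobs (h : Blobs (Edges x) K v D V) :
    ∃ g : (ℕ → Bool) → (ℕ → Bool), Continuous g ∧
      ∀ c d, Iso (fam x D (g c)) (fam x D (g d)) → c = d := by
  obtain ⟨g, hg, hg'⟩ := Pool.Agent.H566W.perfect_independent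
    (fun α β => Iso (fam x D α) (fam x D β)) (ana_iso _ (cont_famB h)) (by
      intro α
      have h1 : {β | Iso (fam x D α) (fam x D β)} ⊆
          ⋃ K' : Finset ℕ, {β | InvC (fam x D β) K = InvC (fam x D α) K'} := by
        rintro β ⟨σ, hσ⟩
        refine mem_iUnion.2 ⟨K.image σ.symm, ?_⟩
        show InvC (fam x D β) K = InvC (fam x D α) (K.image σ.symm : Finset ℕ)
        rw [← invC_iso hσ]
        congr 1
        rw [Finset.coe_image, image_image]
        simp
      refine Set.Countable.mono h1 (countable_iUnion fun K' => Set.Subsingleton.countable ?_)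
      intro β hβ γ hγ
      have hβγ : InvC (fam x D β) K = InvC (fam x D γ) K := hβ.trans hγ.symm
      funext j
      rw [Bool.eq_iff_iff, ← invC_fam h β j, ← invC_fam h γ j, hβγ])
  refine ⟨g, hg, fun c d hcd => ?_⟩
  by_contra hne
  exact hg' c d hne hcd

/-- finitely many nonempty relations outside `U`, and finite components of bounded size outside a
finite set -/
def Simple (U : Set ℕ) (x : Str a) : Prop :=
  {i | i ∉ U ∧ ∃ t, x i t = true}.Finite ∧
    ∃ (K : Finset ℕ) (M : ℕ), ∀ v, v ∉ K → (Cmp (Edges x) K v).Finite ∧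
      (Cmp (Edges x) K v).ncard ≤ M

/-- `y` is obtained from `x` by deleting tuples, for relations outside `U` -/
def LeU (U : Set ℕ) (y x : Str a) : Prop :=
  (∀ i ∈ U, y i = x i) ∧ ∀ i t, y i t = true → x i t = true

theorem perfect_of_not_simple {U : Set ℕ} (hU : ∀ i ∈ U, a i ≤ 1) {x : Str a}
    (hx : ¬ Simple U x) : ∃ g : (ℕ → Bool) → Str a, Continuous g ∧ (∀ c, LeU U (g c) x) ∧
      ∀ c d, Iso (g c) (g d) → c = d := by
  by_cases hI : {i | i ∉ U ∧ ∃ t, x i t = true}.Finite
  · have hn : ∃ n, ∀ e ∈ Edges x, e.card ≤ n := by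
      obtain ⟨n, hn⟩ := (hI.image a).bddAbove
      refine ⟨n, ?_⟩
      rintro e ⟨i, hi, t, ht, rfl⟩
      refine Finset.card_image_le.trans ?_
      rw [Finset.card_univ, Fintype.card_fin]
      exact hn ⟨i, ⟨fun h => by have := hU i h; omega, t, ht⟩, rfl⟩
    obtain ⟨n, hn⟩ := hn
    obtain ⟨K, hK⟩ : ∃ K, BKernel (Edges x) K := by
      by_contra hcon
      exact hx ⟨hI, bounded_of_no_kernel hn hcon⟩
    obtain ⟨v, D, V, hV⟩ := exists_blobs hK
    obtain ⟨g, hg, hgi⟩ := perfect_of_blobs hV
    refine ⟨fun c => fam x D (g c), (cont_famB hV).comp hg,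
      fun c => ⟨fun i hi => ?_, fun i t h => ?_⟩, hgi⟩
    · funext t
      classical
      show (x i t && (decide (a i < 2) || decide _)) = x i t
      rw [decide_eq_true (by have := hU i hi; omega), Bool.true_or, Bool.and_true]
    · exact (Bool.and_eq_true _ _ ▸ (h : (x i t && _) = true)).1
  · have hI' : {i | i ∉ U ∧ ∃ t, x i t = true}.Infinite := hI
    let e := hI'.natEmbedding
    classical
    let g : (ℕ → Bool) → Str a := fun α i t =>
      x i t && decide (∀ k, (e k : ℕ) = i → α k = true)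
    have g_e : ∀ α k t, g α (e k) t = (x (e k) t && α k) := by
      intro α k t
      show (x (e k) t && decide (∀ k', (e k' : ℕ) = (e k : ℕ) → α k' = true)) = _
      congr 1
      rw [Bool.eq_iff_iff, decide_eq_true_eq]
      constructor
      · exact fun h => h k rfl
      · intro h k' hk
        rw [e.injective (Subtype.ext hk)]
        exact h
    have g_n : ∀ α i t, (¬ ∃ k, (e k : ℕ) = i) → g α i t = x i t := by
      intro α i t h
      show (x i t && decide (∀ k', (e k' : ℕ) = i → α k' = true)) = _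
      rw [decide_eq_true, Bool.and_true]
      exact fun k hk => absurd ⟨k, hk⟩ h
    refine ⟨g, ?_, fun c => ⟨fun i hi => ?_, fun i t h => ?_⟩, fun c d h => ?_⟩
    · refine continuous_pi fun i => continuous_pi fun t => ?_
      by_cases h : ∃ k, (e k : ℕ) = i
      · obtain ⟨k, rfl⟩ := h
        have e1 : (fun α : ℕ → Bool => g α (e k) t) = fun α => x (e k) t && α k := by
          funext α
          exact g_e α k t
        rw [e1]
        exact (continuous_of_discreteTopology (f := fun b : Bool => x (e k) t && b)).comp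
          (continuous_apply k)
      · have e1 : (fun α : ℕ → Bool => g α i t) = fun α => x i t := by
          funext α
          exact g_n α i t h
        rw [e1]
        exact continuous_const
    · funext t
      refine g_n c i t ?_
      rintro ⟨k, rfl⟩
      exact (e k).2.1 hi
    · exact (Bool.and_eq_true _ _ ▸ (h : (x i t && _) = true)).1
    · have key : ∀ c k, c k = true ↔ ∃ t, g c (e k) t = true := by
        intro c k
        constructor
        · intro hk
          obtain ⟨t, ht⟩ := (e k).2.2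
          exact ⟨t, by rw [g_e, ht, hk]; rfl⟩
        · rintro ⟨t, ht⟩
          rw [g_e] at ht
          exact (Bool.and_eq_true _ _ ▸ ht).2
      obtain ⟨σ, hσ⟩ := h
      funext k
      rw [Bool.eq_iff_iff, key, key]
      constructor
      · rintro ⟨t, ht⟩
        exact ⟨⇑σ ∘ t, by rw [hσ]; exact ht⟩
      · rintro ⟨t, ht⟩
        refine ⟨⇑σ.symm ∘ t, ?_⟩
        rw [← hσ]
        have e1 : (⇑σ ∘ (⇑σ.symm ∘ t)) = t := by
          funext m
          exact σ.apply_symm_apply _
        rw [e1]
        exact ht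

end Pool.Agent.Q205.VC
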