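import Pool.Agent.Q205.VC.BlobF

set_option autoImplicit false

/-!
# There are countably many simple structures
-/

namespace Pool.Agent.Q205.VC

open Set Relation

variable {a : ℕ → ℕ}

theorem sub_equiv {A B : Set ℕ} (h : A.encard = B.encard) : Nonempty (A ≃ B) := by
  by_cases hA : A.Finite
  · have hB : B.Finite := by
      rw [← encard_lt_top_iff, ← h, encard_lt_top_iff]
      exact hA
    have h1 : A.ncard = B.ncard := by
      unfold Set.ncard
      rw [h]
    have := hA.to_subtype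
    have := hB.to_subtype
    have h2 : Nat.card A = Nat.card B := h1
    exact Finite.card_eq.1 h2
  · have hA' : A.Infinite := hA
    have hB : B.Infinite := by
      intro hB
      apply hA
      rw [← encard_lt_top_iff, h, encard_lt_top_iff]
      exact hB
    have := hA'.to_subtype
    have := hB.to_subtype
    obtain ⟨d1⟩ := nonempty_denumerable A
    obtain ⟨d2⟩ := nonempty_denumerable B
    exact ⟨Denumerable.equiv₂ A B⟩

theorem fib_equiv {S : Type} (f g : ℕ → S)
    (h : ∀ s, {p | f p = s}.encard = {p | g p = s}.encard) :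
    ∃ π : Equiv.Perm ℕ, ∀ p, g (π p) = f p := by
  have h1 : ∀ s, Nonempty ({p // f p = s} ≃ {p // g p = s}) := fun s => sub_equiv (h s)
  let E : ∀ s, {p // f p = s} ≃ {p // g p = s} := fun s => Classical.choice (h1 s)
  refine ⟨(Equiv.sigmaFiberEquiv f).symm.trans
    ((Equiv.sigmaCongrRight E).trans (Equiv.sigmaFiberEquiv g)), fun p => ?_⟩
  exact (E (f p) ⟨p, rfl⟩).2

theorem fib_equiv0 {S : Type} (f g : ℕ → S) (h0 : f 0 = g 0)
    (h : ∀ s, {p | p ≠ 0 ∧ f p = s}.encard = {p | p ≠ 0 ∧ g p = s}.encard) :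
    ∃ π : Equiv.Perm ℕ, π 0 = 0 ∧ ∀ p, g (π p) = f p := by
  classical
  let F : (ℕ → S) → ℕ → Option S := fun f p => if p = 0 then none else some (f p)
  obtain ⟨π, hπ⟩ := fib_equiv (F f) (F g) (by
    intro s
    cases s with
    | none =>
      have e : ∀ f : ℕ → S, {p | F f p = none} = {0} := by
        intro f
        ext p
        show (if p = 0 then none else some (f p)) = none ↔ p = 0
        by_cases hp : p = 0
        · rw [if_pos hp]
          exact ⟨fun _ => hp, fun _ => rfl⟩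
        · rw [if_neg hp]
          exact ⟨fun h => (nomatch h), fun h => absurd h hp⟩
      rw [e, e]
    | some s =>
      have e : ∀ f : ℕ → S, {p | F f p = some s} = {p | p ≠ 0 ∧ f p = s} := by
        intro f
        ext p
        show (if p = 0 then none else some (f p)) = some s ↔ p ≠ 0 ∧ f p = s
        by_cases hp : p = 0
        · rw [if_pos hp]
          exact ⟨fun h => (nomatch h), fun h => absurd hp h.1⟩
        · rw [if_neg hp]
          exact ⟨fun h => ⟨hp, Option.some.inj h⟩, fun h => congrArg some h.2⟩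
      rw [e, e]
      exact h s)
  have h1 : ∀ p, p = 0 ↔ π p = 0 := by
    intro p
    have h2 := hπ p
    by_cases hp : p = 0 <;> by_cases hq : π p = 0
    · exact ⟨fun _ => hq, fun _ => hp⟩
    · exfalso
      have h3 : (if π p = 0 then none else some (g (π p))) = (if p = 0 then none else some (f p)) :=
        h2
      rw [if_pos hp, if_neg hq] at h3
      cases h3
    · exfalso
      have h3 : (if π p = 0 then none else some (g (π p))) = (if p = 0 then none else some (f p)) :=
        h2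
      rw [if_neg hp, if_pos hq] at h3
      cases h3
    · exact ⟨fun h => absurd h hp, fun h => absurd h hq⟩
  refine ⟨π, (h1 0).1 rfl, fun p => ?_⟩
  by_cases hp : p = 0
  · subst hp
    rw [(h1 0).1 rfl, h0]
  · have h3 : (if π p = 0 then none else some (g (π p))) = (if p = 0 then none else some (f p)) :=
      hπ p
    rw [if_neg hp, if_neg (fun h => hp ((h1 p).2 h))] at h3
    exact Option.some.inj h3

/-- the information on a piece together with the kernel -/
abbrev Loc (a : ℕ → ℕ) (J : Finset ℕ) (M : ℕ) : Type :=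
  (Fin M → Bool) × ((i : J) → (Fin (a i) → Bool × Fin M) → Bool)

/-- the kind of an element -/
def tg {M : ℕ} (z : ℕ × Fin M) : Bool × Fin M := (decide (z.1 ≠ 0), z.2)

/-- `x` is put together from pieces with the information given by `f` -/
structure Rep (J : Finset ℕ) (M : ℕ) (f : ℕ → Loc a J M) (e : ℕ → ℕ × Fin M) (x : Str a) :
    Prop where
  inj : Function.Injective e
  out : ∀ i, i ∉ J → ∀ t, x i t = false
  pres : ∀ z, (∃ n, e n = z) ↔ (f z.1).1 z.2 = true
  loc : ∀ (i : J) (t : Fin (a i) → ℕ) (p : ℕ), (∀ j, (e (t j)).1 = 0 ∨ (e (t j)).1 = p) →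
    x i t = (f p).2 i (fun j => tg (e (t j)))
  glob : ∀ i t, (¬ ∃ p, ∀ j, (e (t j)).1 = 0 ∨ (e (t j)).1 = p) → x i t = false

theorem Rep.iso {J : Finset ℕ} {M : ℕ} {f g : ℕ → Loc a J M} {e e' : ℕ → ℕ × Fin M}
    {x y : Str a} (hx : Rep J M f e x) (hy : Rep J M g e' y) {π : Equiv.Perm ℕ} (h0 : π 0 = 0)
    (hπ : ∀ p, g (π p) = f p) : Iso x y := by
  have h1 : ∀ n, ∃ m, e' m = (π (e n).1, (e n).2) := by
    intro n
    rw [hy.pres]
    show (g (π (e n).1)).1 (e n).2 = true
    rw [hπ]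
    exact (hx.pres (e n)).1 ⟨n, rfl⟩
  choose s hs using h1
  have hinj : Function.Injective s := by
    intro n m hnm
    have h2 : (π (e n).1, (e n).2) = (π (e m).1, (e m).2) := by
      rw [← hs n, ← hs m, hnm]
    obtain ⟨h3, h4⟩ := Prod.ext_iff.1 h2
    exact hx.inj (Prod.ext (π.injective h3) h4)
  have hsurj : Function.Surjective s := by
    intro m
    have h2 : (g (e' m).1).1 (e' m).2 = true := (hy.pres (e' m)).1 ⟨m, rfl⟩
    have h3 : (f (π.symm (e' m).1)).1 (e' m).2 = true := by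
      rw [← hπ, π.apply_symm_apply]
      exact h2
    obtain ⟨n, hn⟩ := (hx.pres (π.symm (e' m).1, (e' m).2)).2 h3
    refine ⟨n, hy.inj ?_⟩
    rw [hs n, hn]
    show (π (π.symm (e' m).1), (e' m).2) = e' m
    rw [π.apply_symm_apply]
  refine ⟨Equiv.ofBijective s ⟨hinj, hsurj⟩, fun i t => ?_⟩
  show y i (s ∘ t) = x i t
  have hz : ∀ q, π q = 0 ↔ q = 0 := by
    intro q
    constructor
    · intro hq
      exact π.injective (hq.trans h0.symm)
    · rintro rfl
      exact h0
  have hcomp : ∀ j, e' ((s ∘ t) j) = (π (e (t j)).1, (e (t j)).2) := fun j => hs (t j)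
  by_cases hi : i ∈ J
  · by_cases hp : ∃ p, ∀ j, (e (t j)).1 = 0 ∨ (e (t j)).1 = p
    · obtain ⟨p, hp⟩ := hp
      rw [hx.loc ⟨i, hi⟩ t p hp, hy.loc ⟨i, hi⟩ (s ∘ t) (π p) (by
        intro j
        rw [hcomp]
        rcases hp j with h | h
        · left
          show π (e (t j)).1 = 0
          rw [h]
          exact h0
        · right
          show π (e (t j)).1 = π p
          rw [h]), hπ]
      refine congrArg ((f p).2 ⟨i, hi⟩) (funext fun j => ?_)
      rw [hcomp]
      unfold tg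
      show (decide (π (e (t j)).1 ≠ 0), (e (t j)).2) = (decide ((e (t j)).1 ≠ 0), (e (t j)).2)
      congr 1
      rw [Bool.eq_iff_iff, decide_eq_true_eq, decide_eq_true_eq, Ne, Ne, hz]
    · rw [hx.glob i t hp, hy.glob i (s ∘ t) ?_]
      rintro ⟨p, h⟩
      apply hp
      refine ⟨π.symm p, fun j => ?_⟩
      rcases h j with h | h
      · left
        rw [hcomp] at h
        exact (hz _).1 h
      · right
        rw [hcomp] at h
        exact (Equiv.eq_symm_apply π).2 h
  · rw [hx.out i hi, hy.out i hi]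

/-- positions in the classes of a partition with bounded classes -/
theorem exists_pos (c : ℕ → ℕ) (M : ℕ) (hf : ∀ v, {w | c w = c v}.Finite)
    (hM : ∀ v, {w | c w = c v}.ncard ≤ M) :
    ∃ q : ℕ → Fin M, Function.Injective fun v => (c v, q v) := by
  have h1 : ∀ v w, c v = c w → v < w →
      {u | c u = c v ∧ u < v}.ncard < {u | c u = c w ∧ u < w}.ncard := by
    intro v w hvw h
    refine ncard_lt_ncard ?_ ((hf w).subset fun u hu => hu.1)
    refine ⟨fun u hu => ⟨hu.1.trans hvw, hu.2.trans h⟩, fun h' => ?_⟩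
    have h2 : v ∈ {u | c u = c v ∧ u < v} := h' ⟨hvw, h⟩
    exact lt_irrefl _ h2.2
  have h2 : ∀ v, {u | c u = c v ∧ u < v}.ncard < M := by
    intro v
    refine lt_of_lt_of_le (ncard_lt_ncard ?_ (hf v)) (hM v)
    refine ⟨fun u hu => hu.1, fun h' => ?_⟩
    have h2 : v ∈ {u | c u = c v ∧ u < v} := h' rfl
    exact lt_irrefl _ h2.2
  refine ⟨fun v => ⟨_, h2 v⟩, fun v w h => ?_⟩
  obtain ⟨h3, h4⟩ := Prod.ext_iff.1 h
  have h5 : {u | c u = c v ∧ u < v}.ncard = {u | c u = c w ∧ u < w}.ncard := congrArg Fin.val h4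
  rcases lt_trichotomy v w with h6 | h6 | h6
  · exact absurd h5 (h1 v w h3 h6).ne
  · exact h6
  · exact absurd h5.symm (h1 w v h3.symm h6).ne

open Classical in
theorem Simple.rep {U : Set ℕ} (hU : U.Finite) {x : Str a} (hx : Simple U x) :
    ∃ (J : Finset ℕ) (M : ℕ) (f : ℕ → Loc a J M) (e : ℕ → ℕ × Fin M), Rep J M f e x := by
  obtain ⟨hI, K, M0, hK⟩ := hx
  let J : Finset ℕ := hU.toFinset ∪ hI.toFinset
  have hJ : ∀ i, i ∉ J → ∀ t, x i t = false := by
    intro i hi t
    rw [← Bool.not_eq_true]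
    intro h
    apply hi
    by_cases hiU : i ∈ U
    · exact Finset.mem_union_left _ (hU.mem_toFinset.2 hiU)
    · exact Finset.mem_union_right _ (hI.mem_toFinset.2 ⟨hiU, t, h⟩)
  have hsym : ∀ v w, Rl (Edges x) K v w → Rl (Edges x) K w v := by
    rintro v w ⟨h1, h2, e, he, h3, h4⟩
    exact ⟨h2, h1, e, he, h4, h3⟩
  have : Std.Symm (Rl (Edges x) (K : Set ℕ)) := ⟨hsym⟩
  have hC : ∀ v w, w ∈ Cmp (Edges x) K v → Cmp (Edges x) K w = Cmp (Edges x) K v := by
    intro v w hw
    have hw' : ReflTransGen (Rl (Edges x) K) w v := ReflTransGen.stdSymm.symm _ _ hw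
    ext z
    exact ⟨fun h => ReflTransGen.trans hw h, fun h => ReflTransGen.trans hw' h⟩
  let c : ℕ → ℕ := fun v => if v ∈ K then 0 else sInf (Cmp (Edges x) K v) + 1
  have hc0 : ∀ v, c v = 0 ↔ v ∈ K := by
    intro v
    show (if v ∈ K then 0 else sInf (Cmp (Edges x) K v) + 1) = 0 ↔ _
    by_cases h : v ∈ K
    · rw [if_pos h]
      exact ⟨fun _ => h, fun _ => rfl⟩
    · rw [if_neg h]
      exact ⟨fun h => absurd h (Nat.succ_ne_zero _), fun h' => absurd h' h⟩
  have hc1 : ∀ v, v ∉ K → c v = sInf (Cmp (Edges x) K v) + 1 := fun v hv => if_neg hv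
  have hcc : ∀ v w, v ∉ K → c w = c v → w ∈ Cmp (Edges x) K v := by
    intro v w hv hw
    have hwK : w ∉ K := by
      intro h
      rw [(hc0 w).2 h] at hw
      exact hv ((hc0 v).1 hw.symm)
    rw [hc1 v hv, hc1 w hwK] at hw
    have h1 : sInf (Cmp (Edges x) K v) ∈ Cmp (Edges x) K v := Nat.sInf_mem ⟨v, self_mem_Cmp _ _ _⟩
    have h2 : sInf (Cmp (Edges x) K w) ∈ Cmp (Edges x) K w := Nat.sInf_mem ⟨w, self_mem_Cmp _ _ _⟩
    have h3 : sInf (Cmp (Edges x) K w) = sInf (Cmp (Edges x) K v) := by omega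
    rw [h3] at h2
    rw [← hC v _ h1, hC w _ h2]
    exact self_mem_Cmp _ _ _
  let M := max K.card M0
  have hfib : ∀ v, {w | c w = c v}.Finite ∧ {w | c w = c v}.ncard ≤ M := by
    intro v
    by_cases hv : v ∈ K
    · have e : {w | c w = c v} = (K : Set ℕ) := by
        ext w
        show c w = c v ↔ w ∈ K
        rw [(hc0 v).2 hv, hc0]
      rw [e]
      refine ⟨K.finite_toSet, ?_⟩
      rw [ncard_coe_finset]
      exact le_max_left _ _
    · have e : {w | c w = c v} ⊆ Cmp (Edges x) K v := fun w hw => hcc v w hv hw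
      exact ⟨(hK v hv).1.subset e, (ncard_le_ncard e (hK v hv).1).trans
        ((hK v hv).2.trans (le_max_right _ _))⟩
  obtain ⟨q, hq⟩ := exists_pos c M (fun v => (hfib v).1) (fun v => (hfib v).2)
  let e : ℕ → ℕ × Fin M := fun v => (c v, q v)
  let f : ℕ → Loc a J M := fun p => (fun s => decide (∃ n, e n = (p, s)), fun i τ =>
    decide (∃ t, (∀ j, (e (t j)).1 = 0 ∨ (e (t j)).1 = p) ∧ (∀ j, tg (e (t j)) = τ j) ∧
      x i t = true))
  refine ⟨J, M, f, e, ⟨hq, hJ, fun z => ?_, fun i t p hp => ?_, fun i t hp => ?_⟩⟩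
  · show _ ↔ decide (∃ n, e n = (z.1, z.2)) = true
    rw [decide_eq_true_eq]
  · show x i t = decide _
    rw [Bool.eq_iff_iff, decide_eq_true_eq]
    constructor
    · intro h
      exact ⟨t, hp, fun _ => rfl, h⟩
    · rintro ⟨t', h1, h2, h3⟩
      have h4 : t' = t := by
        funext j
        apply hq
        show e (t' j) = e (t j)
        obtain ⟨h5, h6⟩ := Prod.ext_iff.1 (h2 j)
        have h7 : (e (t' j)).1 ≠ 0 ↔ (e (t j)).1 ≠ 0 := by
          have h8 : decide ((e (t' j)).1 ≠ 0) = decide ((e (t j)).1 ≠ 0) := h5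
          rw [Bool.eq_iff_iff, decide_eq_true_eq, decide_eq_true_eq] at h8
          exact h8
        refine Prod.ext ?_ h6
        by_cases h9 : (e (t j)).1 = 0
        · have h10 : (e (t' j)).1 = 0 := by
            by_contra h
            exact h7.1 h h9
          rw [h9, h10]
        · rw [(hp j).resolve_left h9, (h1 j).resolve_left (h7.2 h9)]
      rw [← h4]
      exact h3
  · rw [← Bool.not_eq_true]
    intro h
    apply hp
    by_cases h0 : ∀ j, (e (t j)).1 = 0
    · exact ⟨0, fun j => Or.inl (h0 j)⟩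
    · push Not at h0
      obtain ⟨j0, hj0⟩ := h0
      refine ⟨(e (t j0)).1, fun j => ?_⟩
      by_cases hj : (e (t j)).1 = 0
      · exact Or.inl hj
      · right
        by_cases hjj : j = j0
        · rw [hjj]
        · have h2 : 2 ≤ a i := by
            have h3 := j.2
            have h4 := j0.2
            have h5 : j.1 ≠ j0.1 := fun h => hjj (Fin.ext h)
            omega
          have h6 : t j0 ∉ K := fun h => hj0 ((hc0 _).2 h)
          have h7 : t j ∉ K := fun h => hj ((hc0 _).2 h)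
          have h8 : t j ∈ Cmp (Edges x) K (t j0) := ReflTransGen.single
            ((rl_edges x K _ _).2 ⟨h6, h7, i, h2, t, h, ⟨j0, rfl⟩, j, rfl⟩)
          show c (t j) = c (t j0)
          rw [hc1 _ h7, hc1 _ h6, hC _ _ h8]

theorem simple_countable {U : Set ℕ} (hU : U.Finite) :
    ∃ f : ℕ → Str a, ∀ x, Simple U x → ∃ n, Iso (f n) x := by
  classical
  let C : Type := Σ p : Finset ℕ × ℕ, Loc a p.1 p.2 × (Loc a p.1 p.2 → ℕ∞)
  let HC : Str a → C → Prop := fun x c => ∃ (f : ℕ → Loc a c.1.1 c.1.2)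
    (e : ℕ → ℕ × Fin c.1.2), Rep c.1.1 c.1.2 f e x ∧ c.2.1 = f 0 ∧
      ∀ s, c.2.2 s = {p | p ≠ 0 ∧ f p = s}.encard
  have h1 : ∀ x, Simple U x → ∃ c, HC x c := by
    intro x hx
    obtain ⟨J, M, f, e, h⟩ := hx.rep hU
    exact ⟨⟨(J, M), f 0, fun s => {p | p ≠ 0 ∧ f p = s}.encard⟩, f, e, h, rfl, fun _ => rfl⟩
  have h2 : ∀ x y c, HC x c → HC y c → Iso x y := by
    rintro x y ⟨⟨J, M⟩, c0, c1⟩ ⟨f, e, h1, h2, h3⟩ ⟨g, e', h4, h5, h6⟩
    obtain ⟨π, h7, h8⟩ := fib_equiv0 f g (h2.symm.trans h5) fun s => (h3 s).symm.trans (h6 s)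
    exact h1.iso h4 h7 h8
  have hcC : Countable C := by
    have : ∀ p : Finset ℕ × ℕ, Countable (Loc a p.1 p.2 × (Loc a p.1 p.2 → ℕ∞)) := by
      intro p
      infer_instance
    infer_instance
  have hne : Nonempty C := ⟨⟨(∅, 0), (fun _ => true, fun _ _ => true), fun _ => 0⟩⟩
  obtain ⟨F, hF⟩ := exists_surjective_nat C
  refine ⟨fun n => if h : ∃ x, HC x (F n) then h.choose else fun _ _ => false, fun x hx => ?_⟩
  obtain ⟨c, hc⟩ := h1 x hx
  obtain ⟨n, rfl⟩ := hF c
  refine ⟨n, ?_⟩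
  have h : ∃ x, HC x (F n) := ⟨x, hc⟩
  show Iso (if h : ∃ x, HC x (F n) then h.choose else fun _ _ => false) x
  rw [dif_pos h]
  exact h2 _ _ _ h.choose_spec hc

end Pool.Agent.Q205.VC
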