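import Pool.Agent.Q205.VC.Conv
import Pool.Agent.Q205.VC.Simp

set_option autoImplicit false

/-!
# Classes of structures that do not distinguish a structure from its blow-ups
-/

namespace Pool.Agent.Q205.VC

open Set

variable {a : ℕ → ℕ}

/-- the pullback along a map -/
def pb (p : ℕ → ℕ) (x : Str a) : Str a := fun i t => x i (p ∘ t)

/-- `u` can be replaced by `v` at each place -/
def Eqv (x : Str a) (u v : ℕ) : Prop :=
  ∀ (i : ℕ) (j : Fin (a i)) (t : Fin (a i) → ℕ),
    x i (Function.update t j u) = x i (Function.update t j v)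

theorem Eqv.refl (x : Str a) (u : ℕ) : Eqv x u u := fun _ _ _ => rfl

theorem Eqv.symm {x : Str a} {u v : ℕ} (h : Eqv x u v) : Eqv x v u := fun i j t => (h i j t).symm

theorem Eqv.trans {x : Str a} {u v w : ℕ} (h : Eqv x u v) (h' : Eqv x v w) : Eqv x u w :=
  fun i j t => (h i j t).trans (h' i j t)

theorem eqv_ptw {x : Str a} {i : ℕ} {t s : Fin (a i) → ℕ} (h : ∀ j, Eqv x (t j) (s j)) :
    x i t = x i s := by
  have key : ∀ m, m ≤ a i → x i t = x i (fun j => if j.val < m then s j else t j) := by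
    intro m
    induction m with
    | zero =>
      intro _
      congr 1
    | succ m ih =>
      intro hm
      have hm' : m < a i := hm
      rw [ih (by omega)]
      have h1 := h ⟨m, hm'⟩ i ⟨m, hm'⟩ (fun j => if j.val < m then s j else t j)
      have e1 : Function.update (fun j : Fin (a i) => if j.val < m then s j else t j) ⟨m, hm'⟩
          (t ⟨m, hm'⟩) = fun j => if j.val < m then s j else t j := by
        funext j
        by_cases hj : j = ⟨m, hm'⟩
        · subst hj
          rw [Function.update_self, if_neg (lt_irrefl m)]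
        · rw [Function.update_of_ne hj]
      have e2 : Function.update (fun j : Fin (a i) => if j.val < m then s j else t j) ⟨m, hm'⟩
          (s ⟨m, hm'⟩) = fun j => if j.val < m + 1 then s j else t j := by
        funext j
        by_cases hj : j = ⟨m, hm'⟩
        · subst hj
          rw [Function.update_self, if_pos (Nat.lt_succ_self m)]
        · rw [Function.update_of_ne hj]
          have hne : j.val ≠ m := fun h => hj (Fin.ext h)
          by_cases hlt : j.val < m
          · rw [if_pos hlt, if_pos (by omega)]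
          · rw [if_neg hlt, if_neg (by omega)]
      rw [e1, e2] at h1
      exact h1
  rw [key (a i) le_rfl]
  congr 1
  funext j
  rw [if_pos j.2]

theorem eqv_pb {p : ℕ → ℕ} (hp : Function.Surjective p) (x : Str a) (u v : ℕ) :
    Eqv (pb p x) u v ↔ Eqv x (p u) (p v) := by
  constructor
  · intro h i j s
    choose r hr using hp
    have h1 := h i j (r ∘ s)
    unfold pb at h1
    have e : ∀ z, p ∘ Function.update (r ∘ s) j z = Function.update s j (p z) := by
      intro z
      rw [Function.comp_update]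
      congr 1
      funext k
      exact hr (s k)
    rw [e, e] at h1
    exact h1
  · intro h i j t
    unfold pb
    rw [Function.comp_update, Function.comp_update]
    exact h i j (p ∘ t)

theorem iso_iff_pb (x y : Str a) : Iso x y ↔ ∃ σ : Equiv.Perm ℕ, pb σ y = x := by
  constructor
  · rintro ⟨σ, h⟩
    exact ⟨σ, funext fun i => funext fun t => h i t⟩
  · rintro ⟨σ, rfl⟩
    exact ⟨σ, fun i t => rfl⟩

theorem eqv_iso {x y : Str a} {σ : Equiv.Perm ℕ}
    (h : ∀ (i : ℕ) (v : Fin (a i) → ℕ), y i (⇑σ ∘ v) = x i v) (u v : ℕ) :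
    Eqv y (σ u) (σ v) ↔ Eqv x u v := by
  have e : pb σ y = x := funext fun i => funext fun t => h i t
  rw [← e, eqv_pb σ.surjective]

/-- common pullbacks -/
theorem exists_pull {q w : ℕ → ℕ} (h : range q = range w) :
    ∃ p p' : ℕ → ℕ, Function.Surjective p ∧ Function.Surjective p' ∧ ∀ n, q (p n) = w (p' n) := by
  have h1 : ∀ u, ∃ v, q u = w v := by
    intro u
    have : q u ∈ range w := h ▸ mem_range_self u
    obtain ⟨v, hv⟩ := this
    exact ⟨v, hv.symm⟩
  have h2 : ∀ v, ∃ u, q u = w v := by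
    intro v
    have : w v ∈ range q := h ▸ mem_range_self v
    exact this
  choose f hf using h1
  have hinf : Infinite {z : ℕ × ℕ // q z.1 = w z.2} := by
    refine Infinite.of_injective (fun u => ⟨(u, f u), hf u⟩) ?_
    intro u u' huu
    exact congrArg (fun z : {z : ℕ × ℕ // q z.1 = w z.2} => z.1.1) huu
  obtain ⟨d⟩ := nonempty_denumerable {z : ℕ × ℕ // q z.1 = w z.2}
  let e : {z : ℕ × ℕ // q z.1 = w z.2} ≃ ℕ := Denumerable.eqv _
  refine ⟨fun n => (e.symm n).1.1, fun n => (e.symm n).1.2, ?_, ?_, fun n => (e.symm n).2⟩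
  · intro u
    refine ⟨e ⟨(u, f u), hf u⟩, ?_⟩
    show (e.symm (e ⟨(u, f u), hf u⟩)).1.1 = u
    rw [e.symm_apply_apply]
  · intro v
    obtain ⟨u, hu⟩ := h2 v
    refine ⟨e ⟨(u, v), hu⟩, ?_⟩
    show (e.symm (e ⟨(u, v), hu⟩)).1.2 = v
    rw [e.symm_apply_apply]

/-- does not distinguish a structure from its blow-ups -/
def BU (B : Set (Str a)) : Prop := ∀ p : ℕ → ℕ, Function.Surjective p → ∀ x, x ∈ B ↔ pb p x ∈ B

theorem exists_change {B : Set (Str a)} (hB : BU B) {x : Str a} (hx : x ∈ B) {q w : ℕ → ℕ}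
    (hq : ∀ u v, Eqv x u v ↔ q u = q v) (hqw : range q = range w) (r : ℕ → ℕ)
    (hr : ∀ n, q (r (w n)) = w n) :
    pb (r ∘ w) x ∈ B ∧ (∀ i t s, (∀ j, q (t j) = w (s j)) → x i t = pb (r ∘ w) x i s) ∧
      ∀ u v, Eqv (pb (r ∘ w) x) u v ↔ w u = w v := by
  have h1 : ∀ i t s, (∀ j, q (t j) = w (s j)) → x i t = pb (r ∘ w) x i s := by
    intro i t s h
    refine eqv_ptw fun j => ?_
    rw [hq]
    show q (t j) = q (r (w (s j)))
    rw [hr, h]
  obtain ⟨p, p', hp, hp', hpp⟩ := exists_pull hqw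
  have h2 : pb p x = pb p' (pb (r ∘ w) x) := by
    funext i t
    exact h1 i (p ∘ t) (p' ∘ t) fun j => hpp _
  refine ⟨?_, h1, fun u v => ?_⟩
  · rw [hB p' hp', ← h2, ← hB p hp]
    exact hx
  · obtain ⟨u, rfl⟩ := hp' u
    obtain ⟨v, rfl⟩ := hp' v
    rw [← eqv_pb hp', ← h2, eqv_pb hp, hq, hpp, hpp]

/-- the sizes of the classes -/
def Szs (x : Str a) : Set ℕ := {s | ∃ u, {v | Eqv x u v}.ncard = s}

theorem cls_iso {x y : Str a} {σ : Equiv.Perm ℕ}
    (h : ∀ (i : ℕ) (v : Fin (a i) → ℕ), y i (⇑σ ∘ v) = x i v) (u : ℕ) :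
    {v | Eqv y (σ u) v} = σ '' {v | Eqv x u v} := by
  ext v
  obtain ⟨v, rfl⟩ := σ.surjective v
  rw [σ.injective.mem_set_image]
  exact eqv_iso h u v

theorem szs_iso {x y : Str a} (h : Iso x y) : Szs x = Szs y := by
  obtain ⟨σ, h⟩ := h
  ext s
  constructor
  · rintro ⟨u, hu⟩
    refine ⟨σ u, ?_⟩
    rw [cls_iso h, ncard_image_of_injective _ σ.injective, hu]
  · rintro ⟨u, hu⟩
    obtain ⟨u, rfl⟩ := σ.surjective u
    refine ⟨u, ?_⟩
    rw [cls_iso h, ncard_image_of_injective _ σ.injective] at hu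
    exact hu

/-! ### The partitions -/

/-- infinitely many classes; the class of `m + 1` has `m + 2` elements or is infinite -/
def wA (α : ℕ → Bool) (n : ℕ) : ℕ :=
  if (Nat.unpair n).2 ≤ (Nat.unpair n).1 ∨ α ((Nat.unpair n).1 - 1) = true then (Nat.unpair n).1
  else 0

theorem wA_surj (α : ℕ → Bool) : Function.Surjective (wA α) := by
  intro m
  refine ⟨Nat.pair m 0, ?_⟩
  unfold wA
  rw [Nat.unpair_pair]
  exact if_pos (Or.inl (Nat.zero_le _))

theorem wA_fin (α : ℕ → Bool) (m : ℕ) (h : α m = false) :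
    {n | wA α n = m + 1}.ncard = m + 2 := by
  have e : {n | wA α n = m + 1} = (fun l => Nat.pair (m + 1) l) '' (Set.Iio (m + 2)) := by
    ext n
    constructor
    · intro hn
      have hn' : (if (Nat.unpair n).2 ≤ (Nat.unpair n).1 ∨ α ((Nat.unpair n).1 - 1) = true then
        (Nat.unpair n).1 else 0) = m + 1 := hn
      split_ifs at hn' with h1
      · refine ⟨(Nat.unpair n).2, ?_, ?_⟩
        · rcases h1 with h1 | h1
          · show (Nat.unpair n).2 < m + 2
            omega
          · rw [hn', Nat.add_sub_cancel, h] at h1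
            cases h1
        · show Nat.pair (m + 1) (Nat.unpair n).2 = n
          rw [← hn', Nat.pair_unpair]
    · rintro ⟨l, hl, rfl⟩
      show (if (Nat.unpair (Nat.pair (m + 1) l)).2 ≤ (Nat.unpair (Nat.pair (m + 1) l)).1 ∨ _ then
        (Nat.unpair (Nat.pair (m + 1) l)).1 else 0) = m + 1
      rw [Nat.unpair_pair]
      have hl' : l < m + 2 := hl
      exact if_pos (Or.inl (by show l ≤ m + 1; omega))
  rw [e, ncard_image_of_injective]
  · rw [← Finset.coe_Iio, ncard_coe_finset, Nat.Iio_eq_range, Finset.card_range]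
  · intro l l' h
    have h' : Nat.pair (m + 1) l = Nat.pair (m + 1) l' := h
    exact (Nat.pair_eq_pair.1 h').2

theorem wA_inf (α : ℕ → Bool) (m : ℕ) (h : α m = true) : {n | wA α n = m + 1}.ncard = 0 := by
  refine Set.Infinite.ncard ?_
  refine Set.infinite_of_injective_forall_mem (f := fun l => Nat.pair (m + 1) l) ?_ ?_
  · intro l l' h
    have h' : Nat.pair (m + 1) l = Nat.pair (m + 1) l' := h
    exact (Nat.pair_eq_pair.1 h').2
  · intro l
    show (if (Nat.unpair (Nat.pair (m + 1) l)).2 ≤ (Nat.unpair (Nat.pair (m + 1) l)).1 ∨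
      α ((Nat.unpair (Nat.pair (m + 1) l)).1 - 1) = true then
        (Nat.unpair (Nat.pair (m + 1) l)).1 else 0) = m + 1
    rw [Nat.unpair_pair]
    exact if_pos (Or.inr h)

theorem wA_zero (α : ℕ → Bool) : {n | wA α n = 0}.ncard = 0 := by
  refine Set.Infinite.ncard ?_
  refine Set.infinite_of_injective_forall_mem (f := fun l => Nat.pair 0 l) ?_ ?_
  · intro l l' h
    have h' : Nat.pair 0 l = Nat.pair 0 l' := h
    exact (Nat.pair_eq_pair.1 h').2
  · intro l
    show (if (Nat.unpair (Nat.pair 0 l)).2 ≤ (Nat.unpair (Nat.pair 0 l)).1 ∨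
      α ((Nat.unpair (Nat.pair 0 l)).1 - 1) = true then
        (Nat.unpair (Nat.pair 0 l)).1 else 0) = 0
    rw [Nat.unpair_pair]
    split_ifs <;> rfl

/-- finitely many classes; the class of `m` has `m + 1` elements, the class of `0` is infinite -/
def wB (k : ℕ) (n : ℕ) : ℕ :=
  if (Nat.unpair n).1 < k ∧ (Nat.unpair n).2 ≤ (Nat.unpair n).1 then (Nat.unpair n).1 else 0

theorem wB_range {k : ℕ} (hk : 0 < k) : range (wB k) = Set.Iio k := by
  ext m
  constructor
  · rintro ⟨n, rfl⟩
    show wB k n < k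
    unfold wB
    split_ifs with h
    · exact h.1
    · exact hk
  · intro hm
    refine ⟨Nat.pair m 0, ?_⟩
    unfold wB
    rw [Nat.unpair_pair]
    exact if_pos ⟨hm, Nat.zero_le _⟩

theorem wB_fin {k m : ℕ} (h : m + 1 < k) : {n | wB k n = m + 1}.ncard = m + 2 := by
  have e : {n | wB k n = m + 1} = (fun l => Nat.pair (m + 1) l) '' (Set.Iio (m + 2)) := by
    ext n
    constructor
    · intro hn
      have hn' : (if (Nat.unpair n).1 < k ∧ (Nat.unpair n).2 ≤ (Nat.unpair n).1 then
        (Nat.unpair n).1 else 0) = m + 1 := hn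
      split_ifs at hn' with h1
      · refine ⟨(Nat.unpair n).2, ?_, ?_⟩
        · show (Nat.unpair n).2 < m + 2
          omega
        · show Nat.pair (m + 1) (Nat.unpair n).2 = n
          rw [← hn', Nat.pair_unpair]
    · rintro ⟨l, hl, rfl⟩
      show (if (Nat.unpair (Nat.pair (m + 1) l)).1 < k ∧
        (Nat.unpair (Nat.pair (m + 1) l)).2 ≤ (Nat.unpair (Nat.pair (m + 1) l)).1 then
        (Nat.unpair (Nat.pair (m + 1) l)).1 else 0) = m + 1
      rw [Nat.unpair_pair]
      have hl' : l < m + 2 := hl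
      exact if_pos ⟨h, (by show l ≤ m + 1; omega)⟩
  rw [e, ncard_image_of_injective]
  · rw [← Finset.coe_Iio, ncard_coe_finset, Nat.Iio_eq_range, Finset.card_range]
  · intro l l' h
    have h' : Nat.pair (m + 1) l = Nat.pair (m + 1) l' := h
    exact (Nat.pair_eq_pair.1 h').2

theorem wB_zero (k : ℕ) : {n | wB k n = 0}.ncard = 0 := by
  refine Set.Infinite.ncard ?_
  refine Set.infinite_of_injective_forall_mem (f := fun l => Nat.pair 0 l) ?_ ?_
  · intro l l' h
    have h' : Nat.pair 0 l = Nat.pair 0 l' := h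
    exact (Nat.pair_eq_pair.1 h').2
  · intro l
    show (if (Nat.unpair (Nat.pair 0 l)).1 < k ∧
        (Nat.unpair (Nat.pair 0 l)).2 ≤ (Nat.unpair (Nat.pair 0 l)).1 then
        (Nat.unpair (Nat.pair 0 l)).1 else 0) = 0
    rw [Nat.unpair_pair]
    split_ifs <;> rfl

end Pool.Agent.Q205.VC
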