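import Pool.Agent.Q205.VC.EqF

set_option autoImplicit false

/-!
# The dichotomy for classes that do not distinguish a structure from its blow-ups
-/

namespace Pool.Agent.Q205.VC

open Set MeasureTheory

variable {a : ℕ → ℕ}

/-- the equivalence relation -/
def std (x : Str a) : Setoid ℕ := ⟨Eqv x, ⟨Eqv.refl x, Eqv.symm, Eqv.trans⟩⟩

theorem perfect_A {B : Set (Str a)} (hB : BU B) {x : Str a} (hx : x ∈ B)
    (hinf : Infinite (Quotient (std x))) :
    ∃ g : (ℕ → Bool) → Str a, Continuous g ∧ (∀ c, g c ∈ B) ∧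
      ∀ c d, Iso (g c) (g d) → c = d := by
  obtain ⟨d⟩ := nonempty_denumerable (Quotient (std x))
  let e : Quotient (std x) ≃ ℕ := Denumerable.eqv _
  let q : ℕ → ℕ := fun u => e (Quotient.mk (std x) u)
  have hq : ∀ u v, Eqv x u v ↔ q u = q v := by
    intro u v
    constructor
    · intro h
      exact congrArg e (Quotient.sound (s := std x) h)
    · intro h
      exact Quotient.exact (s := std x) (e.injective h)
  have hqs : Function.Surjective q := by
    intro n
    obtain ⟨u, hu⟩ := Quotient.exists_rep (e.symm n)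
    refine ⟨u, ?_⟩
    show e (Quotient.mk (std x) u) = n
    rw [hu, e.apply_symm_apply]
  have hqs' := hqs
  choose r hr using hqs'
  have hch : ∀ α, _ := fun α => exists_change hB hx hq
    ((hqs.range_eq).trans (wA_surj α).range_eq.symm) r (fun n => hr _)
  refine ⟨fun α => pb (r ∘ wA α) x, ?_, fun α => (hch α).1, fun α β h => ?_⟩
  · refine continuous_pi fun i => continuous_pi fun t => ?_
    show Continuous fun α : ℕ → Bool => x i ((r ∘ wA α) ∘ t)
    have h1 : ∀ n, Continuous fun α : ℕ → Bool => wA α n := by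
      intro n
      exact (continuous_of_discreteTopology (f := fun b : Bool =>
        if (Nat.unpair n).2 ≤ (Nat.unpair n).1 ∨ b = true then (Nat.unpair n).1 else 0)).comp
        (continuous_apply ((Nat.unpair n).1 - 1))
    have h2 : Continuous fun α : ℕ → Bool => (fun j => wA α (t j) : Fin (a i) → ℕ) :=
      continuous_pi fun j => h1 (t j)
    exact (continuous_of_discreteTopology (f := fun s : Fin (a i) → ℕ => x i (r ∘ s))).comp h2
  · have key : ∀ α m, m + 2 ∈ Szs (pb (r ∘ wA α) x) ↔ α m = false := by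
      intro α m
      have h1 : ∀ u, {v | Eqv (pb (r ∘ wA α) x) u v} = {v | wA α v = wA α u} := by
        intro u
        ext v
        show Eqv _ u v ↔ _
        rw [(hch α).2.2]
        exact eq_comm
      constructor
      · rintro ⟨u, hu⟩
        rw [h1] at hu
        rcases hw : wA α u with _ | n
        · rw [hw, wA_zero] at hu
          omega
        · rw [hw] at hu
          cases hn : α n with
          | true =>
            rw [wA_inf α n hn] at hu
            omega
          | false =>
            rw [wA_fin α n hn] at hu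
            have : n = m := by omega
            rw [← this]
            exact hn
      · intro hm
        obtain ⟨u, hu⟩ := wA_surj α (m + 1)
        refine ⟨u, ?_⟩
        rw [h1, hu, wA_fin α m hm]
    funext m
    have h1 := key α m
    have h2 := key β m
    rw [szs_iso h, h2] at h1
    cases ha : α m <;> cases hb : β m
    · rfl
    · rw [ha, hb] at h1
      simp at h1
    · rw [ha, hb] at h1
      simp at h1
    · rfl

/-- the structures whose classes are the fibres of `wB k` -/
def CK (B : Set (Str a)) (k : ℕ) : Set (Str a) :=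
  {y | y ∈ B ∧ ∀ u v, Eqv y u v ↔ wB k u = wB k v}

theorem meas_CK {B : Set (Str a)} (hB : MeasurableSet B) (k : ℕ) : MeasurableSet (CK B k) := by
  have hb : ∀ i, BorelSpace ((Fin (a i) → ℕ) → Bool) := fun i => Pi.borelSpace
  have hb2 : BorelSpace (Str a) := Pi.borelSpace
  have h1 : ∀ u v, MeasurableSet {y : Str a | Eqv y u v} := by
    intro u v
    have e : {y : Str a | Eqv y u v} = ⋂ (i : ℕ) (j : Fin (a i)) (t : Fin (a i) → ℕ),
        {y : Str a | y i (Function.update t j u) = y i (Function.update t j v)} := by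
      ext y
      simp only [mem_iInter]
      rfl
    rw [e]
    refine (isClosed_iInter fun i => isClosed_iInter fun j => isClosed_iInter fun t => ?_).measurableSet
    exact isClosed_eq ((continuous_apply _).comp (continuous_apply _))
      ((continuous_apply _).comp (continuous_apply _))
  have e : CK B k = B ∩ ⋂ (u : ℕ) (v : ℕ), {y : Str a | Eqv y u v ↔ wB k u = wB k v} := by
    ext y
    simp only [mem_inter_iff, mem_iInter]
    rfl
  rw [e]
  refine hB.inter (MeasurableSet.iInter fun u => MeasurableSet.iInter fun v => ?_)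
  by_cases h : wB k u = wB k v
  · have e : {y : Str a | Eqv y u v ↔ wB k u = wB k v} = {y | Eqv y u v} := by
      ext y
      show (Eqv y u v ↔ wB k u = wB k v) ↔ Eqv y u v
      exact ⟨fun h' => h'.2 h, fun h' => ⟨fun _ => h, fun _ => h'⟩⟩
    rw [e]
    exact h1 u v
  · have e : {y : Str a | Eqv y u v ↔ wB k u = wB k v} = {y | Eqv y u v}ᶜ := by
      ext y
      show (Eqv y u v ↔ wB k u = wB k v) ↔ ¬ Eqv y u v
      exact ⟨fun h' h'' => h (h'.1 h''), fun h' => ⟨fun h'' => absurd h'' h', fun h'' =>
        absurd h'' h⟩⟩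
    rw [e]
    exact (h1 u v).compl

theorem CK_eq {B : Set (Str a)} {k : ℕ} {y z : Str a} (hy : y ∈ CK B k)
    (hz : z ∈ CK B k) (h : Iso y z) : y = z := by
  obtain ⟨σ, h⟩ := h
  have h1 : ∀ y ∈ CK B k, ∀ u, {v | Eqv y u v}.ncard =
      if wB k u = 0 then 0 else wB k u + 1 := by
    intro y hy u
    have e : {v | Eqv y u v} = {v | wB k v = wB k u} := by
      ext v
      show Eqv y u v ↔ _
      rw [hy.2]
      exact eq_comm
    rw [e]
    rcases hw : wB k u with _ | m
    · rw [if_pos rfl, wB_zero]
    · rw [if_neg (Nat.succ_ne_zero m)]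
      refine wB_fin ?_
      have h2 : wB k u = m + 1 := hw
      unfold wB at h2
      split_ifs at h2 with h3
      rw [← h2]
      exact h3.1
  have h2 : ∀ u, wB k (σ u) = wB k u := by
    intro u
    have h3 := h1 z hz (σ u)
    rw [cls_iso h, ncard_image_of_injective _ σ.injective, h1 y hy u] at h3
    split_ifs at h3 with h4 h5 h5
    · rw [h4, h5]
    · omega
  funext i t
  rw [← h i t]
  refine eqv_ptw fun j => ?_
  rw [hz.2]
  exact h2 (t j)

theorem cantor_of_uncountable {C : Set (Str a)} (hC : MeasurableSet C) (hu : ¬ C.Countable) :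
    ∃ g : (ℕ → Bool) → Str a, Continuous g ∧ Function.Injective g ∧ ∀ c, g c ∈ C := by
  have hb : ∀ i, BorelSpace ((Fin (a i) → ℕ) → Bool) := fun i => Pi.borelSpace
  have hb2 : BorelSpace (Str a) := Pi.borelSpace
  have hp1 : SecondCountableTopology (Str a) := inferInstance
  have hp2 : TopologicalSpace.SeparableSpace (Str a) := inferInstance
  have hp3 : TopologicalSpace.IsCompletelyMetrizableSpace (Str a) := inferInstance
  have hp0 : PolishSpace (Str a) := { }
  obtain ⟨t', hle, hp, hc, -⟩ := hC.isClopenable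
  obtain ⟨h, h1, h2, h3⟩ := @IsClosed.exists_nat_bool_injection_of_not_countable (Str a) t' hp
    C hc hu
  refine ⟨h, ?_, h3, fun c => h1 ⟨c, rfl⟩⟩
  exact continuous_le_rng hle h2

/-- **The dichotomy.** -/
theorem bu_dich (B : Set (Str a)) (hBm : MeasurableSet B) (hB : BU B) : CP B := by
  by_cases hinf : ∃ x ∈ B, Infinite (Quotient (std x))
  · obtain ⟨x, hx, hi⟩ := hinf
    exact Or.inr (perfect_A hB hx hi)
  by_cases hunc : ∃ k, ¬ (CK B k).Countable
  · obtain ⟨k, hk⟩ := hunc
    obtain ⟨g, h1, h2, h3⟩ := cantor_of_uncountable (meas_CK hBm k) hk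
    exact Or.inr ⟨g, h1, fun c => (h3 c).1, fun c d h => h2 (CK_eq (h3 c) (h3 d) h)⟩
  left
  have hct : ∀ k, (CK B k).Countable := fun k => by
    by_contra h
    exact hunc ⟨k, h⟩
  let D : Type := Σ k : ℕ, (CK B k) × (Fin k → ℕ∞)
  let HC : Str a → D → Prop := fun x c => ∃ q : ℕ → ℕ, (∀ n, q n < c.1) ∧
    (∀ i t s, (∀ j, q (t j) = wB c.1 (s j)) → x i t = c.2.1.1 i s) ∧
    ∀ m : Fin c.1, c.2.2 m = {n | q n = m}.encard
  have h1 : ∀ x ∈ B, ∃ c, HC x c := by
    intro x hx
    have hfin : Finite (Quotient (std x)) := by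
      rw [← not_infinite_iff_finite]
      exact fun h => hinf ⟨x, hx, h⟩
    obtain ⟨k, ⟨e⟩⟩ := Finite.exists_equiv_fin (Quotient (std x))
    let q : ℕ → ℕ := fun u => (e (Quotient.mk (std x) u)).val
    have hq : ∀ u v, Eqv x u v ↔ q u = q v := by
      intro u v
      constructor
      · intro h
        exact congrArg (fun z => (e z).val) (Quotient.sound (s := std x) h)
      · intro h
        exact Quotient.exact (s := std x) (e.injective (Fin.ext h))
    have hqr : range q = Set.Iio k := by
      ext n
      constructor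
      · rintro ⟨u, rfl⟩
        exact (e (Quotient.mk (std x) u)).2
      · intro hn
        obtain ⟨u, hu⟩ := Quotient.exists_rep (e.symm ⟨n, hn⟩)
        refine ⟨u, ?_⟩
        show (e (Quotient.mk (std x) u)).val = n
        rw [hu, e.apply_symm_apply]
    have hk : 0 < k := by
      have : q 0 ∈ range q := ⟨0, rfl⟩
      rw [hqr] at this
      exact lt_of_le_of_lt (Nat.zero_le _) this
    have hex : ∀ m, ∃ u, m < k → q u = m := by
      intro m
      by_cases hm : m < k
      · have : m ∈ range q := by
          rw [hqr]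
          exact hm
        obtain ⟨u, hu⟩ := this
        exact ⟨u, fun _ => hu⟩
      · exact ⟨0, fun h => absurd h hm⟩
    choose r hr using hex
    have hw : ∀ n, wB k n < k := by
      intro n
      have : wB k n ∈ range (wB k) := ⟨n, rfl⟩
      rw [wB_range hk] at this
      exact this
    obtain ⟨h2, h3, h4⟩ := exists_change hB hx hq (hqr.trans (wB_range hk).symm) r
      (fun n => hr _ (hw n))
    refine ⟨⟨k, ⟨_, h2, h4⟩, fun m => {n | q n = m}.encard⟩, q, fun n => ?_, h3, fun _ => rfl⟩
    have : q n ∈ range q := ⟨n, rfl⟩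
    rw [hqr] at this
    exact this
  have h2 : ∀ x y c, HC x c → HC y c → Iso x y := by
    rintro x y ⟨k, y0, c1⟩ ⟨q, hq1, hq2, hq3⟩ ⟨q', hq1', hq2', hq3'⟩
    obtain ⟨σ, hσ⟩ := fib_equiv q q' (by
      intro s
      by_cases hs : s < k
      · exact (hq3 ⟨s, hs⟩).symm.trans (hq3' ⟨s, hs⟩)
      · have e1 : {p | q p = s} = ∅ := by
          ext p
          exact ⟨fun h => hs (h ▸ hq1 p), fun h => h.elim⟩
        have e2 : {p | q' p = s} = ∅ := by
          ext p
          exact ⟨fun h => hs (h ▸ hq1' p), fun h => h.elim⟩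
        rw [e1, e2])
    refine ⟨σ, fun i t => ?_⟩
    have hk : 0 < k := lt_of_le_of_lt (Nat.zero_le _) (hq1 0)
    have hs : ∀ n, ∃ m, q n = wB k m := by
      intro n
      have : q n ∈ range (wB k) := by
        rw [wB_range hk]
        exact hq1 n
      obtain ⟨m, hm⟩ := this
      exact ⟨m, hm.symm⟩
    choose s hs using hs
    rw [hq2 i t (s ∘ t) (fun j => hs (t j)), hq2' i (⇑σ ∘ t) (s ∘ t) (fun j => ?_)]
    show q' (σ (t j)) = wB k (s (t j))
    rw [hσ]
    exact hs (t j)
  by_cases hne : B.Nonempty
  · obtain ⟨x0, hx0⟩ := hne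
    obtain ⟨c0, hc0⟩ := h1 x0 hx0
    have hD : Countable D := by
      have : ∀ k, Countable (CK B k) := fun k => (hct k).to_subtype
      infer_instance
    have hDn : Nonempty D := ⟨c0⟩
    obtain ⟨F, hF⟩ := exists_surjective_nat D
    classical
    refine ⟨fun n => if h : ∃ x, HC x (F n) then h.choose else fun _ _ => false, fun x hx => ?_⟩
    obtain ⟨c, hc⟩ := h1 x hx
    obtain ⟨n, rfl⟩ := hF c
    refine ⟨n, ?_⟩
    have h : ∃ x, HC x (F n) := ⟨x, hc⟩
    show Iso (if h : ∃ x, HC x (F n) then h.choose else fun _ _ => false) x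
    rw [dif_pos h]
    exact h2 _ _ _ h.choose_spec hc
  · exact ⟨fun _ _ _ => false, fun x hx => absurd ⟨x, hx⟩ hne⟩

end Pool.Agent.Q205.VC
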