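import Pool.Agent.Q205.VC.EqG

set_option autoImplicit false

/-!
# Theories without equality
-/

namespace Pool.Agent.Q205.VC

open Set MeasureTheory FirstOrder FirstOrder.Language

variable {L : FirstOrder.Language.{0, 0}}

/-- every occurrence of equality has a polarity in `Q` -/
def EqPol (Q : Bool → Prop) : ∀ {m : ℕ}, Bool → L.BoundedFormula Empty m → Prop
  | _, _, .falsum => True
  | _, b, .equal _ _ => Q b
  | _, _, .rel _ _ => True
  | _, b, .imp φ ψ => EqPol Q (!b) φ ∧ EqPol Q b ψ
  | _, b, .all φ => EqPol Q b φ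

theorem GC_pb {a : ℕ → ℕ} (enc : (Σ n, L.Relations n) → ℕ) {p : ℕ → ℕ}
    (hp : Function.Surjective p) (x : Str a) : x ∈ GC enc a ↔ pb p x ∈ GC enc a := by
  constructor
  · intro h i hi t
    exact h i hi (p ∘ t)
  · intro h i hi t
    choose r hr using hp
    have h1 := h i hi (r ∘ t)
    have e : p ∘ (r ∘ t) = t := by
      funext j
      exact hr (t j)
    unfold pb at h1
    rw [e] at h1
    exact h1

theorem rz_pb [L.IsRelational] {a : ℕ → ℕ} (enc : (Σ n, L.Relations n) → ℕ)
    (ha : ∀ r, a (enc r) = r.1) {p : ℕ → ℕ} (hp : Function.Surjective p) (x : Str a) {m : ℕ}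
    (φ : L.BoundedFormula Empty m) : ∀ (b : Bool) (w : Empty → ℕ) (v : Fin m → ℕ),
    EqPol (fun _ => False) b φ →
    (@BoundedFormula.Realize L ℕ (dcd enc ha (pb p x)) _ _ φ w v ↔
      @BoundedFormula.Realize L ℕ (dcd enc ha x) _ _ φ w (p ∘ v)) := by
  have hv : ∀ {m} (t : L.Term (Empty ⊕ Fin m)), ∃ i, t = Term.var (Sum.inr i) := by
    intro m t
    cases t with
    | var i =>
      cases i with
      | inl i => exact i.elim
      | inr i => exact ⟨i, rfl⟩
    | func f _ => exact isEmptyElim f
  induction φ with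
  | falsum => exact fun _ _ _ _ => Iff.rfl
  | equal t1 t2 => exact fun _ _ _ h => h.elim
  | @rel m l R ts =>
    intro b w v _
    choose g hg using fun i => hv (ts i)
    have e : ∀ (S : L.Structure ℕ) (w : Empty → ℕ) (v : Fin m → ℕ),
        (@BoundedFormula.Realize L ℕ S _ _ (BoundedFormula.rel R ts) w v ↔
          S.RelMap R (fun i => v (g i))) := by
      intro S w v
      show S.RelMap R (fun i => @Term.realize L ℕ S _ (Sum.elim w v) (ts i)) ↔ _
      have e2 : (fun i => @Term.realize L ℕ S _ (Sum.elim w v) (ts i)) = fun i => v (g i) := by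
        funext i
        rw [hg i]
        rfl
      rw [e2]
    rw [e, e]
    exact Iff.rfl
  | imp φ ψ ih1 ih2 =>
    intro b w v hb
    exact imp_congr (ih1 (!b) w v hb.1) (ih2 b w v hb.2)
  | all φ ih =>
    intro b w v hb
    have h1 : ∀ u, p ∘ Fin.snoc v u = Fin.snoc (p ∘ v) (p u) := by
      intro u
      exact Fin.comp_snoc p v u
    constructor
    · intro h u
      obtain ⟨u, rfl⟩ := hp u
      have h2 := (ih b w _ hb).1 (h u)
      rw [h1] at h2
      exact h2
    · intro h u
      refine (ih b w _ hb).2 ?_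
      rw [h1]
      exact h (p u)

/-- **Theorem.** The dichotomy for theories without equality. -/
theorem eqfree_dich [L.IsRelational] [Countable (Σ n, L.Relations n)] (T : L.Theory)
    (hT : ∀ σ ∈ T, EqPol (fun _ => False) true (σ : L.BoundedFormula Empty 0)) :
    DichC L {S | @Theory.Model L ℕ S T} := by
  obtain ⟨a, enc, henc, ha, ha0⟩ := exists_enc L
  refine dichC_of_cp enc ha henc _ (bu_dich _ ?_ ?_)
  · exact (closed_GC enc).measurableSet.inter (meas_model enc ha T)
  · intro p hp x
    refine and_congr (GC_pb enc hp x) ?_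
    show @Theory.Model L ℕ (dcd enc ha x) T ↔ @Theory.Model L ℕ (dcd enc ha (pb p x)) T
    rw [@Theory.model_iff L ℕ (dcd enc ha x) T, @Theory.model_iff L ℕ (dcd enc ha (pb p x)) T]
    refine forall₂_congr fun σ hσ => ?_
    have h1 : ∀ (w : Empty → ℕ) (v : Fin 0 → ℕ),
        (@BoundedFormula.Realize L ℕ (dcd enc ha (pb p x)) _ _ σ w v ↔
          @BoundedFormula.Realize L ℕ (dcd enc ha x) _ _ σ w v) := by
      intro w v
      have h2 := rz_pb enc ha hp x (σ : L.BoundedFormula Empty 0) true w v (hT σ hσ)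
      have e : p ∘ v = v := Subsingleton.elim _ _
      rw [e] at h2
      exact h2
    exact (h1 _ _).symm

end Pool.Agent.Q205.VC
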