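import Pool.Agent.Q205.VC.EqH
import Pool.Agent.TH686.DO.Inv2

set_option autoImplicit false
set_option linter.unusedSectionVars false

/-!
# Equality in one polarity gives the full conjecture: the blow-up relation
-/

namespace Pool.Agent.Q205.VC

open Set FirstOrder FirstOrder.Language
open Pool.Agent.TH686.FO (L2 R2 g1 g2)
open Pool.Agent.W889.FO (VaughtF SIso siso_of iso_rel)

/-- three binary relation symbols -/
inductive R3 : ℕ → Type
  | fst : R3 2
  | snd : R3 2
  | eqv : R3 2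

/-- the language with three binary relation symbols -/
def L3 : FirstOrder.Language.{0, 0} := ⟨fun _ => Empty, R3⟩

instance : L3.IsRelational := fun _ => inferInstanceAs (IsEmpty Empty)

/-- the old symbols -/
def emb : ∀ {n : ℕ}, R2 n → R3 n
  | _, R2.fst => R3.fst
  | _, R2.snd => R3.snd

/-- a binary relation of a structure -/
def b3 (y : L3.Structure ℕ) (R : R3 2) (u v : ℕ) : Prop := @Structure.RelMap L3 ℕ y 2 R ![u, v]

theorem two_eta (v : Fin 2 → ℕ) : v = ![v 0, v 1] := by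
  funext i
  match i with
  | 0 => rfl
  | 1 => rfl

theorem b3_iso {y y' : L3.Structure ℕ} (e : @FirstOrder.Language.Equiv L3 ℕ ℕ y y') (R : R3 2)
    (u v : ℕ) : b3 y' R (e u) (e v) ↔ b3 y R u v := by
  have h1 := iso_rel e (show L3.Relations 2 from R) ![u, v]
  have e1 : (fun i => e (![u, v] i)) = ![e u, e v] := by
    funext i
    match i with
    | 0 => rfl
    | 1 => rfl
  rw [e1] at h1
  exact h1

theorem siso3_of {y y' : L3.Structure ℕ} (σ : Equiv.Perm ℕ)
    (h : ∀ R u v, b3 y' R (σ u) (σ v) ↔ b3 y R u v) : SIso y y' := by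
  obtain ⟨e, -⟩ := siso_of (S := y) (S' := y') σ (fun n R v => by
    have key : ∀ R : R3 2, ∀ v : Fin 2 → ℕ, @Structure.RelMap L3 ℕ y' 2 R (fun i => σ (v i)) ↔
        @Structure.RelMap L3 ℕ y 2 R v := by
      intro R v
      rw [two_eta v, two_eta fun i => σ (![v 0, v 1] i)]
      exact h R _ _
    cases R with
    | fst => exact key R3.fst v
    | snd => exact key R3.snd v
    | eqv => exact key R3.eqv v)
  exact ⟨e⟩

/-- `y` is a blow-up of `S` with classes of size `κ` -/
def Bl (κ : ℕ∞) (y : L3.Structure ℕ) (S : L2.Structure ℕ) : Prop :=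
  ∃ q : ℕ → ℕ, Function.Surjective q ∧ (∀ u v, b3 y R3.eqv u v ↔ q u = q v) ∧
    (∀ u v, b3 y R3.fst u v ↔ g1 S (q u) (q v)) ∧ (∀ u v, b3 y R3.snd u v ↔ g2 S (q u) (q v)) ∧
    ∀ n, {u | q u = n}.encard = κ

theorem Bl.up {κ : ℕ∞} {y y' : L3.Structure ℕ} {S S' : L2.Structure ℕ} (h : Bl κ y S)
    (h' : Bl κ y' S') (hS : SIso S S') : SIso y y' := by
  obtain ⟨e⟩ := hS
  obtain ⟨q, h1, h2, h3, h4, h5⟩ := h
  obtain ⟨q', k1, k2, k3, k4, k5⟩ := h'
  let π : Equiv.Perm ℕ := @FirstOrder.Language.Equiv.toEquiv L2 ℕ ℕ S S' e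
  have hg1 : ∀ u v, g1 S' (π u) (π v) ↔ g1 S u v := by
    intro u v
    have h1 := iso_rel e (show L2.Relations 2 from R2.fst) ![u, v]
    have e1 : (fun i => e (![u, v] i)) = ![π u, π v] := by
      funext i
      match i with
      | 0 => rfl
      | 1 => rfl
    rw [e1] at h1
    exact h1
  have hg2 : ∀ u v, g2 S' (π u) (π v) ↔ g2 S u v := by
    intro u v
    have h1 := iso_rel e (show L2.Relations 2 from R2.snd) ![u, v]
    have e1 : (fun i => e (![u, v] i)) = ![π u, π v] := by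
      funext i
      match i with
      | 0 => rfl
      | 1 => rfl
    rw [e1] at h1
    exact h1
  obtain ⟨σ, hσ⟩ := fib_equiv (fun u => π (q u)) q' (by
    intro s
    have e1 : {p | π (q p) = s} = {p | q p = π.symm s} := by
      ext p
      show π (q p) = s ↔ q p = π.symm s
      exact (Equiv.eq_symm_apply π).symm
    rw [e1, h5, k5])
  refine siso3_of σ fun R u v => ?_
  cases R with
  | fst => rw [k3, h3, hσ, hσ, hg1]
  | snd => rw [k4, h4, hσ, hσ, hg2]
  | eqv => rw [k2, h2, hσ, hσ, π.injective.eq_iff]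

theorem Bl.down {κ : ℕ∞} {y y' : L3.Structure ℕ} {S S' : L2.Structure ℕ} (h : Bl κ y S)
    (h' : Bl κ y' S') (hy : SIso y y') : SIso S S' := by
  obtain ⟨e⟩ := hy
  obtain ⟨q, h1, h2, h3, h4, -⟩ := h
  obtain ⟨q', k1, k2, k3, k4, -⟩ := h'
  let σ : Equiv.Perm ℕ := @FirstOrder.Language.Equiv.toEquiv L3 ℕ ℕ y y' e
  have hb : ∀ R u v, b3 y' R (σ u) (σ v) ↔ b3 y R u v := fun R u v => b3_iso e R u v
  have hE : ∀ u v, q u = q v ↔ q' (σ u) = q' (σ v) := by
    intro u v
    rw [← h2, ← k2, hb]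
  have h1' := h1
  choose r hr using h1'
  have k1' := k1
  choose r' hr' using k1'
  have hf : ∀ u, q' (σ (r (q u))) = q' (σ u) := fun u => (hE _ _).1 (hr _)
  let π : Equiv.Perm ℕ := ⟨fun n => q' (σ (r n)), fun m => q (σ.symm (r' m)), by
    intro n
    show q (σ.symm (r' (q' (σ (r n))))) = n
    have h5 : q' (σ (σ.symm (r' (q' (σ (r n)))))) = q' (σ (r n)) := by
      rw [σ.apply_symm_apply, hr']
    rw [(hE _ _).2 h5, hr], by
    intro m
    show q' (σ (r (q (σ.symm (r' m))))) = m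
    rw [hf, σ.apply_symm_apply, hr']⟩
  have hπ : ∀ u, π (q u) = q' (σ u) := hf
  have hg1 : ∀ u v, g1 S' (π u) (π v) ↔ g1 S u v := by
    intro u v
    obtain ⟨u, rfl⟩ := h1 u
    obtain ⟨v, rfl⟩ := h1 v
    rw [hπ, hπ, ← k3, hb, h3]
  have hg2 : ∀ u v, g2 S' (π u) (π v) ↔ g2 S u v := by
    intro u v
    obtain ⟨u, rfl⟩ := h1 u
    obtain ⟨v, rfl⟩ := h1 v
    rw [hπ, hπ, ← k4, hb, h4]
  obtain ⟨e', -⟩ := siso_of (S := S) (S' := S') π (fun n R v => by
    cases R with
    | fst =>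
      rw [two_eta v, two_eta fun i => π (![v 0, v 1] i)]
      exact hg1 _ _
    | snd =>
      rw [two_eta v, two_eta fun i => π (![v 0, v 1] i)]
      exact hg2 _ _)
  exact ⟨e'⟩

/-! ### The translation -/

/-- terms -/
def vt {β : Type} : L2.Term β → L3.Term β
  | .var i => .var i
  | .func f _ => Empty.elim f

/-- the translation -/
def t3 : ∀ {m : ℕ}, L2.BoundedFormula Empty m → L3.BoundedFormula Empty m
  | _, .falsum => .falsum
  | _, .equal s t => .rel R3.eqv ![vt s, vt t]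
  | _, .rel R ts => .rel (emb R) (fun i => vt (ts i))
  | _, .imp φ ψ => .imp (t3 φ) (t3 ψ)
  | _, .all φ => .all (t3 φ)

theorem eqPol_t3 (Q : Bool → Prop) {m : ℕ} (φ : L2.BoundedFormula Empty m) :
    ∀ b, EqPol Q b (t3 φ) := by
  induction φ with
  | falsum => exact fun _ => trivial
  | equal _ _ => exact fun _ => trivial
  | rel _ _ => exact fun _ => trivial
  | imp φ ψ ih1 ih2 => exact fun b => ⟨ih1 (!b), ih2 b⟩
  | all φ ih => exact fun b => ih b

theorem rz_t3 {y : L3.Structure ℕ} {S : L2.Structure ℕ} {q : ℕ → ℕ}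
    (h1 : Function.Surjective q) (h2 : ∀ u v, b3 y R3.eqv u v ↔ q u = q v)
    (h3 : ∀ u v, b3 y R3.fst u v ↔ g1 S (q u) (q v))
    (h4 : ∀ u v, b3 y R3.snd u v ↔ g2 S (q u) (q v)) {m : ℕ} (φ : L2.BoundedFormula Empty m) :
    ∀ (w : Empty → ℕ) (v : Fin m → ℕ),
      (@BoundedFormula.Realize L3 ℕ y _ _ (t3 φ) w v ↔
        @BoundedFormula.Realize L2 ℕ S _ _ φ w (q ∘ v)) := by
  have hv : ∀ {m} (t : L2.Term (Empty ⊕ Fin m)), ∃ i, t = Term.var (Sum.inr i) := by
    intro m t
    cases t with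
    | var i =>
      cases i with
      | inl i => exact i.elim
      | inr i => exact ⟨i, rfl⟩
    | func f _ => exact Empty.elim f
  induction φ with
  | falsum => exact fun _ _ => Iff.rfl
  | equal s t =>
    intro w v
    obtain ⟨i, rfl⟩ := hv s
    obtain ⟨j, rfl⟩ := hv t
    show @Structure.RelMap L3 ℕ y 2 R3.eqv (fun k => @Term.realize L3 ℕ y _ (Sum.elim w v)
      (![vt (Term.var (Sum.inr i)), vt (Term.var (Sum.inr j))] k)) ↔ q (v i) = q (v j)
    rw [← h2]
    have e : (fun k => @Term.realize L3 ℕ y _ (Sum.elim w v)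
        (![vt (Term.var (Sum.inr i)), vt (Term.var (Sum.inr j))] k)) = ![v i, v j] := by
      funext k
      match k with
      | 0 => rfl
      | 1 => rfl
    rw [e]
    exact Iff.rfl
  | @rel m l R ts =>
    intro w v
    choose g hg using fun i => hv (ts i)
    have e1 : @BoundedFormula.Realize L2 ℕ S _ _ (BoundedFormula.rel R ts) w (q ∘ v) ↔
        @Structure.RelMap L2 ℕ S l R (fun i => q (v (g i))) := by
      show @Structure.RelMap L2 ℕ S l R (fun i => @Term.realize L2 ℕ S _ (Sum.elim w (q ∘ v))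
        (ts i)) ↔ _
      have e2 : (fun i => @Term.realize L2 ℕ S _ (Sum.elim w (q ∘ v)) (ts i)) =
          fun i => q (v (g i)) := by
        funext i
        rw [hg i]
        rfl
      rw [e2]
    have e3 : @BoundedFormula.Realize L3 ℕ y _ _ (t3 (BoundedFormula.rel R ts)) w v ↔
        @Structure.RelMap L3 ℕ y l (emb R) (fun i => v (g i)) := by
      show @Structure.RelMap L3 ℕ y l (emb R) (fun i => @Term.realize L3 ℕ y _ (Sum.elim w v)
        (vt (ts i))) ↔ _
      have e2 : (fun i => @Term.realize L3 ℕ y _ (Sum.elim w v) (vt (ts i))) =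
          fun i => v (g i) := by
        funext i
        rw [hg i]
        rfl
      rw [e2]
    rw [e1, e3]
    cases R with
    | fst =>
      rw [two_eta fun i => v (g i), two_eta fun i => q (v (g i))]
      exact h3 _ _
    | snd =>
      rw [two_eta fun i => v (g i), two_eta fun i => q (v (g i))]
      exact h4 _ _
  | imp φ ψ ih1 ih2 => exact fun w v => imp_congr (ih1 w v) (ih2 w v)
  | all φ ih =>
    intro w v
    have hs : ∀ u, q ∘ Fin.snoc v u = Fin.snoc (q ∘ v) (q u) := fun u => Fin.comp_snoc q v u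
    constructor
    · intro h u
      obtain ⟨u, rfl⟩ := h1 u
      have h5 := (ih w _).1 (h u)
      rw [hs] at h5
      exact h5
    · intro h u
      refine (ih w _).2 ?_
      rw [hs]
      exact h (q u)

theorem Bl.model {κ : ℕ∞} {y : L3.Structure ℕ} {S : L2.Structure ℕ} (h : Bl κ y S)
    (T : L2.Theory) : @Theory.Model L2 ℕ S T ↔
      ∀ φ ∈ T, @Sentence.Realize L3 ℕ y (t3 (φ : L2.BoundedFormula Empty 0)) := by
  obtain ⟨q, h1, h2, h3, h4, -⟩ := h
  rw [@Theory.model_iff L2 ℕ S T]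
  refine forall₂_congr fun φ _ => ?_
  have h5 : ∀ (w : Empty → ℕ) (v : Fin 0 → ℕ),
      (@BoundedFormula.Realize L3 ℕ y _ _ (t3 φ) w v ↔
        @BoundedFormula.Realize L2 ℕ S _ _ φ w v) := by
    intro w v
    have h6 := rz_t3 h1 h2 h3 h4 (φ : L2.BoundedFormula Empty 0) w v
    have e : q ∘ v = v := Subsingleton.elim _ _
    rw [e] at h6
    exact h6
  exact (h5 _ _).symm

end Pool.Agent.Q205.VC
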