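import Pool.Agent.Q205.VC.PolE

set_option autoImplicit false
set_option linter.unusedSectionVars false

/-!
# One relation symbol of arity at least two with both polarities: the transfer
-/

namespace Pool.Agent.Q205.VC

open Set FirstOrder FirstOrder.Language
open Pool.Agent.TH686.FO (L2 R2 g1 g2)
open Pool.Agent.TH686.DO (IW)
open Pool.Agent.W889.FO (VaughtF SIso siso_of iso_rel)

theorem L2_ext {S S' : L2.Structure ℕ} (h1 : ∀ u v, g1 S u v ↔ g1 S' u v)
    (h2 : ∀ u v, g2 S u v ↔ g2 S' u v) : S = S' := by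
  have hv : ∀ v : Fin 2 → ℕ, v = ![v 0, v 1] := by
    intro v
    funext i
    match i with
    | 0 => rfl
    | 1 => rfl
  apply Structure.ext
  · funext n f
    exact Empty.elim f
  · funext n R v
    cases R with
    | fst =>
      rw [hv v]
      exact propext (h1 _ _)
    | snd =>
      rw [hv v]
      exact propext (h2 _ _)

theorem L2_iso {S S' : L2.Structure ℕ} (σ : Equiv.Perm ℕ)
    (h1 : ∀ u v, g1 S' (σ u) (σ v) ↔ g1 S u v) (h2 : ∀ u v, g2 S' (σ u) (σ v) ↔ g2 S u v) :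
    SIso S S' := by
  have hv : ∀ v : Fin 2 → ℕ, v = ![v 0, v 1] := by
    intro v
    funext i
    match i with
    | 0 => rfl
    | 1 => rfl
  obtain ⟨e, -⟩ := siso_of (S := S) (S' := S') σ (fun n R v => by
    cases R with
    | fst =>
      rw [hv v, hv fun i => σ (![v 0, v 1] i)]
      exact h1 _ _
    | snd =>
      rw [hv v, hv fun i => σ (![v 0, v 1] i)]
      exact h2 _ _)
  exact ⟨e⟩

/-- the first entry -/
def u0 {n : ℕ} (t : Fin n → ℕ) : ℕ := if h : 0 < n then t ⟨0, h⟩ else 0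

/-- the second entry -/
def u1 {n : ℕ} (t : Fin n → ℕ) : ℕ := if h : 1 < n then t ⟨1, h⟩ else 0

section enc

variable {L : FirstOrder.Language.{0, 0}} [L.IsRelational] {k : ℕ} (Q : L.Relations k)
  (P : ∀ n, L.Relations n → Bool → Prop)

/-- the coded structure -/
@[reducible] def CC (S : L2.Structure ℕ) : L.Structure ℕ where
  funMap := fun {_} f => isEmptyElim f
  RelMap := fun {n} R t =>
    ((⟨n, R⟩ : Σ n, L.Relations n) = ⟨k, Q⟩ ∧ (g1 S (u0 t) (u1 t) ∨ g2 S (u0 t) (u1 t))) ∨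
    ((⟨n, R⟩ : Σ n, L.Relations n) ≠ ⟨k, Q⟩ ∧ P n R true)

theorem CC_Q (S : L2.Structure ℕ) (t : Fin k → ℕ) :
    (CC Q P S).RelMap Q t ↔ (g1 S (u0 t) (u1 t) ∨ g2 S (u0 t) (u1 t)) := by
  constructor
  · rintro (⟨-, h⟩ | ⟨h, -⟩)
    · exact h
    · exact absurd rfl h
  · exact fun h => Or.inl ⟨rfl, h⟩

theorem CC_R (S : L2.Structure ℕ) {n : ℕ} (R : L.Relations n) (t : Fin n → ℕ)
    (h : (⟨n, R⟩ : Σ n, L.Relations n) ≠ ⟨k, Q⟩) : (CC Q P S).RelMap R t ↔ P n R true := by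
  constructor
  · rintro (⟨h', -⟩ | ⟨-, h'⟩)
    · exact absurd h' h
    · exact h'
  · exact fun h' => Or.inr ⟨h, h'⟩

theorem qq_CC (hk : 2 ≤ k) (S : L2.Structure ℕ) (u w : ℕ) :
    qq Q (CC Q P S) u w ↔ (g1 S u w ∨ g2 S u w) := by
  unfold qq
  rw [CC_Q]
  have e0 : u0 (fun j : Fin k => if j.val = 0 then u else w) = u := by
    unfold u0
    rw [dif_pos (by omega : 0 < k)]
    rfl
  have e1 : u1 (fun j : Fin k => if j.val = 0 then u else w) = w := by
    unfold u1
    rw [dif_pos (by omega : 1 < k)]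
    rfl
  rw [e0, e1]

theorem asy {S : L2.Structure ℕ} (h : IW S) {u w : ℕ} (h1 : g1 S u w) : ¬ g1 S w u :=
  fun h2 => h.o.irrefl _ (h.o.trans _ _ _ h1 h2)

theorem qq_both (hk : 2 ≤ k) {S : L2.Structure ℕ} (h : IW S) (u w : ℕ) :
    (qq Q (CC Q P S) u w ∧ qq Q (CC Q P S) w u) ↔ g2 S u w := by
  rw [qq_CC Q P hk, qq_CC Q P hk]
  constructor
  · rintro ⟨h1 | h1, h2 | h2⟩
    · exact absurd h2 (asy h h1)
    · exact h.sy _ _ h2
    · exact h1
    · exact h1
  · exact fun h1 => ⟨Or.inr h1, Or.inr (h.sy _ _ h1)⟩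

theorem qq_one (hk : 2 ≤ k) {S : L2.Structure ℕ} (h : IW S) (u w : ℕ) :
    (qq Q (CC Q P S) u w ∧ ¬ qq Q (CC Q P S) w u) ↔ (g1 S u w ∧ ¬ g2 S u w) := by
  rw [qq_CC Q P hk, qq_CC Q P hk]
  constructor
  · rintro ⟨h1 | h1, h2⟩
    · exact ⟨h1, fun h3 => h2 (Or.inr (h.sy _ _ h3))⟩
    · exact absurd (Or.inr (h.sy _ _ h1)) h2
  · rintro ⟨h1, h2⟩
    refine ⟨Or.inl h1, ?_⟩
    rintro (h3 | h3)
    · exact asy h h1 h3
    · exact h2 (h.sy _ _ h3)

theorem FF_CC (hk : 2 ≤ k) {S : L2.Structure ℕ} (h : IW S) (u w : ℕ) :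
    FF Q (CC Q P S) u w ↔ g1 S u w := by
  unfold FF
  rw [qq_one Q P hk h, qq_both Q P hk h]
  constructor
  · rintro (h1 | ⟨-, z, h1, h2⟩)
    · exact h1.1
    · rw [qq_one Q P hk h] at h1 h2
      exact h.o.trans _ _ _ h1.1 h2.1
  · intro h1
    by_cases h2 : g2 S u w
    · right
      refine ⟨h2, ?_⟩
      obtain ⟨z, h3, h4⟩ := h.dn u w h1
      refine ⟨z, ?_, ?_⟩
      · rw [qq_one Q P hk h]
        refine ⟨h3, fun h5 => ?_⟩
        have := h.fn _ _ _ h2 h5
        subst this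
        exact h.o.irrefl _ h4
      · rw [qq_one Q P hk h]
        refine ⟨h4, fun h5 => ?_⟩
        have := h.fn _ _ _ (h.sy _ _ h2) (h.sy _ _ h5)
        subst this
        exact h.o.irrefl _ h3
    · exact Or.inl ⟨h1, h2⟩

theorem DD_CC (hk : 2 ≤ k) {S : L2.Structure ℕ} (h : IW S) : DD Q (CC Q P S) = S :=
  L2_ext (fun u v => FF_CC Q P hk h u v) (fun u v => qq_both Q P hk h u v)

/-- `Q` depends on the first two entries only -/
def axE (hk : 2 ≤ k) : L.BoundedFormula Empty 0 :=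
  (BoundedFormula.iff (.rel Q fun j => Term.var (Sum.inr j))
    (qf Q (Sum.inr ⟨0, by omega⟩) (Sum.inr ⟨1, by omega⟩)) : L.BoundedFormula Empty k).alls

open Classical in
/-- the other symbols are trivial -/
noncomputable def axR {n : ℕ} (R : L.Relations n) : L.BoundedFormula Empty 0 :=
  if P n R true then (BoundedFormula.rel R fun j => Term.var (Sum.inr j) :
    L.BoundedFormula Empty n).alls
  else (BoundedFormula.rel R fun j => Term.var (Sum.inr j) : L.BoundedFormula Empty n).not.alls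

/-- the coded theory -/
def TT (hk : 2 ≤ k) (T : L2.Theory) : L.Theory :=
  {σ | (∃ φ ∈ T, σ = tr Q φ) ∨ σ = axE Q hk ∨
    ∃ (n : ℕ) (R : L.Relations n), (⟨n, R⟩ : Σ n, L.Relations n) ≠ ⟨k, Q⟩ ∧ σ = axR P R}

theorem alw_TT (hk : 2 ≤ k) (h1 : P k Q true) (h2 : P k Q false)
    (hP : ∀ n (R : L.Relations n), P n R true ∨ P n R false) (T : L2.Theory) :
    ∀ σ ∈ TT Q P hk T, Alw P true (σ : L.BoundedFormula Empty 0) := by
  rintro σ (⟨φ, -, rfl⟩ | rfl | ⟨n, R, -, rfl⟩)
  · exact AlB.tr Q h1 h2 φ true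
  · have h3 : AlB P (.rel Q fun j => Term.var (Sum.inr j) : L.BoundedFormula Empty k) := by
      intro b
      cases b
      · exact h2
      · exact h1
    have h4 : AlB P (qf Q (Sum.inr ⟨0, by omega⟩) (Sum.inr ⟨1, by omega⟩) :
        L.BoundedFormula Empty k) := AlB.qf Q h1 h2 _ _
    exact alw_alls true _ (((h3.imp h4).inf (h4.imp h3)) true)
  · unfold axR
    split_ifs with h
    · exact alw_alls true _ h
    · exact alw_alls true _ ⟨(hP n R).resolve_left h, trivial⟩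

omit [L.IsRelational] in
theorem rz_alls (S : L.Structure ℕ) {n : ℕ} (φ : L.BoundedFormula Empty n) (w : Empty → ℕ)
    (v : Fin 0 → ℕ) : @BoundedFormula.Realize L ℕ S _ _ (φ.alls : L.BoundedFormula Empty 0) w v ↔
      ∀ xs, @BoundedFormula.Realize L ℕ S _ _ φ w xs := by
  let := S
  refine Iff.trans ?_ (BoundedFormula.realize_alls (φ := φ) (v := w))
  unfold Formula.Realize
  exact iff_of_eq (congrArg (fun z : Fin 0 → ℕ => BoundedFormula.Realize φ.alls w z)
    (Subsingleton.elim _ _))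

theorem rz_axE (hk : 2 ≤ k) (S : L.Structure ℕ) (w : Empty → ℕ) (v : Fin 0 → ℕ) :
    @BoundedFormula.Realize L ℕ S _ _ (axE Q hk) w v ↔
      ∀ t : Fin k → ℕ, S.RelMap Q t ↔ qq Q S (u0 t) (u1 t) := by
  let := S
  have e : ∀ t : Fin k → ℕ, u0 t = t ⟨0, by omega⟩ ∧ u1 t = t ⟨1, by omega⟩ := by
    intro t
    unfold u0 u1
    exact ⟨dif_pos (by omega : 0 < k), dif_pos (by omega : 1 < k)⟩
  refine (rz_alls S _ w v).trans ?_
  refine forall_congr' fun t => ?_
  rw [BoundedFormula.realize_iff, rz_qf]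
  show (S.RelMap Q t ↔ qq Q S (t ⟨0, _⟩) (t ⟨1, _⟩)) ↔ _
  rw [(e t).1, (e t).2]

theorem rz_axR {n : ℕ} (R : L.Relations n) (S : L.Structure ℕ) (w : Empty → ℕ) (v : Fin 0 → ℕ) :
    @BoundedFormula.Realize L ℕ S _ _ (axR P R) w v ↔
      ∀ t : Fin n → ℕ, S.RelMap R t ↔ P n R true := by
  let := S
  unfold axR
  split_ifs with h
  · refine (rz_alls S _ w v).trans (forall_congr' fun t => ?_)
    exact ⟨fun h1 => ⟨fun _ => h, fun _ => h1⟩, fun h1 => h1.2 h⟩
  · refine (rz_alls S _ w v).trans (forall_congr' fun t => ?_)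
    exact ⟨fun h1 => ⟨fun h2 => absurd h2 h1, fun h2 => absurd h2 h⟩, fun h1 h2 => h (h1.1 h2)⟩

theorem model_TT (hk : 2 ≤ k) (T : L2.Theory) (S : L.Structure ℕ) :
    @Theory.Model L ℕ S (TT Q P hk T) ↔ @Theory.Model L2 ℕ (DD Q S) T ∧
      (∀ t : Fin k → ℕ, S.RelMap Q t ↔ qq Q S (u0 t) (u1 t)) ∧
      ∀ n (R : L.Relations n), (⟨n, R⟩ : Σ n, L.Relations n) ≠ ⟨k, Q⟩ →
        ∀ t : Fin n → ℕ, S.RelMap R t ↔ P n R true := by
  rw [@Theory.model_iff L ℕ S (TT Q P hk T), @Theory.model_iff L2 ℕ (DD Q S) T]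
  constructor
  · intro h
    refine ⟨fun φ hφ => ?_, ?_, fun n R hR => ?_⟩
    · exact (rz_tr Q S φ _ _).1 (h _ (Or.inl ⟨φ, hφ, rfl⟩))
    · exact (rz_axE Q hk S _ _).1 (h _ (Or.inr (Or.inl rfl)))
    · exact (rz_axR P R S _ _).1 (h _ (Or.inr (Or.inr ⟨n, R, hR, rfl⟩)))
  · rintro ⟨h1, h2, h3⟩ σ (⟨φ, hφ, rfl⟩ | rfl | ⟨n, R, hR, rfl⟩)
    · exact (rz_tr Q S φ _ _).2 (h1 φ hφ)
    · exact (rz_axE Q hk S _ _).2 h2
    · exact (rz_axR P R S _ _).2 (h3 n R hR)

theorem CC_DD (hk : 2 ≤ k) {S : L.Structure ℕ} (hW : IW (DD Q S))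
    (h2 : ∀ t : Fin k → ℕ, S.RelMap Q t ↔ qq Q S (u0 t) (u1 t))
    (h3 : ∀ n (R : L.Relations n), (⟨n, R⟩ : Σ n, L.Relations n) ≠ ⟨k, Q⟩ →
        ∀ t : Fin n → ℕ, S.RelMap R t ↔ P n R true) : CC Q P (DD Q S) = S := by
  apply Structure.ext
  · funext n f
    exact isEmptyElim f
  · funext n R t
    apply propext
    by_cases h : (⟨n, R⟩ : Σ n, L.Relations n) = ⟨k, Q⟩
    · obtain ⟨rfl, h⟩ := Sigma.mk.inj h
      obtain rfl := eq_of_heq h
      refine (CC_Q R P (DD R S) t).trans ?_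
      rw [h2 t]
      constructor
      · rintro (h4 | h4)
        · have h5 : FF R S (u0 t) (u1 t) := h4
          rcases h5 with h5 | h5
          · exact h5.1
          · exact h5.1.1
        · exact h4.1
      · intro h4
        by_cases h5 : qq R S (u1 t) (u0 t)
        · exact Or.inr ⟨h4, h5⟩
        · exact Or.inl (Or.inl ⟨h4, h5⟩)
    · exact (CC_R Q P (DD Q S) R t h).trans (h3 n R h t).symm

theorem siso_DD {S S' : L.Structure ℕ} (h : SIso S S') : SIso (DD Q S) (DD Q S') := by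
  obtain ⟨e⟩ := h
  let σ : Equiv.Perm ℕ := @FirstOrder.Language.Equiv.toEquiv L ℕ ℕ S S' e
  have hq : ∀ u w, qq Q S' (σ u) (σ w) ↔ qq Q S u w := by
    intro u w
    have h1 := iso_rel e Q (fun j : Fin k => if j.val = 0 then u else w)
    unfold qq
    rw [← h1]
    have e1 : (fun j : Fin k => if j.val = 0 then σ u else σ w) =
        fun j : Fin k => σ (if j.val = 0 then u else w) := by
      funext j
      split_ifs <;> rfl
    rw [e1]
    exact Iff.rfl
  have hF : ∀ u w, FF Q S' (σ u) (σ w) ↔ FF Q S u w := by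
    intro u w
    unfold FF
    rw [σ.surjective.exists]
    simp only [hq]
  exact L2_iso σ (fun u v => hF u v) (fun u v => and_congr (hq u v) (hq v u))

theorem siso_CC {S S' : L2.Structure ℕ} (hk : 2 ≤ k) (h : SIso S S') :
    SIso (CC Q P S) (CC Q P S') := by
  obtain ⟨e⟩ := h
  let σ : Equiv.Perm ℕ := @FirstOrder.Language.Equiv.toEquiv L2 ℕ ℕ S S' e
  have h1 : ∀ u w, g1 S' (σ u) (σ w) ↔ g1 S u w := by
    intro u w
    have h1 := iso_rel e (show L2.Relations 2 from R2.fst) ![u, w]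
    have e1 : (fun i => e (![u, w] i)) = ![σ u, σ w] := by
      funext i
      match i with
      | 0 => rfl
      | 1 => rfl
    rw [e1] at h1
    exact h1
  have h2 : ∀ u w, g2 S' (σ u) (σ w) ↔ g2 S u w := by
    intro u w
    have h1 := iso_rel e (show L2.Relations 2 from R2.snd) ![u, w]
    have e1 : (fun i => e (![u, w] i)) = ![σ u, σ w] := by
      funext i
      match i with
      | 0 => rfl
      | 1 => rfl
    rw [e1] at h1
    exact h1
  obtain ⟨f, -⟩ := siso_of (S := CC Q P S) (S' := CC Q P S') σ (fun n R t => by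
    by_cases h : (⟨n, R⟩ : Σ n, L.Relations n) = ⟨k, Q⟩
    · obtain ⟨rfl, h⟩ := Sigma.mk.inj h
      obtain rfl := eq_of_heq h
      have e0 : u0 (fun i => σ (t i)) = σ (u0 t) := by
        unfold u0
        rw [dif_pos (by omega : 0 < n), dif_pos (by omega : 0 < n)]
      have e1 : u1 (fun i => σ (t i)) = σ (u1 t) := by
        unfold u1
        rw [dif_pos (by omega : 1 < n), dif_pos (by omega : 1 < n)]
      refine (CC_Q R P S' _).trans (Iff.trans ?_ (CC_Q R P S t).symm)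
      rw [e0, e1, h1, h2]
    · exact (CC_R Q P S' R _ h).trans (CC_R Q P S R t h).symm)
  exact ⟨f⟩

/-- **The equivalence.** -/
theorem full_of_pol (hk : 2 ≤ k) (h1 : P k Q true) (h2 : P k Q false)
    (hP : ∀ n (R : L.Relations n), P n R true ∨ P n R false)
    (hV : ∀ T : L.Theory, (∀ σ ∈ T, Alw P true (σ : L.BoundedFormula Empty 0)) → VaughtF L T)
    (L' : FirstOrder.Language.{0, 0}) (hL' : Countable L'.Symbols) (T' : L'.Theory) :
    VaughtF L' T' := by
  refine Pool.Agent.TH686.DO.full_inv (fun T _ hT => ?_) L' hL' T'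
  have hCC : ∀ S : L2.Structure ℕ, @Theory.Model L2 ℕ S T →
      @Theory.Model L ℕ (CC Q P S) (TT Q P hk T) := by
    intro S hS
    rw [model_TT]
    rw [DD_CC Q P hk (hT S hS)]
    refine ⟨hS, fun t => ?_, fun n R hR t => CC_R Q P S R t hR⟩
    exact (CC_Q Q P S t).trans (qq_CC Q P hk S _ _).symm
  rcases hV (TT Q P hk T) (alw_TT Q P hk h1 h2 hP T) with ⟨g, hg⟩ | ⟨f, hf1, hf2, hf3, -⟩
  · left
    refine ⟨fun n => DD Q (g n), fun S hS => ?_⟩
    obtain ⟨n, hn⟩ := hg _ (hCC S hS)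
    have h4 := siso_DD Q hn
    rw [DD_CC Q P hk (hT S hS)] at h4
    exact ⟨n, h4⟩
  · right
    have hm : ∀ x, @Theory.Model L2 ℕ (DD Q (f x)) T := fun x => ((model_TT Q P hk T _).1 (hf1 x)).1
    have hW : ∀ x, IW (DD Q (f x)) := fun x => hT _ (hm x)
    have hc : ∀ x, CC Q P (DD Q (f x)) = f x := by
      intro x
      obtain ⟨-, h4, h5⟩ := (model_TT Q P hk T _).1 (hf1 x)
      exact CC_DD Q P hk (hW x) h4 h5
    have hqc : ∀ u w, IsClopen {x | qq Q (f x) u w} := fun u w => hf3 k Q _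
    have hFo : ∀ u w, IsOpen {x | FF Q (f x) u w} := by
      intro u w
      have e : {x | FF Q (f x) u w} = ({x | qq Q (f x) u w} ∩ {x | qq Q (f x) w u}ᶜ) ∪
          (({x | qq Q (f x) u w} ∩ {x | qq Q (f x) w u}) ∩
            ⋃ z, ({x | qq Q (f x) u z} ∩ {x | qq Q (f x) z u}ᶜ) ∩
              ({x | qq Q (f x) z w} ∩ {x | qq Q (f x) w z}ᶜ)) := by
        ext x
        simp only [mem_union, mem_inter_iff, mem_iUnion, mem_compl_iff]
        rfl
      rw [e]
      refine (((hqc u w).inter (hqc w u).compl).isOpen).union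
        ((((hqc u w).inter (hqc w u)).isOpen).inter (isOpen_iUnion fun z => ?_))
      exact (((hqc u z).inter (hqc z u).compl).inter ((hqc z w).inter (hqc w z).compl)).isOpen
    refine ⟨fun x => DD Q (f x), hm, fun x y hxy => hf2 x y ?_, fun n R v => ?_,
      fun n F => Empty.elim F⟩
    · have h4 := siso_CC Q P hk hxy
      rw [hc, hc] at h4
      exact h4
    · cases R with
      | fst =>
        show IsClopen {x | FF Q (f x) (v 0) (v 1)}
        refine ⟨?_, hFo _ _⟩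
        rw [← isOpen_compl_iff]
        by_cases huv : v 0 = v 1
        · have e : {x | FF Q (f x) (v 0) (v 1)}ᶜ = univ := by
            ext x
            refine ⟨fun _ => trivial, fun _ h => ?_⟩
            have h' : FF Q (f x) (v 0) (v 1) := h
            rw [huv] at h'
            exact (hW x).o.irrefl (v 1) h'
          rw [e]
          exact isOpen_univ
        · have e : {x | FF Q (f x) (v 0) (v 1)}ᶜ = {x | FF Q (f x) (v 1) (v 0)} := by
            ext x
            constructor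
            · intro h
              exact ((hW x).o.total (v 0) (v 1) huv).resolve_left h
            · intro h h'
              exact (hW x).o.irrefl (v 0) ((hW x).o.trans _ (v 1) _ h' h)
          rw [e]
          exact hFo _ _
      | snd => exact (hqc _ _).inter (hqc _ _)

end enc

end Pool.Agent.Q205.VC
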