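import Pool.Agent.Q205.VC.EqI
import Pool.Agent.Q205.VC.PolF

set_option autoImplicit false
set_option linter.unusedSectionVars false

/-!
# Equality in one polarity gives the full conjecture: the axioms and the transfer
-/

namespace Pool.Agent.Q205.VC

open Set FirstOrder FirstOrder.Language
open Pool.Agent.TH686.FO (L2 R2 g1 g2)
open Pool.Agent.TH686.DO (IW)
open Pool.Agent.W889.FO (VaughtF SIso siso_of iso_rel)

/-! ### Formulas -/

/-- an atomic formula -/
def rl (R : R3 2) {n : ℕ} (i j : Fin n) : L3.BoundedFormula Empty n :=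
  .rel R ![Term.var (Sum.inr i), Term.var (Sum.inr j)]

/-- an equality -/
def eqq {n : ℕ} (i j : Fin n) : L3.BoundedFormula Empty n :=
  .equal (Term.var (Sum.inr i)) (Term.var (Sum.inr j))

/-- the negation -/
def ng {n : ℕ} (φ : L3.BoundedFormula Empty n) : L3.BoundedFormula Empty n := .imp φ .falsum

/-- the existential quantifier -/
def exi {n : ℕ} (φ : L3.BoundedFormula Empty (n + 1)) : L3.BoundedFormula Empty n :=
  ng (.all (ng φ))

/-- the conjunction of a list -/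
def cj {n : ℕ} : List (L3.BoundedFormula Empty n) → L3.BoundedFormula Empty n
  | [] => .imp .falsum .falsum
  | φ :: l => ng (.imp φ (ng (cj l)))

section rz

variable (y : L3.Structure ℕ) {n : ℕ} (w : Empty → ℕ) (v : Fin n → ℕ)

theorem rz_rl (R : R3 2) (i j : Fin n) :
    @BoundedFormula.Realize L3 ℕ y _ _ (rl R i j) w v ↔ b3 y R (v i) (v j) := by
  show @Structure.RelMap L3 ℕ y 2 R (fun k => @Term.realize L3 ℕ y _ (Sum.elim w v)
    (![Term.var (Sum.inr i), Term.var (Sum.inr j)] k)) ↔ _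
  have e : (fun k => @Term.realize L3 ℕ y _ (Sum.elim w v)
      (![Term.var (Sum.inr i), Term.var (Sum.inr j)] k)) = ![v i, v j] := by
    funext k
    match k with
    | 0 => rfl
    | 1 => rfl
  rw [e]
  exact Iff.rfl

theorem rz_eqq (i j : Fin n) :
    @BoundedFormula.Realize L3 ℕ y _ _ (eqq i j) w v ↔ v i = v j := Iff.rfl

theorem rz_ng (φ : L3.BoundedFormula Empty n) :
    @BoundedFormula.Realize L3 ℕ y _ _ (ng φ) w v ↔ ¬ @BoundedFormula.Realize L3 ℕ y _ _ φ w v :=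
  Iff.rfl

theorem rz_imp (φ ψ : L3.BoundedFormula Empty n) :
    @BoundedFormula.Realize L3 ℕ y _ _ (.imp φ ψ) w v ↔
      (@BoundedFormula.Realize L3 ℕ y _ _ φ w v → @BoundedFormula.Realize L3 ℕ y _ _ ψ w v) :=
  Iff.rfl

theorem rz_exi (φ : L3.BoundedFormula Empty (n + 1)) :
    @BoundedFormula.Realize L3 ℕ y _ _ (exi φ) w v ↔
      ∃ u, @BoundedFormula.Realize L3 ℕ y _ _ φ w (Fin.snoc v u) := by
  show (¬ ∀ u, ¬ @BoundedFormula.Realize L3 ℕ y _ _ φ w (Fin.snoc v u)) ↔ _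
  rw [not_forall_not]

theorem rz_cj (l : List (L3.BoundedFormula Empty n)) :
    @BoundedFormula.Realize L3 ℕ y _ _ (cj l) w v ↔
      ∀ φ ∈ l, @BoundedFormula.Realize L3 ℕ y _ _ φ w v := by
  induction l with
  | nil => exact ⟨fun _ φ h => absurd h (List.not_mem_nil), fun _ h => h⟩
  | cons φ l ih =>
    show (¬ (@BoundedFormula.Realize L3 ℕ y _ _ φ w v →
      ¬ @BoundedFormula.Realize L3 ℕ y _ _ (cj l) w v)) ↔ _
    rw [ih]
    simp only [List.mem_cons, forall_eq_or_imp]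
    tauto

end rz

section pol

variable {Q : Bool → Prop}

theorem eqPol_alls (b : Bool) : ∀ {n : ℕ} (φ : L3.BoundedFormula Empty n),
    EqPol Q b φ → EqPol Q b (φ.alls : L3.BoundedFormula Empty 0)
  | 0, _, h => h
  | _ + 1, φ, h => eqPol_alls b φ.all h

theorem eqPol_ng {n : ℕ} {b : Bool} {φ : L3.BoundedFormula Empty n} (h : EqPol Q (!b) φ) :
    EqPol Q b (ng φ) := ⟨h, trivial⟩

theorem eqPol_exi {n : ℕ} {b : Bool} {φ : L3.BoundedFormula Empty (n + 1)} (h : EqPol Q b φ) :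
    EqPol Q b (exi φ) := by
  refine eqPol_ng (show EqPol Q (!b) (.all (ng φ)) from eqPol_ng ?_)
  rw [Bool.not_not]
  exact h

theorem eqPol_cj {n : ℕ} {b : Bool} (l : List (L3.BoundedFormula Empty n))
    (h : ∀ φ ∈ l, EqPol Q b φ) : EqPol Q b (cj l) := by
  induction l with
  | nil => exact ⟨trivial, trivial⟩
  | cons φ l ih =>
    refine eqPol_ng ⟨?_, eqPol_ng ?_⟩
    · rw [Bool.not_not]
      exact h φ (List.mem_cons_self)
    · rw [Bool.not_not]
      exact ih fun ψ hψ => h ψ (List.mem_cons_of_mem _ hψ)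

theorem eqPol_mono {Q' : Bool → Prop} (hQ : ∀ b, Q b → Q' b) {L : FirstOrder.Language.{0, 0}}
    {m : ℕ} (φ : L.BoundedFormula Empty m) : ∀ b, EqPol Q b φ → EqPol Q' b φ := by
  induction φ with
  | falsum => exact fun _ _ => trivial
  | equal _ _ => exact fun b h => hQ b h
  | rel _ _ => exact fun _ _ => trivial
  | imp φ ψ ih1 ih2 => exact fun b h => ⟨ih1 _ h.1, ih2 _ h.2⟩
  | all φ ih => exact fun b h => ih b h

end pol

/-! ### The axioms -/

/-- reflexivity, symmetry, transitivity, congruence -/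
def aRef : L3.BoundedFormula Empty 0 := (rl R3.eqv 0 0 : L3.BoundedFormula Empty 1).alls

def aSym : L3.BoundedFormula Empty 0 :=
  (.imp (rl R3.eqv 0 1) (rl R3.eqv 1 0) : L3.BoundedFormula Empty 2).alls

def aTra : L3.BoundedFormula Empty 0 :=
  (.imp (rl R3.eqv 0 1) (.imp (rl R3.eqv 1 2) (rl R3.eqv 0 2)) : L3.BoundedFormula Empty 3).alls

def aCon (R : R3 2) : L3.BoundedFormula Empty 0 :=
  (.imp (rl R3.eqv 0 1) (.imp (rl R3.eqv 2 3) (.imp (rl R 0 2) (rl R 1 3))) :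
    L3.BoundedFormula Empty 4).alls

/-- more than `n` classes -/
def aInf (n : ℕ) : L3.BoundedFormula Empty 0 :=
  (exi (cj (List.ofFn fun i : Fin n => ng (rl R3.eqv i.castSucc (Fin.last n)))) :
    L3.BoundedFormula Empty n).alls

/-- classes with one element -/
def aOne : L3.BoundedFormula Empty 0 :=
  (.imp (rl R3.eqv 0 1) (eqq 0 1) : L3.BoundedFormula Empty 2).alls

/-- classes with more than `n + 1` elements -/
def aBig (n : ℕ) : L3.BoundedFormula Empty 0 :=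
  (exi (cj (rl R3.eqv 0 (Fin.last (n + 1)) ::
    List.ofFn fun i : Fin (n + 1) => ng (eqq i.castSucc (Fin.last (n + 1))))) :
    L3.BoundedFormula Empty (n + 1)).alls

/-- the theory -/
def T3 (pos : Bool) (T : L2.Theory) : L3.Theory :=
  {σ | (∃ φ ∈ T, σ = t3 φ) ∨ σ = aRef ∨ σ = aSym ∨ σ = aTra ∨ σ = aCon R3.fst ∨
    σ = aCon R3.snd ∨ (∃ n, σ = aInf n) ∨ (pos = true ∧ σ = aOne) ∨
    (pos = false ∧ ∃ n, σ = aBig n)}

theorem eqPol_T3 (pos : Bool) (T : L2.Theory) (Q : Bool → Prop) (hQ : Q pos) :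
    ∀ σ ∈ T3 pos T, EqPol Q true (σ : L3.BoundedFormula Empty 0) := by
  rintro σ (⟨φ, -, rfl⟩ | rfl | rfl | rfl | rfl | rfl | ⟨n, rfl⟩ | ⟨rfl, rfl⟩ | ⟨rfl, n, rfl⟩)
  · exact eqPol_t3 Q φ true
  · exact eqPol_alls true _ trivial
  · exact eqPol_alls true _ ⟨trivial, trivial⟩
  · exact eqPol_alls true _ ⟨trivial, trivial, trivial⟩
  · exact eqPol_alls true _ ⟨trivial, trivial, trivial, trivial⟩
  · exact eqPol_alls true _ ⟨trivial, trivial, trivial, trivial⟩
  · refine eqPol_alls true _ (eqPol_exi (eqPol_cj _ ?_))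
    intro φ hφ
    obtain ⟨i, rfl⟩ := (List.mem_ofFn' _ _).1 hφ
    exact ⟨trivial, trivial⟩
  · exact eqPol_alls true _ ⟨trivial, hQ⟩
  · refine eqPol_alls true _ (eqPol_exi (eqPol_cj _ ?_))
    intro φ hφ
    rcases List.mem_cons.1 hφ with rfl | hφ
    · trivial
    · obtain ⟨i, rfl⟩ := (List.mem_ofFn' _ _).1 hφ
      exact ⟨hQ, trivial⟩

/-- good structures -/
structure Gd (κ : ℕ∞) (y : L3.Structure ℕ) : Prop where
  ref : ∀ u, b3 y R3.eqv u u
  sym : ∀ u v, b3 y R3.eqv u v → b3 y R3.eqv v u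
  tra : ∀ u v w, b3 y R3.eqv u v → b3 y R3.eqv v w → b3 y R3.eqv u w
  con1 : ∀ u u' v v', b3 y R3.eqv u u' → b3 y R3.eqv v v' → b3 y R3.fst u v → b3 y R3.fst u' v'
  con2 : ∀ u u' v v', b3 y R3.eqv u u' → b3 y R3.eqv v v' → b3 y R3.snd u v → b3 y R3.snd u' v'
  inf : ∀ F : Finset ℕ, ∃ z, ∀ u ∈ F, ¬ b3 y R3.eqv u z
  siz : ∀ u, {v | b3 y R3.eqv u v}.encard = κ

/-- the size of the classes -/
def kp (pos : Bool) : ℕ∞ := if pos = true then 1 else ⊤

theorem rz_sen (y : L3.Structure ℕ) {n : ℕ} (φ : L3.BoundedFormula Empty n) :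
    @Sentence.Realize L3 ℕ y (φ.alls : L3.BoundedFormula Empty 0) ↔
      ∀ xs, @BoundedFormula.Realize L3 ℕ y _ _ φ (fun _ => 0) xs := by
  refine Iff.trans (iff_of_eq ?_) (rz_alls y φ (fun _ => 0) (fun _ => 0))
  exact congrArg₂ (fun (p : Empty → ℕ) (q : Fin 0 → ℕ) =>
    @BoundedFormula.Realize L3 ℕ y _ _ (φ.alls : L3.BoundedFormula Empty 0) p q)
    (Subsingleton.elim _ _) (Subsingleton.elim _ _)

theorem rz_aInf (y : L3.Structure ℕ) : (∀ n, @Sentence.Realize L3 ℕ y (aInf n)) ↔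
    ∀ F : Finset ℕ, ∃ z, ∀ u ∈ F, ¬ b3 y R3.eqv u z := by
  have key : ∀ n, @Sentence.Realize L3 ℕ y (aInf n) ↔
      ∀ xs : Fin n → ℕ, ∃ z, ∀ i, ¬ b3 y R3.eqv (xs i) z := by
    intro n
    refine (rz_sen y _).trans (forall_congr' fun xs => ?_)
    rw [rz_exi]
    refine exists_congr fun z => ?_
    rw [rz_cj]
    constructor
    · intro h i
      have h1 := h _ ((List.mem_ofFn' _ _).2 ⟨i, rfl⟩)
      rw [rz_ng, rz_rl, Fin.snoc_castSucc, Fin.snoc_last] at h1
      exact h1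
    · intro h φ hφ
      obtain ⟨i, rfl⟩ := (List.mem_ofFn' _ _).1 hφ
      rw [rz_ng, rz_rl, Fin.snoc_castSucc, Fin.snoc_last]
      exact h i
  constructor
  · intro h F
    obtain ⟨z, hz⟩ := (key F.card).1 (h _) (fun i => (F.equivFin.symm i : ℕ))
    refine ⟨z, fun u hu => ?_⟩
    have h1 := hz (F.equivFin ⟨u, hu⟩)
    rw [Equiv.symm_apply_apply] at h1
    exact h1
  · intro h n
    rw [key]
    intro xs
    obtain ⟨z, hz⟩ := h (Finset.univ.image xs)
    exact ⟨z, fun i => hz _ (Finset.mem_image_of_mem _ (Finset.mem_univ i))⟩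

theorem rz_aBig (y : L3.Structure ℕ) : (∀ n, @Sentence.Realize L3 ℕ y (aBig n)) ↔
    ∀ u, {v | b3 y R3.eqv u v}.encard = ⊤ := by
  have key : ∀ n, @Sentence.Realize L3 ℕ y (aBig n) ↔
      ∀ xs : Fin (n + 1) → ℕ, ∃ z, b3 y R3.eqv (xs 0) z ∧ ∀ i, xs i ≠ z := by
    intro n
    refine (rz_sen y _).trans (forall_congr' fun xs => ?_)
    rw [rz_exi]
    refine exists_congr fun z => ?_
    rw [rz_cj]
    have h0 : (Fin.snoc xs z : Fin (n + 1 + 1) → ℕ) 0 = xs 0 := Fin.snoc_castSucc (i := 0) ..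
    constructor
    · intro h
      refine ⟨?_, fun i => ?_⟩
      · have h1 := h _ (List.mem_cons_self)
        rw [rz_rl, Fin.snoc_last] at h1
        rw [← h0]
        exact h1
      · have h1 := h _ (List.mem_cons_of_mem _ ((List.mem_ofFn' _ _).2 ⟨i, rfl⟩))
        rw [rz_ng, rz_eqq, Fin.snoc_castSucc, Fin.snoc_last] at h1
        exact h1
    · rintro ⟨h1, h2⟩ φ hφ
      rcases List.mem_cons.1 hφ with rfl | hφ
      · rw [rz_rl, Fin.snoc_last, h0]
        exact h1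
      · obtain ⟨i, rfl⟩ := (List.mem_ofFn' _ _).1 hφ
        rw [rz_ng, rz_eqq, Fin.snoc_castSucc, Fin.snoc_last]
        exact h2 i
  constructor
  · intro h u
    rw [encard_eq_top_iff]
    intro hf
    obtain ⟨z, hz1, hz2⟩ := (key hf.toFinset.card).1 (h _)
      (Fin.cons u fun i => (hf.toFinset.equivFin.symm i : ℕ))
    have hz1' : b3 y R3.eqv u z := hz1
    have hz : z ∈ hf.toFinset := hf.mem_toFinset.2 hz1'
    have h1 := hz2 (Fin.succ (hf.toFinset.equivFin ⟨z, hz⟩))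
    rw [Fin.cons_succ, Equiv.symm_apply_apply] at h1
    exact h1 rfl
  · intro h n
    rw [key]
    intro xs
    have h1 : {v | b3 y R3.eqv (xs 0) v}.Infinite := encard_eq_top_iff.1 (h (xs 0))
    obtain ⟨z, hz, hz'⟩ := h1.exists_notMem_finset (Finset.univ.image xs)
    exact ⟨z, hz, fun i hi => hz' (Finset.mem_image.2 ⟨i, Finset.mem_univ _, hi⟩)⟩

theorem rz_aOne (y : L3.Structure ℕ) (href : ∀ u, b3 y R3.eqv u u) :
    @Sentence.Realize L3 ℕ y aOne ↔ ∀ u, {v | b3 y R3.eqv u v}.encard = 1 := by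
  have key : @Sentence.Realize L3 ℕ y aOne ↔ ∀ u v, b3 y R3.eqv u v → u = v := by
    refine (rz_sen y _).trans ?_
    constructor
    · intro h u v huv
      have h1 := h ![u, v]
      rw [rz_imp, rz_rl, rz_eqq] at h1
      exact h1 huv
    · intro h xs
      rw [rz_imp, rz_rl, rz_eqq]
      exact h _ _
  rw [key]
  constructor
  · intro h u
    rw [encard_eq_one]
    refine ⟨u, ?_⟩
    ext v
    constructor
    · intro hv
      exact (h u v hv).symm
    · rintro rfl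
      exact href v
  · intro h u v huv
    obtain ⟨z, hz⟩ := encard_eq_one.1 (h u)
    have h1 : u ∈ {v | b3 y R3.eqv u v} := href u
    have h2 : v ∈ {v | b3 y R3.eqv u v} := huv
    rw [hz] at h1 h2
    exact h1.trans h2.symm

theorem model_T3 (pos : Bool) (T : L2.Theory) (y : L3.Structure ℕ) :
    @Theory.Model L3 ℕ y (T3 pos T) ↔ Gd (kp pos) y ∧
      ∀ φ ∈ T, @Sentence.Realize L3 ℕ y (t3 (φ : L2.BoundedFormula Empty 0)) := by
  rw [@Theory.model_iff L3 ℕ y (T3 pos T)]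
  constructor
  · intro h
    have href : ∀ u, b3 y R3.eqv u u := by
      intro u
      have h1 := (rz_sen y _).1 (h aRef (Or.inr (Or.inl rfl))) ![u]
      rw [rz_rl] at h1
      exact h1
    refine ⟨⟨href, fun u v huv => ?_, fun u v w huv hvw => ?_, fun u u' v v' h1 h2 h3 => ?_,
      fun u u' v v' h1 h2 h3 => ?_, ?_, ?_⟩, fun φ hφ => h _ (Or.inl ⟨φ, hφ, rfl⟩)⟩
    · have h1 := (rz_sen y _).1 (h aSym (Or.inr (Or.inr (Or.inl rfl)))) ![u, v]
      rw [rz_imp, rz_rl, rz_rl] at h1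
      exact h1 huv
    · have h1 := (rz_sen y _).1 (h aTra (Or.inr (Or.inr (Or.inr (Or.inl rfl))))) ![u, v, w]
      rw [rz_imp, rz_imp, rz_rl, rz_rl, rz_rl] at h1
      exact h1 huv hvw
    · have h4 := (rz_sen y _).1 (h (aCon R3.fst) (Or.inr (Or.inr (Or.inr (Or.inr (Or.inl rfl))))))
        ![u, u', v, v']
      rw [rz_imp, rz_imp, rz_imp, rz_rl, rz_rl, rz_rl, rz_rl] at h4
      exact h4 h1 h2 h3
    · have h4 := (rz_sen y _).1 (h (aCon R3.snd)
        (Or.inr (Or.inr (Or.inr (Or.inr (Or.inr (Or.inl rfl))))))) ![u, u', v, v']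
      rw [rz_imp, rz_imp, rz_imp, rz_rl, rz_rl, rz_rl, rz_rl] at h4
      exact h4 h1 h2 h3
    · exact (rz_aInf y).1 fun n => h _
        (Or.inr (Or.inr (Or.inr (Or.inr (Or.inr (Or.inr (Or.inl ⟨n, rfl⟩)))))))
    · cases pos with
      | true =>
        show ∀ u, {v | b3 y R3.eqv u v}.encard = 1
        exact (rz_aOne y href).1 (h _ (Or.inr (Or.inr (Or.inr (Or.inr (Or.inr (Or.inr
          (Or.inr (Or.inl ⟨rfl, rfl⟩)))))))))
      | false =>
        show ∀ u, {v | b3 y R3.eqv u v}.encard = ⊤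
        exact (rz_aBig y).1 fun n => h _ (Or.inr (Or.inr (Or.inr (Or.inr (Or.inr (Or.inr
          (Or.inr (Or.inr ⟨rfl, n, rfl⟩))))))))
  · rintro ⟨hG, hT⟩ σ (⟨φ, hφ, rfl⟩ | rfl | rfl | rfl | rfl | rfl | ⟨n, rfl⟩ | ⟨rfl, rfl⟩ |
      ⟨rfl, n, rfl⟩)
    · exact hT φ hφ
    · refine (rz_sen y _).2 fun xs => ?_
      rw [rz_rl]
      exact hG.ref _
    · refine (rz_sen y _).2 fun xs => ?_
      rw [rz_imp, rz_rl, rz_rl]
      exact hG.sym _ _
    · refine (rz_sen y _).2 fun xs => ?_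
      rw [rz_imp, rz_imp, rz_rl, rz_rl, rz_rl]
      exact hG.tra _ _ _
    · refine (rz_sen y _).2 fun xs => ?_
      rw [rz_imp, rz_imp, rz_imp, rz_rl, rz_rl, rz_rl, rz_rl]
      exact hG.con1 _ _ _ _
    · refine (rz_sen y _).2 fun xs => ?_
      rw [rz_imp, rz_imp, rz_imp, rz_rl, rz_rl, rz_rl, rz_rl]
      exact hG.con2 _ _ _ _
    · exact (rz_aInf y).2 hG.inf n
    · exact (rz_aOne y hG.ref).2 hG.siz
    · exact (rz_aBig y).2 hG.siz n

end Pool.Agent.Q205.VC
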