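import Pool.Agent.Q205.VC.EqJ

set_option autoImplicit false
set_option linter.unusedSectionVars false

/-!
# Equality in one polarity gives the full conjecture: the end of the proof
-/

namespace Pool.Agent.Q205.VC

open Set FirstOrder FirstOrder.Language
open Pool.Agent.TH686.FO (L2 R2 g1 g2)
open Pool.Agent.TH686.DO (IW)
open Pool.Agent.W889.FO (VaughtF SIso siso_of iso_rel)

/-- the blow-up along `q` -/
@[reducible] def mk3 (q : ℕ → ℕ) (S : L2.Structure ℕ) : L3.Structure ℕ where
  funMap := fun {_} f => Empty.elim f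
  RelMap := fun {n} R => match n, R with
    | _, R3.fst => fun v => g1 S (q (v 0)) (q (v 1))
    | _, R3.snd => fun v => g2 S (q (v 0)) (q (v 1))
    | _, R3.eqv => fun v => q (v 0) = q (v 1)

theorem bl_mk3 {κ : ℕ∞} {q : ℕ → ℕ} (hq : Function.Surjective q)
    (hκ : ∀ n, {u | q u = n}.encard = κ) (S : L2.Structure ℕ) : Bl κ (mk3 q S) S :=
  ⟨q, hq, fun _ _ => Iff.rfl, fun _ _ => Iff.rfl, fun _ _ => Iff.rfl, hκ⟩

theorem exists_q (pos : Bool) : ∃ q : ℕ → ℕ, Function.Surjective q ∧
    ∀ n, {u | q u = n}.encard = kp pos := by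
  cases pos with
  | true =>
    refine ⟨id, Function.surjective_id, fun n => ?_⟩
    show {u | u = n}.encard = 1
    exact encard_eq_one.2 ⟨n, rfl⟩
  | false =>
    refine ⟨fun u => (Nat.unpair u).1, fun n => ⟨Nat.pair n 0, ?_⟩, fun n => ?_⟩
    · show (Nat.unpair (Nat.pair n 0)).1 = n
      rw [Nat.unpair_pair]
    · show {u | (Nat.unpair u).1 = n}.encard = ⊤
      rw [encard_eq_top_iff]
      refine Set.infinite_of_injective_forall_mem (f := fun l => Nat.pair n l) ?_ ?_
      · intro l l' h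
        exact (Nat.pair_eq_pair.1 h).2
      · intro l
        show (Nat.unpair (Nat.pair n l)).1 = n
        rw [Nat.unpair_pair]

theorem Bl.gd {κ : ℕ∞} {y : L3.Structure ℕ} {S : L2.Structure ℕ} (h : Bl κ y S) : Gd κ y := by
  obtain ⟨q, h1, h2, h3, h4, h5⟩ := h
  refine ⟨fun u => ?_, fun u v => ?_, fun u v w => ?_, fun u u' v v' => ?_, fun u u' v v' => ?_,
    fun F => ?_, fun u => ?_⟩
  · rw [h2]
  · rw [h2, h2]
    exact Eq.symm
  · rw [h2, h2, h2]
    exact Eq.trans
  · rw [h2, h2, h3, h3]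
    intro k1 k2
    rw [k1, k2]
    exact id
  · rw [h2, h2, h4, h4]
    intro k1 k2
    rw [k1, k2]
    exact id
  · obtain ⟨n, hn⟩ := Infinite.exists_notMem_finset (F.image q)
    obtain ⟨z, rfl⟩ := h1 n
    refine ⟨z, fun u hu h => hn ?_⟩
    rw [← (h2 u z).1 h]
    exact Finset.mem_image_of_mem _ hu
  · have e : {v | b3 y R3.eqv u v} = {v | q v = q u} := by
      ext v
      show b3 y R3.eqv u v ↔ _
      rw [h2]
      exact eq_comm
    rw [e]
    exact h5 _

/-! ### Representatives -/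

/-- least in its class -/
def Lst (y : L3.Structure ℕ) (u : ℕ) : Prop := ∀ v < u, ¬ b3 y R3.eqv v u

/-- the representatives -/
noncomputable def rr (y : L3.Structure ℕ) (n : ℕ) : ℕ := Nat.nth (Lst y) n

/-- the quotient -/
@[reducible] noncomputable def qt (y : L3.Structure ℕ) : L2.Structure ℕ where
  funMap := fun {_} f => Empty.elim f
  RelMap := fun {n} R => match n, R with
    | _, R2.fst => fun v => b3 y R3.fst (rr y (v 0)) (rr y (v 1))
    | _, R2.snd => fun v => b3 y R3.snd (rr y (v 0)) (rr y (v 1))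

theorem exists_lst {κ : ℕ∞} {y : L3.Structure ℕ} (h : Gd κ y) (u : ℕ) :
    ∃ m, Lst y m ∧ b3 y R3.eqv m u := by
  classical
  have hex : ∃ m, b3 y R3.eqv m u := ⟨u, h.ref u⟩
  refine ⟨Nat.find hex, fun v hv hvm => ?_, Nat.find_spec hex⟩
  exact Nat.find_min hex hv (h.tra _ _ _ hvm (Nat.find_spec hex))

theorem lst_inf {κ : ℕ∞} {y : L3.Structure ℕ} (h : Gd κ y) : (Set.ofPred (Lst y)).Infinite := by
  intro hf
  obtain ⟨z, hz⟩ := h.inf hf.toFinset
  obtain ⟨m, hm, hmz⟩ := exists_lst h z
  exact hz m (hf.mem_toFinset.2 hm) hmz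

open Classical in
theorem bl_qt {κ : ℕ∞} {y : L3.Structure ℕ} (h : Gd κ y) : Bl κ y (qt y) := by
  have hinf := lst_inf h
  choose m hm1 hm2 using exists_lst h
  have huniq : ∀ u v, Lst y u → Lst y v → b3 y R3.eqv u v → u = v := by
    intro u v hu hv huv
    rcases lt_trichotomy u v with h1 | h1 | h1
    · exact absurd huv (hv u h1)
    · exact h1
    · exact absurd (h.sym _ _ huv) (hu v h1)
  have hmm : ∀ u v, b3 y R3.eqv u v → m u = m v := fun u v huv =>
    huniq _ _ (hm1 u) (hm1 v) (h.tra _ _ _ (h.tra _ _ _ (hm2 u) huv) (h.sym _ _ (hm2 v)))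
  let q : ℕ → ℕ := fun u => Nat.count (Lst y) (m u)
  have hrq : ∀ u, rr y (q u) = m u := fun u => Nat.nth_count (hm1 u)
  have hqr : ∀ n, q (rr y n) = n := by
    intro n
    have h1 : Lst y (rr y n) := Nat.nth_mem_of_infinite hinf n
    have h2 : m (rr y n) = rr y n := huniq _ _ (hm1 _) h1 (hm2 _)
    show Nat.count (Lst y) (m (rr y n)) = n
    rw [h2]
    exact Nat.count_nth_of_infinite hinf n
  have hk : ∀ u v, b3 y R3.eqv u v ↔ q u = q v := by
    intro u v
    constructor
    · intro huv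
      show Nat.count (Lst y) (m u) = Nat.count (Lst y) (m v)
      rw [hmm u v huv]
    · intro huv
      have h1 : m u = m v := by rw [← hrq, ← hrq, huv]
      have h2 := hm2 u
      rw [h1] at h2
      exact h.tra _ _ _ (h.sym _ _ h2) (hm2 v)
  have hru : ∀ u, b3 y R3.eqv (rr y (q u)) u := by
    intro u
    rw [hrq]
    exact hm2 u
  refine ⟨q, fun n => ⟨rr y n, hqr n⟩, hk, fun u v => ?_, fun u v => ?_, fun n => ?_⟩
  · show _ ↔ b3 y R3.fst (rr y (q u)) (rr y (q v))
    exact ⟨fun h1 => h.con1 _ _ _ _ (h.sym _ _ (hru u)) (h.sym _ _ (hru v)) h1,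
      fun h1 => h.con1 _ _ _ _ (hru u) (hru v) h1⟩
  · show _ ↔ b3 y R3.snd (rr y (q u)) (rr y (q v))
    exact ⟨fun h1 => h.con2 _ _ _ _ (h.sym _ _ (hru u)) (h.sym _ _ (hru v)) h1,
      fun h1 => h.con2 _ _ _ _ (hru u) (hru v) h1⟩
  · have e : {u | q u = n} = {v | b3 y R3.eqv (rr y n) v} := by
      ext v
      show q v = n ↔ b3 y R3.eqv (rr y n) v
      rw [hk, hqr]
      exact eq_comm
    rw [e]
    exact h.siz _

/-! ### Continuity -/

section cont

variable {g : (ℕ → Bool) → L3.Structure ℕ}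

theorem clopen_lst (hg : ∀ R u v, IsClopen {c | b3 (g c) R u v}) (u : ℕ) :
    IsClopen {c | Lst (g c) u} := by
  have e : {c | Lst (g c) u} = ⋂ v ∈ Finset.range u, {c | b3 (g c) R3.eqv v u}ᶜ := by
    ext c
    simp only [mem_iInter, Finset.mem_range]
    rfl
  rw [e]
  exact isClopen_biInter_finset fun v _ => (hg _ _ _).compl

open Classical in
theorem cont_count (hg : ∀ R u v, IsClopen {c | b3 (g c) R u v}) (u : ℕ) :
    Continuous fun c => Nat.count (Lst (g c)) u := by
  induction u with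
  | zero =>
    simp only [Nat.count_zero]
    exact continuous_const
  | succ u ih =>
    simp only [Nat.count_succ]
    refine ih.add ?_
    have h1 : Continuous fun c => decide (Lst (g c) u) := by
      rw [continuous_bool_rng true]
      have e : (fun c => decide (Lst (g c) u)) ⁻¹' {true} = {c | Lst (g c) u} := by
        ext c
        exact decide_eq_true_iff
      rw [e]
      exact clopen_lst hg u
    have h2 : (fun c => if Lst (g c) u then 1 else 0) =
        (fun b : Bool => if b = true then 1 else 0) ∘ fun c => decide (Lst (g c) u) := by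
      funext c
      by_cases h : Lst (g c) u
      · show (if Lst (g c) u then 1 else 0) = if decide (Lst (g c) u) = true then 1 else 0
        rw [if_pos h, if_pos (decide_eq_true h)]
      · show (if Lst (g c) u then 1 else 0) = if decide (Lst (g c) u) = true then 1 else 0
        rw [if_neg h, if_neg (by rw [decide_eq_true_iff]; exact h)]
    rw [h2]
    exact continuous_of_discreteTopology.comp h1

open Classical in
theorem open_rr {κ : ℕ∞} (hG : ∀ c, Gd κ (g c)) (hg : ∀ R u v, IsClopen {c | b3 (g c) R u v})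
    (n u : ℕ) : IsOpen {c | rr (g c) n = u} := by
  have e : {c | rr (g c) n = u} = {c | Lst (g c) u} ∩ {c | Nat.count (Lst (g c)) u = n} := by
    ext c
    constructor
    · rintro rfl
      exact ⟨Nat.nth_mem_of_infinite (lst_inf (hG c)) n,
        Nat.count_nth_of_infinite (lst_inf (hG c)) n⟩
    · rintro ⟨h1, h2⟩
      have h2' : Nat.count (Lst (g c)) u = n := h2
      show Nat.nth (Lst (g c)) n = u
      rw [← h2']
      exact Nat.nth_count h1
  rw [e]
  exact (clopen_lst hg u).isOpen.inter ((isOpen_discrete {n}).preimage (cont_count hg u))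

theorem clopen_rr {κ : ℕ∞} (hG : ∀ c, Gd κ (g c)) (hg : ∀ R u v, IsClopen {c | b3 (g c) R u v})
    (R : R3 2) (n n' : ℕ) : IsClopen {c | b3 (g c) R (rr (g c) n) (rr (g c) n')} := by
  constructor
  · rw [← isOpen_compl_iff]
    have e : {c | b3 (g c) R (rr (g c) n) (rr (g c) n')}ᶜ = ⋃ (u : ℕ) (v : ℕ),
        ({c | rr (g c) n = u} ∩ {c | rr (g c) n' = v}) ∩ {c | b3 (g c) R u v}ᶜ := by
      ext c
      simp only [mem_iUnion]
      constructor
      · intro h
        exact ⟨_, _, ⟨rfl, rfl⟩, h⟩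
      · rintro ⟨_, _, ⟨rfl, rfl⟩, h⟩
        exact h
    rw [e]
    exact isOpen_iUnion fun u => isOpen_iUnion fun v => ((open_rr hG hg n u).inter
      (open_rr hG hg n' v)).inter (hg R u v).compl.isOpen
  · have e : {c | b3 (g c) R (rr (g c) n) (rr (g c) n')} = ⋃ (u : ℕ) (v : ℕ),
        ({c | rr (g c) n = u} ∩ {c | rr (g c) n' = v}) ∩ {c | b3 (g c) R u v} := by
      ext c
      simp only [mem_iUnion]
      constructor
      · intro h
        exact ⟨_, _, ⟨rfl, rfl⟩, h⟩
      · rintro ⟨_, _, ⟨rfl, rfl⟩, h⟩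
        exact h
    rw [e]
    exact isOpen_iUnion fun u => isOpen_iUnion fun v => ((open_rr hG hg n u).inter
      (open_rr hG hg n' v)).inter (hg R u v).isOpen

end cont

theorem countable_L3 : Countable L3.Symbols := by
  have h1 : Countable (Σ n, L3.Relations n) := by
    have hinj : Function.Injective (fun r : (Σ n, L3.Relations n) => match r with
      | ⟨_, R3.fst⟩ => 0
      | ⟨_, R3.snd⟩ => 1
      | ⟨_, R3.eqv⟩ => 2) := by
      rintro ⟨n, R⟩ ⟨n', R'⟩ h
      cases R <;> cases R' <;> first | rfl | (exact absurd h (by decide))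
    exact hinj.countable
  have h2 : Countable (Σ n, L3.Functions n) := by
    refine @Finite.to_countable _ (@Finite.of_subsingleton _ ⟨?_⟩)
    rintro ⟨n, f⟩
    exact Empty.elim f
  exact inferInstanceAs (Countable ((Σ n, L3.Functions n) ⊕ Σ n, L3.Relations n))

/-- **Theorem.** Equality in one polarity gives the full conjecture. -/
theorem full_of_eq (pos : Bool) (Q : Bool → Prop) (hQ : Q pos)
    (hV : ∀ T : L3.Theory, (∀ σ ∈ T, EqPol Q true (σ : L3.BoundedFormula Empty 0)) → VaughtF L3 T)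
    (L' : FirstOrder.Language.{0, 0}) (hL' : Countable L'.Symbols) (T' : L'.Theory) :
    VaughtF L' T' := by
  refine Pool.Agent.TH686.DO.full_inv (fun T _ _ => ?_) L' hL' T'
  obtain ⟨q, hq1, hq2⟩ := exists_q pos
  have hmk : ∀ S : L2.Structure ℕ, @Theory.Model L2 ℕ S T →
      @Theory.Model L3 ℕ (mk3 q S) (T3 pos T) := by
    intro S hS
    have h1 := bl_mk3 hq1 hq2 S
    exact (model_T3 pos T _).2 ⟨h1.gd, (h1.model T).1 hS⟩
  rcases hV (T3 pos T) (eqPol_T3 pos T Q hQ) with ⟨g, hg⟩ | ⟨f, hf1, hf2, hf3, -⟩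
  · left
    refine ⟨fun n => qt (g n), fun S hS => ?_⟩
    obtain ⟨n, hn⟩ := hg _ (hmk S hS)
    refine ⟨n, ?_⟩
    have hn' : SIso (mk3 q S) (g n) := hn
    have h1 := bl_mk3 hq1 hq2 S
    have h2 : Gd (kp pos) (g n) := by
      have h3 : @Theory.Model L3 ℕ (g n) (T3 pos T) := by
        obtain ⟨e⟩ := hn'
        let := mk3 q S
        exact @StrongHomClass.theory_model L3 ℕ ℕ (mk3 q S) (g n) (T3 pos T) _ _ _ e (hmk S hS)
      exact ((model_T3 pos T _).1 h3).1
    exact h1.down (bl_qt h2) hn'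
  · right
    have hG : ∀ x, Gd (kp pos) (f x) := fun x => ((model_T3 pos T _).1 (hf1 x)).1
    have hB : ∀ x, Bl (kp pos) (f x) (qt (f x)) := fun x => bl_qt (hG x)
    have hcl : ∀ R u v, IsClopen {x | b3 (f x) R u v} := fun R u v => hf3 2 R ![u, v]
    refine ⟨fun x => qt (f x), fun x => ?_, fun x y hxy => hf2 x y ((hB x).up (hB y) hxy),
      fun n R v => ?_, fun n F => Empty.elim F⟩
    · exact ((hB x).model T).2 ((model_T3 pos T _).1 (hf1 x)).2
    · cases R with
      | fst => exact clopen_rr hG hcl R3.fst (v 0) (v 1)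
      | snd => exact clopen_rr hG hcl R3.snd (v 0) (v 1)

end Pool.Agent.Q205.VC
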