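import Pool.Agent.Q205.VC.Mon

set_option autoImplicit false

/-!
# Theories with restricted polarities of the occurrences of the relation symbols
-/

namespace Pool.Agent.Q205.VC

open Set MeasureTheory FirstOrder FirstOrder.Language

variable {L : FirstOrder.Language.{0, 0}}

/-- Every occurrence of a relation symbol in `φ` has an allowed polarity, if `φ` itself is counted
with polarity `b`. -/
def Alw (P : ∀ n, L.Relations n → Bool → Prop) :
    ∀ {m : ℕ}, Bool → L.BoundedFormula Empty m → Prop
  | _, _, .falsum => True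
  | _, _, .equal _ _ => True
  | _, b, .rel (l := l) R _ => P l R b
  | _, b, .imp φ ψ => Alw P (!b) φ ∧ Alw P b ψ
  | _, b, .all φ => Alw P b φ

theorem alw_imp (P : ∀ n, L.Relations n → Bool → Prop) [L.IsRelational] (S S' : L.Structure ℕ)
    (h1 : ∀ n (R : L.Relations n) t, P n R true → S.RelMap R t → S'.RelMap R t)
    (h2 : ∀ n (R : L.Relations n) t, P n R false → S'.RelMap R t → S.RelMap R t)
    {m : ℕ} (φ : L.BoundedFormula Empty m) : ∀ (b : Bool) (w : Empty → ℕ) (v : Fin m → ℕ),
    Alw P b φ →
    (b = true → @BoundedFormula.Realize L ℕ S _ _ φ w v → @BoundedFormula.Realize L ℕ S' _ _ φ w v) ∧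
    (b = false → @BoundedFormula.Realize L ℕ S' _ _ φ w v →
      @BoundedFormula.Realize L ℕ S _ _ φ w v) := by
  have hv : ∀ {m} (t : L.Term (Empty ⊕ Fin m)), ∃ i, t = Term.var i := by
    intro m t
    cases t with
    | var i => exact ⟨i, rfl⟩
    | func f _ => exact isEmptyElim f
  have ht : ∀ {m} (t : L.Term (Empty ⊕ Fin m)) (u : Empty ⊕ Fin m → ℕ),
      @Term.realize L ℕ S _ u t = @Term.realize L ℕ S' _ u t := by
    intro m t u
    obtain ⟨i, rfl⟩ := hv t
    rfl
  induction φ with
  | falsum => exact fun b w v _ => ⟨fun _ h => h, fun _ h => h⟩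
  | equal t1 t2 =>
    intro b w v _
    have e : @BoundedFormula.Realize L ℕ S _ _ (BoundedFormula.equal t1 t2) w v ↔
        @BoundedFormula.Realize L ℕ S' _ _ (BoundedFormula.equal t1 t2) w v := by
      show (@Term.realize L ℕ S _ _ t1 = @Term.realize L ℕ S _ _ t2) ↔
        (@Term.realize L ℕ S' _ _ t1 = @Term.realize L ℕ S' _ _ t2)
      rw [ht, ht]
    exact ⟨fun _ => e.1, fun _ => e.2⟩
  | @rel m l R ts =>
    intro b w v hb
    have e : (fun i => @Term.realize L ℕ S _ (Sum.elim w v) (ts i)) =
        fun i => @Term.realize L ℕ S' _ (Sum.elim w v) (ts i) := by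
      funext i
      exact ht _ _
    have e1 : @BoundedFormula.Realize L ℕ S _ _ (BoundedFormula.rel R ts) w v ↔
        S.RelMap R (fun i => @Term.realize L ℕ S' _ (Sum.elim w v) (ts i)) := by
      rw [← e]
      exact Iff.rfl
    constructor
    · rintro rfl h
      exact h1 _ R _ hb (e1.1 h)
    · rintro rfl h
      exact e1.2 (h2 _ R _ hb h)
  | imp φ ψ ih1 ih2 =>
    intro b w v hb
    constructor
    · rintro rfl h h'
      exact (ih2 true w v hb.2).1 rfl (h ((ih1 false w v hb.1).2 rfl h'))
    · rintro rfl h h'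
      exact (ih2 false w v hb.2).2 rfl (h ((ih1 true w v hb.1).1 rfl h'))
  | all φ ih =>
    intro b w v hb
    exact ⟨fun hb' h u => (ih b w _ hb).1 hb' (h u), fun hb' h u => (ih b w _ hb).2 hb' (h u)⟩

theorem alw_model (P : ∀ n, L.Relations n → Bool → Prop) [L.IsRelational] (T : L.Theory)
    (hT : ∀ σ ∈ T, Alw P true (σ : L.BoundedFormula Empty 0)) (S S' : L.Structure ℕ)
    (h1 : ∀ n (R : L.Relations n) t, P n R true → S.RelMap R t → S'.RelMap R t)
    (h2 : ∀ n (R : L.Relations n) t, P n R false → S'.RelMap R t → S.RelMap R t)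
    (hS : @Theory.Model L ℕ S T) : @Theory.Model L ℕ S' T := by
  rw [@Theory.model_iff L ℕ S' T]
  intro σ hσ
  exact (alw_imp P S S' h1 h2 σ true _ _ (hT σ hσ)).1 rfl ((@Theory.model_iff L ℕ S T).1 hS σ hσ)

/-- **Theorem.** The dichotomy holds if only symbols of arity at most one may occur with both
polarities. -/
theorem fo_mon [L.IsRelational] [Countable (Σ n, L.Relations n)]
    (P : ∀ n, L.Relations n → Bool → Prop)
    (hP : ∀ n (R : L.Relations n), P n R true → P n R false → n ≤ 1) (T : L.Theory)
    (hT : ∀ σ ∈ T, Alw P true (σ : L.BoundedFormula Empty 0)) :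
    DichC L {S | @Theory.Model L ℕ S T} := by
  classical
  obtain ⟨a, enc, henc, ha, ha0⟩ := exists_enc L
  refine dichC_of_cp enc ha henc _ ?_
  let s : ℕ → Bool := fun i => decide (∃ r : Σ n, L.Relations n, enc r = i ∧ P r.1 r.2 true)
  have hs : ∀ n (R : L.Relations n), s (enc ⟨n, R⟩) = true ↔ P n R true := by
    intro n R
    show decide _ = true ↔ _
    rw [decide_eq_true_eq]
    constructor
    · rintro ⟨r, hr, h⟩
      have : r = ⟨n, R⟩ := henc hr
      subst this
      exact h
    · exact fun h => ⟨_, rfl, h⟩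
  refine mon_dich s _ ?_ (inv_cls enc ha T) ?_
  · exact (closed_GC enc).measurableSet.inter (meas_model enc ha T)
  · rintro x ⟨hx, hxT⟩ y ⟨hy1, hy2, hy3⟩
    refine ⟨?_, ?_⟩
    · intro i hi t
      rw [hy1 i (by rw [ha0 i hi]; omega)]
      exact hx i hi t
    · refine alw_model P T hT (dcd enc ha x) (dcd enc ha y) ?_ ?_ hxT
      · intro n R t hR h
        exact hy2 _ _ ((hs n R).2 hR) h
      · intro n R t hR h
        by_cases h1 : P n R true
        · have h2 := hP n R h1 hR
          have h3 : y (enc ⟨n, R⟩) = x (enc ⟨n, R⟩) := hy1 _ (by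
            rw [ha]
            show n < 2
            omega)
          have h' : y (enc ⟨n, R⟩) (fun k => t (Fin.cast (ha ⟨n, R⟩) k)) = true := h
          rw [h3] at h'
          exact h'
        · have h2 : s (enc ⟨n, R⟩) = false := by
            rw [← Bool.not_eq_true, hs]
            exact h1
          exact hy3 _ _ h2 h

end Pool.Agent.Q205.VC
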