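import Pool.Agent.Q205.VC.Del
import Pool.Agent.Results.MP_5df2c5_lc.FiniteFlips

set_option autoImplicit false

/-!
# The dichotomy for classes of structures which are monotone in each relation of arity at least two
-/

namespace Pool.Agent.Q205.VC

open Set MeasureTheory
open Pool.Agent.Results.MP_5df2c5_lc.FiniteFlips (FlipSparse HasInfiniteCliqueSubdivision pair)

variable {a : ℕ → ℕ}

/-- the graph of the pairs of points which occur together in a tuple -/
def GG (x : Str a) : SimpleGraph ℕ where
  Adj u w := u ≠ w ∧ Adj x u w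
  symm := ⟨by
    rintro u w ⟨h1, i, hi, t, ht, h2, h3⟩
    exact ⟨h1.symm, i, hi, t, ht, h3, h2⟩⟩
  loopless := ⟨fun u h => h.1 rfl⟩

theorem flip_of {x : Str a} (h : ¬ HasInfiniteCliqueSubdivision (GG x)) : FlipSparse x := by
  refine ⟨GG x, 1, fun _ => 0, fun _ _ _ => false, h, ?_, ?_⟩
  · intro i hi u w huw hA
    rw [← Bool.not_eq_true]
    intro h1
    refine hA ⟨huw, i, hi.ge, _, h1, ⟨⟨0, by omega⟩, rfl⟩, ⟨1, by omega⟩, rfl⟩
  · intro i hi t ht j l
    by_cases hjl : t j = t l
    · exact Or.inl hjl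
    · right
      refine ⟨hjl, i, ?_, t, ht, ⟨j, rfl⟩, l, rfl⟩
      by_contra h2
      have h3 : j = l := by
        apply Fin.ext
        have := j.2
        have := l.2
        omega
      exact hjl (congrArg t h3)

theorem inf_deg {x : Str a} (h : HasInfiniteCliqueSubdivision (GG x)) :
    ∃ S : Set ℕ, S.Infinite ∧ ∀ v ∈ S, {u | ∃ e ∈ Edges x, v ∈ e ∧ u ∈ e}.Infinite := by
  obtain ⟨v, hv, P, h1, h2, h3⟩ := h
  refine ⟨range v, infinite_range_of_injective hv, ?_⟩
  rintro _ ⟨i, rfl⟩
  have hlt : ∀ m, i < i + 1 + m := fun m => by omega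
  let w : ℕ → ℕ := fun m => (P i (i + 1 + m)).snd
  have hadj : ∀ m, (GG x).Adj (v i) (w m) := by
    intro m
    refine SimpleGraph.Walk.adj_snd ?_
    refine SimpleGraph.Walk.not_nil_of_ne ?_
    intro h
    have := hv h
    omega
  have hsup : ∀ m, w m ∈ (P i (i + 1 + m)).support := fun m =>
    SimpleGraph.Walk.getVert_mem_support _ _
  have hk : ∀ m k, w m = v k → k = i + 1 + m := by
    intro m k hmk
    have h4 := hsup m
    rw [hmk] at h4
    rcases h2 _ _ k (hlt m) h4 with h5 | h5
    · exfalso
      have h6 := hadj m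
      rw [hmk, h5] at h6
      exact h6.1 rfl
    · exact h5
  have hinj : Function.Injective w := by
    intro m m' hmm
    by_contra hne
    obtain ⟨k, hk'⟩ := h3 i (i + 1 + m) i (i + 1 + m') (hlt m) (hlt m') (by
      intro h
      have := (Prod.ext_iff.1 h).2
      simp only at this
      omega) (w m) (hsup m) (by rw [hmm]; exact hsup m')
    have e1 := hk m k hk'
    have e2 := hk m' k (hmm ▸ hk')
    omega
  refine (infinite_range_of_injective hinj).mono ?_
  rintro _ ⟨m, rfl⟩
  obtain ⟨-, j, hj, t, ht, ⟨p, hp⟩, q, hq⟩ := hadj m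
  exact ⟨_, ⟨j, hj, t, ht, rfl⟩, Finset.mem_image.2 ⟨p, Finset.mem_univ _, hp⟩,
    Finset.mem_image.2 ⟨q, Finset.mem_univ _, hq⟩⟩

/-- `y` is obtained from `x` by deleting tuples of length at least two -/
def Le (y x : Str a) : Prop :=
  (∀ i, a i < 2 → y i = x i) ∧ ∀ i t, y i t = true → x i t = true

theorem perfect_of_not {x : Str a} (hx : ¬ FlipSparse x) :
    ∃ g : (ℕ → Bool) → Str a, Continuous g ∧ (∀ c, Le (g c) x) ∧
      ∀ c d, Iso (g c) (g d) → c = d := by
  have hG : HasInfiniteCliqueSubdivision (GG x) := by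
    by_contra h
    exact hx (flip_of h)
  by_cases hI : {i | 2 ≤ a i ∧ ∃ t, x i t = true}.Finite
  · have hn : ∃ n, ∀ e ∈ Edges x, e.card ≤ n := by
      obtain ⟨n, hn⟩ := (hI.image a).bddAbove
      refine ⟨n, ?_⟩
      rintro e ⟨i, hi, t, ht, rfl⟩
      refine Finset.card_image_le.trans ?_
      rw [Finset.card_univ, Fintype.card_fin]
      exact hn ⟨i, ⟨hi, t, ht⟩, rfl⟩
    obtain ⟨n, hn⟩ := hn
    obtain ⟨S, hS, hS'⟩ := inf_deg hG
    obtain ⟨K, hK⟩ := exists_kernel hn hS hS'
    obtain ⟨v, D, V, hV⟩ := exists_stars hK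
    obtain ⟨g, hg, hgi⟩ := perfect_of_stars hV
    refine ⟨fun c => fam x D (g c), (cont_fam hV).comp hg, fun c => ⟨fun i hi => ?_, fun i t h => ?_⟩,
      hgi⟩
    · funext t
      classical
      show (x i t && (decide (a i < 2) || decide _)) = x i t
      rw [decide_eq_true hi, Bool.true_or, Bool.and_true]
    · exact (Bool.and_eq_true _ _ ▸ (h : (x i t && _) = true)).1
  · have hI' : {i | 2 ≤ a i ∧ ∃ t, x i t = true}.Infinite := hI
    let e := hI'.natEmbedding
    classical
    let g : (ℕ → Bool) → Str a := fun α i t =>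
      x i t && decide (∀ k, (e k : ℕ) = i → α k = true)
    have g_e : ∀ α k t, g α (e k) t = (x (e k) t && α k) := by
      intro α k t
      show (x (e k) t && decide (∀ k', (e k' : ℕ) = (e k : ℕ) → α k' = true)) = _
      congr 1
      rw [Bool.eq_iff_iff, decide_eq_true_eq]
      constructor
      · exact fun h => h k rfl
      · intro h k' hk
        rw [e.injective (Subtype.ext hk)]
        exact h
    have g_n : ∀ α i t, (¬ ∃ k, (e k : ℕ) = i) → g α i t = x i t := by
      intro α i t h
      show (x i t && decide (∀ k', (e k' : ℕ) = i → α k' = true)) = _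
      rw [decide_eq_true, Bool.and_true]
      exact fun k hk => absurd ⟨k, hk⟩ h
    refine ⟨g, ?_, fun c => ⟨fun i hi => ?_, fun i t h => ?_⟩, fun c d h => ?_⟩
    · refine continuous_pi fun i => continuous_pi fun t => ?_
      by_cases h : ∃ k, (e k : ℕ) = i
      · obtain ⟨k, rfl⟩ := h
        have e1 : (fun α : ℕ → Bool => g α (e k) t) = fun α => x (e k) t && α k := by
          funext α
          exact g_e α k t
        rw [e1]
        exact (continuous_of_discreteTopology (f := fun b : Bool => x (e k) t && b)).comp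
          (continuous_apply k)
      · have e1 : (fun α : ℕ → Bool => g α i t) = fun α => x i t := by
          funext α
          exact g_n α i t h
        rw [e1]
        exact continuous_const
    · funext t
      refine g_n c i t ?_
      rintro ⟨k, rfl⟩
      have := (e k).2.1
      omega
    · exact (Bool.and_eq_true _ _ ▸ (h : (x i t && _) = true)).1
    · have key : ∀ c k, c k = true ↔ ∃ t, g c (e k) t = true := by
        intro c k
        constructor
        · intro hk
          obtain ⟨t, ht⟩ := (e k).2.2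
          exact ⟨t, by rw [g_e, ht, hk]; rfl⟩
        · rintro ⟨t, ht⟩
          rw [g_e] at ht
          exact (Bool.and_eq_true _ _ ▸ ht).2
      obtain ⟨σ, hσ⟩ := h
      funext k
      rw [Bool.eq_iff_iff, key, key]
      constructor
      · rintro ⟨t, ht⟩
        exact ⟨⇑σ ∘ t, by rw [hσ]; exact ht⟩
      · rintro ⟨t, ht⟩
        refine ⟨⇑σ.symm ∘ t, ?_⟩
        rw [← hσ]
        have e1 : (⇑σ ∘ (⇑σ.symm ∘ t)) = t := by
          funext m
          exact σ.apply_symm_apply _
        rw [e1]
        exact ht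

theorem del_dich (B : Set (Str a)) (hB : MeasurableSet B)
    (hi : ∀ x y, Iso x y → (x ∈ B ↔ y ∈ B)) (hd : ∀ x ∈ B, ∀ y, Le y x → y ∈ B) : CP B := by
  by_cases h : ∀ x ∈ B, FlipSparse x
  · exact (Pool.Agent.Results.MP_5df2c5_lc.FiniteFlips.result a FlipSparse
      (Pool.Agent.Results.MP_5df2c5_lc.FiniteFlips.Tame.flip a)).2 B hB hi h
  · push Not at h
    obtain ⟨x, hx, hx'⟩ := h
    obtain ⟨g, hg, hgl, hgi⟩ := perfect_of_not hx'
    exact Or.inr ⟨g, hg, fun c => hd x hx _ (hgl c), hgi⟩

/-! ### Signs -/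

/-- complement the relations with sign `true` and arity at least two -/
def flp (s : ℕ → Bool) (x : Str a) : Str a :=
  fun i t => Bool.xor (x i t) (s i && decide (2 ≤ a i))

theorem flp_flp (s : ℕ → Bool) (x : Str a) : flp s (flp s x) = x := by
  funext i t
  unfold flp
  rw [Bool.xor_assoc, Bool.xor_self, Bool.xor_false]

theorem cont_flp (s : ℕ → Bool) : Continuous (flp s : Str a → Str a) := by
  refine continuous_pi fun i => continuous_pi fun t => ?_
  exact (continuous_of_discreteTopology
    (f := fun b : Bool => Bool.xor b (s i && decide (2 ≤ a i)))).comp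
    ((continuous_apply t).comp (continuous_apply i))

theorem iso_flp (s : ℕ → Bool) {x y : Str a} (h : Iso x y) : Iso (flp s x) (flp s y) := by
  obtain ⟨σ, h⟩ := h
  refine ⟨σ, fun i v => ?_⟩
  unfold flp
  rw [h]

/-- `y` is obtained from `x` by adding tuples to the relations with sign `true` and deleting tuples
from the relations with sign `false`, only for relations of arity at least two -/
def LeS (s : ℕ → Bool) (y x : Str a) : Prop :=
  (∀ i, a i < 2 → y i = x i) ∧ (∀ i t, s i = true → x i t = true → y i t = true) ∧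
    ∀ i t, s i = false → y i t = true → x i t = true

/-- **The dichotomy for monotone classes.** -/
theorem mon_dich (s : ℕ → Bool) (B : Set (Str a)) (hB : MeasurableSet B)
    (hi : ∀ x y, Iso x y → (x ∈ B ↔ y ∈ B)) (hd : ∀ x ∈ B, ∀ y, LeS s y x → y ∈ B) : CP B := by
  have h1 : CP (flp s ⁻¹' B) := by
    refine del_dich _ ((cont_flp s).measurable hB) (fun x y h => hi _ _ (iso_flp s h)) ?_
    intro x hx y hy
    refine hd _ hx _ ⟨fun i hi => ?_, fun i t hs hx' => ?_, fun i t hs hx' => ?_⟩
    · funext t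
      unfold flp
      rw [hy.1 i hi]
    · by_cases h2 : 2 ≤ a i
      · unfold flp at hx' ⊢
        rw [hs, decide_eq_true h2, Bool.and_self, Bool.xor_true, Bool.not_eq_true'] at hx' ⊢
        rw [← Bool.not_eq_true] at hx' ⊢
        exact fun h => hx' (hy.2 i t h)
      · unfold flp at hx' ⊢
        rw [decide_eq_false h2, Bool.and_false, Bool.xor_false] at hx' ⊢
        rw [hy.1 i (by omega)]
        exact hx'
    · unfold flp at hx' ⊢
      rw [hs, Bool.false_and, Bool.xor_false] at hx' ⊢
      exact hy.2 i t hx'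
  rcases h1 with ⟨f, hf⟩ | ⟨g, hg, hgB, hgi⟩
  · left
    refine ⟨fun n => flp s (f n), fun x hx => ?_⟩
    obtain ⟨n, hn⟩ := hf (flp s x) (by show flp s (flp s x) ∈ B; rw [flp_flp]; exact hx)
    refine ⟨n, ?_⟩
    have := iso_flp s hn
    rwa [flp_flp] at this
  · right
    refine ⟨fun c => flp s (g c), (cont_flp s).comp hg, hgB, fun c d h => hgi c d ?_⟩
    have := iso_flp s h
    rwa [flp_flp, flp_flp] at this

end Pool.Agent.Q205.VC
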