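import Pool.Agent.Q205.VC.FoM
import Pool.Agent.TH686.DO.Inv2

set_option autoImplicit false

/-!
# One relation symbol of arity at least two with both polarities gives the full conjecture
-/

namespace Pool.Agent.Q205.VC

open Set FirstOrder FirstOrder.Language
open Pool.Agent.TH686.FO (L2 R2 g1 g2)
open Pool.Agent.TH686.DO (IW)
open Pool.Agent.W889.FO (VaughtF SIso siso_of iso_rel)

section tr

variable {L : FirstOrder.Language.{0, 0}} {k : ℕ} (Q : L.Relations k)

/-- `Q (x, y, y, ...)` -/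
def qf {m : ℕ} (x y : Empty ⊕ Fin m) : L.BoundedFormula Empty m :=
  .rel Q (fun j : Fin k => Term.var (if j.val = 0 then x else y))

/-- the old variables -/
def up {m : ℕ} : Empty ⊕ Fin m → Empty ⊕ Fin (m + 1) := Sum.map id Fin.castSucc

/-- the new variable -/
def nw (m : ℕ) : Empty ⊕ Fin (m + 1) := Sum.inr (Fin.last m)

/-- the new variable is strictly between the others -/
def bt {m : ℕ} (x y : Empty ⊕ Fin m) : L.BoundedFormula Empty (m + 1) :=
  (qf Q (up x) (nw m) ⊓ (qf Q (nw m) (up x)).not) ⊓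
    (qf Q (nw m) (up y) ⊓ (qf Q (up y) (nw m)).not)

/-- the order -/
def ff {m : ℕ} (x y : Empty ⊕ Fin m) : L.BoundedFormula Empty m :=
  (qf Q x y ⊓ (qf Q y x).not) ⊔ ((qf Q x y ⊓ qf Q y x) ⊓ (bt Q x y).ex)

/-- the variable of a term -/
def vr {β : Type} : L2.Term β → β
  | .var i => i
  | .func f _ => Empty.elim f

def trR {m : ℕ} : ∀ {l : ℕ}, R2 l → (Fin l → L2.Term (Empty ⊕ Fin m)) → L.BoundedFormula Empty m
  | _, R2.fst, ts => ff Q (vr (ts 0)) (vr (ts 1))
  | _, R2.snd, ts => qf Q (vr (ts 0)) (vr (ts 1)) ⊓ qf Q (vr (ts 1)) (vr (ts 0))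

/-- the translation -/
def tr : ∀ {m : ℕ}, L2.BoundedFormula Empty m → L.BoundedFormula Empty m
  | _, .falsum => .falsum
  | _, .equal t1 t2 => .equal (Term.var (vr t1)) (Term.var (vr t2))
  | _, .rel R ts => trR Q R ts
  | _, .imp φ ψ => .imp (tr φ) (tr ψ)
  | _, .all φ => .all (tr φ)

/-- both polarities -/
def AlB (P : ∀ n, L.Relations n → Bool → Prop) {m : ℕ} (φ : L.BoundedFormula Empty m) : Prop :=
  ∀ b, Alw P b φ

variable {P : ∀ n, L.Relations n → Bool → Prop} {m : ℕ}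

theorem AlB.imp {φ ψ : L.BoundedFormula Empty m} (h : AlB P φ) (h' : AlB P ψ) :
    AlB P (φ.imp ψ) := fun b => ⟨h _, h' _⟩

theorem AlB.fls : AlB P (⊥ : L.BoundedFormula Empty m) := fun _ => trivial

theorem AlB.not {φ : L.BoundedFormula Empty m} (h : AlB P φ) : AlB P φ.not := h.imp AlB.fls

theorem AlB.inf {φ ψ : L.BoundedFormula Empty m} (h : AlB P φ) (h' : AlB P ψ) :
    AlB P (φ ⊓ ψ) := (h.imp h'.not).not

theorem AlB.sup {φ ψ : L.BoundedFormula Empty m} (h : AlB P φ) (h' : AlB P ψ) :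
    AlB P (φ ⊔ ψ) := h.not.imp h'

theorem AlB.all {φ : L.BoundedFormula Empty (m + 1)} (h : AlB P φ) : AlB P φ.all := fun b => h b

theorem AlB.ex {φ : L.BoundedFormula Empty (m + 1)} (h : AlB P φ) : AlB P φ.ex := h.not.all.not

theorem AlB.qf (h1 : P k Q true) (h2 : P k Q false) (x y : Empty ⊕ Fin m) :
    AlB P (qf Q x y) := by
  intro b
  cases b
  · exact h2
  · exact h1

theorem AlB.ff (h1 : P k Q true) (h2 : P k Q false) (x y : Empty ⊕ Fin m) :
    AlB P (ff Q x y) := by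
  have h : ∀ {m : ℕ} (x y : Empty ⊕ Fin m), AlB P (VC.qf Q x y) := fun x y => AlB.qf Q h1 h2 x y
  exact ((h _ _).inf (h _ _).not).sup (((h _ _).inf (h _ _)).inf
    (((h _ _).inf (h _ _).not).inf ((h _ _).inf (h _ _).not)).ex)

theorem AlB.tr (h1 : P k Q true) (h2 : P k Q false) (φ : L2.BoundedFormula Empty m) :
    AlB P (tr Q φ) := by
  induction φ with
  | falsum => exact AlB.fls
  | equal t1 t2 => exact fun _ => trivial
  | rel R ts =>
    cases R with
    | fst => exact AlB.ff Q h1 h2 _ _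
    | snd => exact (AlB.qf Q h1 h2 _ _).inf (AlB.qf Q h1 h2 _ _)
  | imp φ ψ ih1 ih2 => exact ih1.imp ih2
  | all φ ih => exact ih.all

theorem alw_alls (b : Bool) : ∀ {n : ℕ} (φ : L.BoundedFormula Empty n),
    Alw P b φ → Alw P b (φ.alls : L.BoundedFormula Empty 0)
  | 0, _, h => h
  | _ + 1, φ, h => alw_alls b φ.all h

/-- the relation `Q (u, w, w, ...)` -/
def qq (S : L.Structure ℕ) (u w : ℕ) : Prop := S.RelMap Q (fun j : Fin k => if j.val = 0 then u else w)

/-- the order -/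
def FF (S : L.Structure ℕ) (u w : ℕ) : Prop :=
  (qq Q S u w ∧ ¬ qq Q S w u) ∨ ((qq Q S u w ∧ qq Q S w u) ∧
    ∃ z, (qq Q S u z ∧ ¬ qq Q S z u) ∧ (qq Q S z w ∧ ¬ qq Q S w z))

/-- the decoded structure -/
@[reducible] def DD (S : L.Structure ℕ) : L2.Structure ℕ where
  funMap := fun {_} f => Empty.elim f
  RelMap := fun {n} R => match n, R with
    | _, R2.fst => fun v => FF Q S (v 0) (v 1)
    | _, R2.snd => fun v => qq Q S (v 0) (v 1) ∧ qq Q S (v 1) (v 0)

theorem rz_qf (S : L.Structure ℕ) (x y : Empty ⊕ Fin m) (w : Empty → ℕ) (v : Fin m → ℕ) :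
    @BoundedFormula.Realize L ℕ S _ _ (qf Q x y) w v ↔
      qq Q S (Sum.elim w v x) (Sum.elim w v y) := by
  show S.RelMap Q _ ↔ S.RelMap Q _
  have e : (fun j : Fin k => @Term.realize L ℕ S _ (Sum.elim w v)
      (Term.var (if j.val = 0 then x else y))) =
      fun j : Fin k => if j.val = 0 then Sum.elim w v x else Sum.elim w v y := by
    funext j
    show Sum.elim w v (if j.val = 0 then x else y) = _
    split_ifs <;> rfl
  rw [e]

theorem up_el (w : Empty → ℕ) (v : Fin m → ℕ) (z : ℕ) (x : Empty ⊕ Fin m) :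
    Sum.elim w (Fin.snoc (α := fun _ => ℕ) v z) (up x) = Sum.elim w v x := by
  rcases x with x | x
  · rfl
  · show Fin.snoc (α := fun _ => ℕ) v z x.castSucc = v x
    rw [Fin.snoc_castSucc]

theorem nw_el (w : Empty → ℕ) (v : Fin m → ℕ) (z : ℕ) :
    Sum.elim w (Fin.snoc (α := fun _ => ℕ) v z) (nw m) = z := by
  show Fin.snoc (α := fun _ => ℕ) v z (Fin.last m) = z
  rw [Fin.snoc_last]

theorem rz_ff (S : L.Structure ℕ) (x y : Empty ⊕ Fin m) (w : Empty → ℕ) (v : Fin m → ℕ) :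
    @BoundedFormula.Realize L ℕ S _ _ (ff Q x y) w v ↔
      FF Q S (Sum.elim w v x) (Sum.elim w v y) := by
  letI := S
  unfold ff bt FF
  simp only [BoundedFormula.realize_sup, BoundedFormula.realize_inf, BoundedFormula.realize_not,
    BoundedFormula.realize_ex, rz_qf, up_el, nw_el]

theorem rz_tr (S : L.Structure ℕ) (φ : L2.BoundedFormula Empty m) (w : Empty → ℕ)
    (v : Fin m → ℕ) : @BoundedFormula.Realize L ℕ S _ _ (tr Q φ) w v ↔
      @BoundedFormula.Realize L2 ℕ (DD Q S) _ _ φ w v := by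
  have hv : ∀ {m} (t : L2.Term (Empty ⊕ Fin m)) (w : Empty → ℕ) (v : Fin m → ℕ),
      @Term.realize L2 ℕ (DD Q S) _ (Sum.elim w v) t = Sum.elim w v (vr t) := by
    intro m t w v
    cases t with
    | var i => rfl
    | func f _ => exact Empty.elim f
  induction φ with
  | falsum => exact Iff.rfl
  | equal t1 t2 =>
    show Sum.elim w v (vr t1) = Sum.elim w v (vr t2) ↔
      (@Term.realize L2 ℕ (DD Q S) _ (Sum.elim w v) t1 =
        @Term.realize L2 ℕ (DD Q S) _ (Sum.elim w v) t2)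
    rw [hv, hv]
  | rel R ts =>
    cases R with
    | fst =>
      show @BoundedFormula.Realize L ℕ S _ _ (ff Q (vr (ts 0)) (vr (ts 1))) w v ↔
        FF Q S (@Term.realize L2 ℕ (DD Q S) _ (Sum.elim w v) (ts 0))
          (@Term.realize L2 ℕ (DD Q S) _ (Sum.elim w v) (ts 1))
      rw [hv, hv, rz_ff]
    | snd =>
      show @BoundedFormula.Realize L ℕ S _ _ (qf Q (vr (ts 0)) (vr (ts 1)) ⊓
        qf Q (vr (ts 1)) (vr (ts 0))) w v ↔
        (qq Q S (@Term.realize L2 ℕ (DD Q S) _ (Sum.elim w v) (ts 0))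
          (@Term.realize L2 ℕ (DD Q S) _ (Sum.elim w v) (ts 1)) ∧
        qq Q S (@Term.realize L2 ℕ (DD Q S) _ (Sum.elim w v) (ts 1))
          (@Term.realize L2 ℕ (DD Q S) _ (Sum.elim w v) (ts 0)))
      letI := S
      rw [BoundedFormula.realize_inf, rz_qf, rz_qf, hv, hv]
  | imp φ ψ ih1 ih2 => exact imp_congr (ih1 v) (ih2 v)
  | all φ ih => exact forall_congr' fun u => ih _

end tr

end Pool.Agent.Q205.VC
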