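import Mathlib

set_option autoImplicit false

/-!
# Disjoint stars over a finite kernel in hypergraphs with bounded edges
-/

namespace Pool.Agent.Q205.VC

open Set

/-- `D` is a finite set of edges through `v`, which is outside `F`, all of them meet `F` inside `K`,
and together they have at least `s` elements outside `K` -/
def Star (H : Set (Finset ℕ)) (K F : Finset ℕ) (s : ℕ) (v : ℕ) (D : Finset (Finset ℕ)) : Prop :=
  v ∉ F ∧ (∀ e ∈ D, e ∈ H ∧ v ∈ e ∧ e ∩ F ⊆ K) ∧ s ≤ (D.biUnion id \ K).card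

/-- `K` is the kernel of arbitrarily large and arbitrarily remote stars -/
def Kernel (H : Set (Finset ℕ)) (K : Finset ℕ) : Prop :=
  ∀ (F : Finset ℕ), K ⊆ F → ∀ s, ∃ v D, Star H K F s v D

theorem exists_kernel {H : Set (Finset ℕ)} {n : ℕ} (hn : ∀ e ∈ H, e.card ≤ n) {S : Set ℕ}
    (hS : S.Infinite) (hv : ∀ v ∈ S, {u | ∃ e ∈ H, v ∈ e ∧ u ∈ e}.Infinite) :
    ∃ K, Kernel H K := by
  by_contra hcon
  have h0 : ∀ K : Finset ℕ, ∃ F : Finset ℕ, K ⊆ F ∧ ∃ s, ∀ v D, ¬ Star H K F s v D := by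
    intro K
    by_contra h
    apply hcon
    refine ⟨K, fun F hF s => ?_⟩
    by_contra h'
    exact h ⟨F, hF, s, fun v D hD => h' ⟨v, D, hD⟩⟩
  choose F hF s hs using h0
  let f : ℕ → Finset ℕ := fun r => Nat.rec ∅ (fun _ K => F K) r
  have f_succ : ∀ r, f (r + 1) = F (f r) := fun r => rfl
  have f_mono : Monotone f := monotone_nat_of_le_succ fun r => by
    rw [f_succ]
    exact hF (f r)
  obtain ⟨v, hvS, hvF⟩ := hS.exists_notMem_finset (f (n + 1))
  have hfin : ∀ r ≤ n, {u | ∃ e ∈ H, v ∈ e ∧ u ∈ e ∧ e ∩ f (r + 1) ⊆ f r}.Finite := by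
    intro r hr
    by_contra hinf
    have hfr : {u | u ∈ f r}.Finite := (f r).finite_toSet
    have hinf' : ({u | ∃ e ∈ H, v ∈ e ∧ u ∈ e ∧ e ∩ f (r + 1) ⊆ f r} \ {u | u ∈ f r}).Infinite :=
      Set.Infinite.sdiff hinf hfr
    obtain ⟨T, hT, hTc⟩ := hinf'.exists_subset_card_eq (s (f r))
    have hT' : ∀ u ∈ T, ∃ e ∈ H, v ∈ e ∧ u ∈ e ∧ e ∩ f (r + 1) ⊆ f r := fun u hu => (hT hu).1
    choose! g hg1 hg2 hg3 hg4 using hT'
    apply hs (f r) v (T.image g)
    refine ⟨fun h => hvF (f_mono (Nat.succ_le_succ hr) h), ?_, ?_⟩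
    · intro e he
      obtain ⟨u, hu, rfl⟩ := Finset.mem_image.1 he
      exact ⟨hg1 u hu, hg2 u hu, hg4 u hu⟩
    · rw [← hTc]
      refine Finset.card_le_card fun u hu => ?_
      rw [Finset.mem_sdiff, Finset.mem_biUnion]
      exact ⟨⟨g u, Finset.mem_image_of_mem _ hu, hg3 u hu⟩, fun h => (hT hu).2 h⟩
  have hfin2 : (⋃ r ∈ Finset.range (n + 1),
      {u | ∃ e ∈ H, v ∈ e ∧ u ∈ e ∧ e ∩ f (r + 1) ⊆ f r}).Finite := by
    refine Set.Finite.biUnion (Finset.finite_toSet _) fun r hr => hfin r ?_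
    have := Finset.mem_range.1 hr
    omega
  obtain ⟨u, hu, hu'⟩ := (hv v hvS).exists_notMem_finite hfin2
  obtain ⟨e, he, hve, hue⟩ := hu
  have h1 : ∀ r : Fin (n + 1), ∃ z ∈ e, z ∈ f (r + 1) ∧ z ∉ f r := by
    intro r
    refine Classical.by_contradiction fun hcon' => hu' ?_
    refine mem_iUnion₂.2 ⟨r.1, Finset.mem_range.2 r.2, e, he, hve, hue, fun z hz => ?_⟩
    refine Classical.by_contradiction fun hz' => ?_
    exact hcon' ⟨z, (Finset.mem_inter.1 hz).1, (Finset.mem_inter.1 hz).2, hz'⟩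
  choose z hz1 hz2 hz3 using h1
  have hinj : Function.Injective z := by
    intro r r' hrr
    by_contra hne
    rcases lt_or_gt_of_ne hne with h | h
    · exact hz3 r' (hrr ▸ f_mono (show r.1 + 1 ≤ r'.1 from h) (hz2 r))
    · exact hz3 r (hrr ▸ f_mono (show r'.1 + 1 ≤ r.1 from h) (hz2 r'))
  have h2 : (Finset.univ.image z).card = n + 1 := by
    rw [Finset.card_image_of_injective _ hinj, Finset.card_univ, Fintype.card_fin]
  have h3 : Finset.univ.image z ⊆ e := by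
    intro w hw
    obtain ⟨r, -, rfl⟩ := Finset.mem_image.1 hw
    exact hz1 r
  have := Finset.card_le_card h3
  have := hn e he
  omega

/-- disjoint stars over `K` with increasing sizes -/
structure Stars (H : Set (Finset ℕ)) (K : Finset ℕ) (v : ℕ → ℕ) (D : ℕ → Finset (Finset ℕ))
    (V : ℕ → Finset ℕ) : Prop where
  V_eq : ∀ j, V j = (D j).biUnion id \ K
  sub : ∀ j, ∀ e ∈ D j, e ∈ H
  ctr : ∀ j, ∀ e ∈ D j, v j ∈ e
  mem : ∀ j, v j ∈ V j
  disj : ∀ i j, i ≠ j → Disjoint (V i) (V j)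
  two : ∀ j, 2 ≤ (V j).card
  mono : StrictMono fun j => (V j).card

theorem Stars.edge_sub {H : Set (Finset ℕ)} {K : Finset ℕ} {v : ℕ → ℕ}
    {D : ℕ → Finset (Finset ℕ)} {V : ℕ → Finset ℕ} (h : Stars H K v D V) {j : ℕ} {e : Finset ℕ}
    (he : e ∈ D j) {u : ℕ} (hu : u ∈ e) (hK : u ∉ K) : u ∈ V j := by
  rw [h.V_eq]
  exact Finset.mem_sdiff.2 ⟨Finset.mem_biUnion.2 ⟨e, he, hu⟩, hK⟩

theorem Stars.of_mem {H : Set (Finset ℕ)} {K : Finset ℕ} {v : ℕ → ℕ}
    {D : ℕ → Finset (Finset ℕ)} {V : ℕ → Finset ℕ} (h : Stars H K v D V) {j : ℕ} {u : ℕ}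
    (hu : u ∈ V j) : u ∉ K ∧ ∃ e ∈ D j, u ∈ e := by
  rw [h.V_eq] at hu
  obtain ⟨h1, h2⟩ := Finset.mem_sdiff.1 hu
  obtain ⟨e, he, hue⟩ := Finset.mem_biUnion.1 h1
  exact ⟨h2, e, he, hue⟩

theorem exists_stars {H : Set (Finset ℕ)} {K : Finset ℕ} (hK : Kernel H K) :
    ∃ v D V, Stars H K v D V := by
  have h0 : ∀ p : Finset ℕ × ℕ, ∃ q : ℕ × Finset (Finset ℕ), Star H K (p.1 ∪ K) (p.2 + 2) q.1 q.2 := by
    intro p
    obtain ⟨v, D, h⟩ := hK (p.1 ∪ K) Finset.subset_union_right (p.2 + 2)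
    exact ⟨(v, D), h⟩
  choose q hq using h0
  let W : Finset ℕ × ℕ → Finset ℕ := fun p => (q p).2.biUnion id \ K
  let st : ℕ → Finset ℕ × ℕ := fun j =>
    Nat.rec (∅, 0) (fun _ p => (p.1 ∪ W p, (W p).card)) j
  have st_succ : ∀ j, st (j + 1) = ((st j).1 ∪ W (st j), (W (st j)).card) := fun j => rfl
  have st_mono : ∀ i j, i ≤ j → (st i).1 ⊆ (st j).1 := by
    intro i j hij
    induction hij with
    | refl => exact subset_rfl
    | step h ih =>
      rw [st_succ]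
      exact ih.trans Finset.subset_union_left
  have hsub : ∀ i j, i < j → W (st i) ⊆ (st j).1 := by
    intro i j hij
    refine subset_trans ?_ (st_mono (i + 1) j hij)
    rw [st_succ]
    exact Finset.subset_union_right
  have hWd : ∀ j, Disjoint (W (st j)) (st j).1 := by
    intro j
    rw [Finset.disjoint_left]
    intro u hu hu'
    obtain ⟨h1, h2⟩ := Finset.mem_sdiff.1 hu
    obtain ⟨e, he, hue⟩ := Finset.mem_biUnion.1 h1
    exact h2 (((hq (st j)).2.1 e he).2.2 (Finset.mem_inter.2 ⟨hue, Finset.mem_union_left _ hu'⟩))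
  have hcard : ∀ j, (st j).2 + 2 ≤ (W (st j)).card := fun j => (hq (st j)).2.2
  have hmono : StrictMono fun j => (W (st j)).card := by
    refine strictMono_nat_of_lt_succ fun j => ?_
    have := hcard (j + 1)
    have e : (st (j + 1)).2 = (W (st j)).card := rfl
    omega
  refine ⟨fun j => (q (st j)).1, fun j => (q (st j)).2, fun j => W (st j), fun j => rfl,
    fun j e he => ((hq (st j)).2.1 e he).1, fun j e he => ((hq (st j)).2.1 e he).2.1, fun j => ?_,
    fun i j hij => ?_, fun j => ?_, hmono⟩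
  · have h1 := hcard j
    have h2 : (W (st j)).Nonempty := Finset.card_pos.1 (by omega)
    obtain ⟨u, hu⟩ := h2
    obtain ⟨e, he, -⟩ := Finset.mem_biUnion.1 (Finset.mem_sdiff.1 hu).1
    refine Finset.mem_sdiff.2 ⟨Finset.mem_biUnion.2 ⟨e, he, ((hq (st j)).2.1 e he).2.1⟩, fun h => ?_⟩
    exact (hq (st j)).1 (Finset.mem_union_right _ h)
  · rcases lt_or_gt_of_ne hij with h | h
    · exact (Finset.disjoint_of_subset_right (hsub i j h) (hWd j)).symm
    · exact Finset.disjoint_of_subset_right (hsub j i h) (hWd i)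
  · have := hcard j
    show 2 ≤ (W (st j)).card
    omega

end Pool.Agent.Q205.VC
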